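import Mathlib

/-!
# Reading variables once, the exact exponent: a random-like function

The function has the value `true` on the set `X` if the number of the hash functions `i` which are
switched on and which have the value `0` on `X` is odd.
-/

set_option autoImplicit false

namespace Pool.Agent.EX

open Finset

/-- parameters: for each `i < L` a switch, a shift and the weights of the elements -/
abbrev Par (m q L : ℕ) : Type := Fin L → Bool × ZMod q × (Fin m → ZMod q)

/-- the value of the hash function `i` on the set `X` -/
def hv {m q L : ℕ} (y : Par m q L) (i : Fin L) (X : Finset (Fin m)) : ZMod q :=
  (y i).2.1 + ∑ e ∈ X, (y i).2.2 e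

/-- the value of the random-like function on the set `X` -/
def hsh {m q L : ℕ} (y : Par m q L) (X : Finset (Fin m)) : Bool :=
  decide (Odd (univ.filter fun i => (y i).1 = true ∧ hv y i X = 0).card)

end Pool.Agent.EX
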