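import Mathlib
import Pool.Agent.Lib.MP_0a1b52_lc_EX.Defs

/-!
# Reading variables once, module Chain: the function as a system of constraints

For each `i < L` a chain of nodes `(i, e)`, `e ≤ m`, with the letter `(σ, b)`: `σ` is the sum
`shift + ∑ e' < e, e' ∈ R, weight e'`; for `e < m` the bit `b` says whether `e ∈ R`; for `e = m` the
bit `b` is the parity of the number of the `i' < i` which are switched on and have the value `0`.
The last chain `i = L` (shift `0`, weights `1`) counts the elements of `R`; its last letter must be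
`(h, true)` or `(h + 1, _)`.
-/

set_option autoImplicit false

namespace Pool.Agent.EX

open Finset

/-- the partial sums -/
private def Sf {m q : ℕ} (sh : ZMod q) (w : Fin m → ZMod q) (R : Finset (Fin m)) (k : ℕ) :
    ZMod q := sh + ∑ e ∈ R.filter (fun e => e.val < k), w e

private theorem Sf_zero {m q : ℕ} (sh : ZMod q) (w : Fin m → ZMod q) (R : Finset (Fin m)) :
    Sf sh w R 0 = sh := by
  simp [Sf]

private theorem Sf_succ {m q : ℕ} (sh : ZMod q) (w : Fin m → ZMod q) (R : Finset (Fin m)) (k : ℕ)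
    (hk : k < m) :
    Sf sh w R (k + 1) = Sf sh w R k + if (⟨k, hk⟩ : Fin m) ∈ R then w ⟨k, hk⟩ else 0 := by
  unfold Sf
  rw [add_assoc]
  congr 1
  by_cases h : (⟨k, hk⟩ : Fin m) ∈ R
  · rw [if_pos h]
    have h1 : R.filter (fun e => e.val < k + 1) =
        insert ⟨k, hk⟩ (R.filter (fun e => e.val < k)) := by
      ext e
      rw [mem_insert, mem_filter, mem_filter]
      constructor
      · rintro ⟨h1, h2⟩
        rcases Nat.lt_succ_iff_lt_or_eq.1 h2 with h3 | h3
        · exact Or.inr ⟨h1, h3⟩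
        · exact Or.inl (Fin.ext h3)
      · rintro (rfl | ⟨h1, h2⟩)
        · exact ⟨h, Nat.lt_succ_self _⟩
        · exact ⟨h1, by omega⟩
    rw [h1, sum_insert, add_comm]
    rw [mem_filter]
    exact fun h => lt_irrefl _ h.2
  · rw [if_neg h, add_zero]
    have h1 : R.filter (fun e => e.val < k + 1) = R.filter (fun e => e.val < k) := by
      ext e
      rw [mem_filter, mem_filter]
      constructor
      · rintro ⟨h1, h2⟩
        rcases Nat.lt_succ_iff_lt_or_eq.1 h2 with h3 | h3
        · exact ⟨h1, h3⟩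
        · exact absurd (show (⟨k, hk⟩ : Fin m) ∈ R from by
            rw [show (⟨k, hk⟩ : Fin m) = e from Fin.ext h3.symm]
            exact h1) h
      · rintro ⟨h1, h2⟩
        exact ⟨h1, by omega⟩
    rw [h1]

private theorem Sf_last {m q : ℕ} (sh : ZMod q) (w : Fin m → ZMod q) (R : Finset (Fin m)) :
    Sf sh w R m = sh + ∑ e ∈ R, w e := by
  unfold Sf
  rw [filter_true_of_mem fun e _ => e.2]

/-- the partial parities -/
private def Pf {m q L : ℕ} (y : Par m q L) (R : Finset (Fin m)) (i : ℕ) : Bool :=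
  decide (Odd (univ.filter fun i' : Fin L =>
    i'.val < i ∧ (y i').1 = true ∧ hv y i' R = 0).card)

private theorem Pf_zero {m q L : ℕ} (y : Par m q L) (R : Finset (Fin m)) : Pf y R 0 = false := by
  simp [Pf]

private theorem Pf_succ {m q L : ℕ} (y : Par m q L) (R : Finset (Fin m)) (i : ℕ) (hi : i < L) :
    Pf y R (i + 1) = xor (Pf y R i) ((y ⟨i, hi⟩).1 && decide (hv y ⟨i, hi⟩ R = 0)) := by
  unfold Pf
  by_cases h : (y ⟨i, hi⟩).1 = true ∧ hv y ⟨i, hi⟩ R = 0
  · have h1 : (univ.filter fun i' : Fin L =>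
        i'.val < i + 1 ∧ (y i').1 = true ∧ hv y i' R = 0) = insert ⟨i, hi⟩
        (univ.filter fun i' : Fin L => i'.val < i ∧ (y i').1 = true ∧ hv y i' R = 0) := by
      ext e
      simp only [mem_insert, mem_filter, mem_univ, true_and]
      constructor
      · rintro ⟨h1, h2⟩
        rcases Nat.lt_succ_iff_lt_or_eq.1 h1 with h3 | h3
        · exact Or.inr ⟨h3, h2⟩
        · exact Or.inl (Fin.ext h3)
      · rintro (rfl | ⟨h1, h2⟩)
        · exact ⟨Nat.lt_succ_self _, h⟩
        · exact ⟨by omega, h2⟩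
    rw [h1, card_insert_of_notMem (by simp), h.1, decide_eq_true h.2, Bool.and_self,
      Bool.xor_true]
    simp only [Nat.odd_add_one, decide_not]
  · have h1 : (univ.filter fun i' : Fin L =>
        i'.val < i + 1 ∧ (y i').1 = true ∧ hv y i' R = 0) =
        (univ.filter fun i' : Fin L => i'.val < i ∧ (y i').1 = true ∧ hv y i' R = 0) := by
      ext e
      simp only [mem_filter, mem_univ, true_and]
      constructor
      · rintro ⟨h1, h2⟩
        rcases Nat.lt_succ_iff_lt_or_eq.1 h1 with h3 | h3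
        · exact ⟨h3, h2⟩
        · exact absurd (show (y ⟨i, hi⟩).1 = true ∧ hv y ⟨i, hi⟩ R = 0 from by
            rw [show (⟨i, hi⟩ : Fin L) = e from Fin.ext h3.symm]
            exact h2) h
      · rintro ⟨h1, h2⟩
        exact ⟨by omega, h2⟩
    rw [h1]
    have h2 : ((y ⟨i, hi⟩).1 && decide (hv y ⟨i, hi⟩ R = 0)) = false := by
      rw [Bool.eq_false_iff]
      intro hc
      rw [Bool.and_eq_true, decide_eq_true_eq] at hc
      exact h hc
    rw [h2, Bool.xor_false]

private theorem Pf_last {m q L : ℕ} (y : Par m q L) (R : Finset (Fin m)) :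
    Pf y R L = hsh y R := by
  unfold Pf hsh
  simp only [Fin.is_lt, true_and]

/-- the shift of the chain `i` -/
private def shf {m q L : ℕ} (y : Par m q L) (i : ℕ) : ZMod q :=
  if h : i < L then (y ⟨i, h⟩).2.1 else 0

/-- the weights of the chain `i` -/
private def wtf {m q L : ℕ} (y : Par m q L) (i : ℕ) (e : Fin m) : ZMod q :=
  if h : i < L then (y ⟨i, h⟩).2.2 e else 1

/-- the switch of the chain `i` -/
private def swf {m q L : ℕ} (y : Par m q L) (i : ℕ) : Bool :=
  if h : i < L then (y ⟨i, h⟩).1 else false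

private theorem Sf_hv {m q L : ℕ} (y : Par m q L) (R : Finset (Fin m)) (i : ℕ) (hi : i < L) :
    Sf (shf y i) (wtf y i) R m = hv y ⟨i, hi⟩ R := by
  rw [Sf_last]
  unfold hv shf wtf
  simp only [dif_pos hi]

private theorem Sf_cnt {m q L : ℕ} (y : Par m q L) (R : Finset (Fin m)) :
    Sf (shf y L) (wtf y L) R m = (R.card : ZMod q) := by
  rw [Sf_last]
  unfold shf wtf
  simp

/-- the constraints in one direction -/
private def Ef {m q L : ℕ} (y : Par m q L) (c : Fin (L + 1) × Fin (m + 1)) (a : ZMod q × Bool)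
    (c' : Fin (L + 1) × Fin (m + 1)) (a' : ZMod q × Bool) : Prop :=
  (∀ h : c.2.val < m, c.1 = c'.1 → c.2.val + 1 = c'.2.val →
    a'.1 = a.1 + if a.2 = true then wtf y c.1.val ⟨c.2.val, h⟩ else 0) ∧
  (c.2.val = m → c'.2.val = m → c.1.val + 1 = c'.1.val →
    a'.2 = xor a.2 (swf y c.1.val && decide (a.1 = 0)))

/-- the unary constraints -/
private def Uf {m q L : ℕ} (h : ℕ) (y : Par m q L) (c : Fin (L + 1) × Fin (m + 1))
    (a : ZMod q × Bool) : Prop :=
  (c.2.val = 0 → a.1 = shf y c.1.val) ∧ (c.2.val = m → c.1.val = 0 → a.2 = false) ∧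
  (c.2.val = m → c.1.val = L → (a.1 = (h : ZMod q) ∧ a.2 = true) ∨ a.1 = ((h + 1 : ℕ) : ZMod q))

theorem chain (m q L h : ℕ) (hm : 1 ≤ m) (hh : h ≤ m) (hq : m + 1 < q) (y : Par m q L) :
    ∃ (C : Fin m → Bool → Fin (L + 1) × Fin (m + 1) → ZMod q × Bool → Prop)
      (D : Fin (L + 1) × Fin (m + 1) → ZMod q × Bool → Fin (L + 1) × Fin (m + 1) →
        ZMod q × Bool → Prop),
      (∀ c a c' a', D c a c' a' → D c' a' c a) ∧
      ∀ R : Finset (Fin m),
        (∃ r : Fin (L + 1) × Fin (m + 1) → ZMod q × Bool,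
          (∀ i c, C i (decide (i ∈ R)) c (r c)) ∧ ∀ c c', c ≠ c' → D c (r c) c' (r c')) ↔
        (R.card = h ∧ hsh y R = true) ∨ R.card = h + 1 := by
  have hcast : ∀ a b : ℕ, a < q → b < q → ((a : ZMod q) = (b : ZMod q) ↔ a = b) := by
    intro a b ha hb
    constructor
    · intro h
      have h1 := (ZMod.natCast_eq_natCast_iff a b q).1 h
      rwa [Nat.ModEq, Nat.mod_eq_of_lt ha, Nat.mod_eq_of_lt hb] at h1
    · rintro rfl
      rfl
  refine ⟨fun e β c a => (c.2.val = e.val → a.2 = β) ∧ Uf h y c a,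
    fun c a c' a' => Ef y c a c' a' ∧ Ef y c' a' c a, fun c a c' a' h => ⟨h.2, h.1⟩, fun R => ?_⟩
  have hRm : R.card ≤ m := by simpa using card_le_univ R
  have hfin : (((R.card : ZMod q) = (h : ZMod q) ∧ hsh y R = true) ∨
      (R.card : ZMod q) = ((h + 1 : ℕ) : ZMod q)) ↔
      (R.card = h ∧ hsh y R = true) ∨ R.card = h + 1 := by
    rw [hcast _ _ (by omega) (by omega), hcast _ _ (by omega) (by omega)]
  rw [← hfin]
  constructor
  · rintro ⟨r, hr1, hr2⟩
    have hU : ∀ c, Uf h y c (r c) := fun c => (hr1 ⟨0, hm⟩ c).2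
    have hb : ∀ (i : Fin (L + 1)) (k : ℕ) (hk : k < m),
        (r (i, ⟨k, by omega⟩)).2 = decide ((⟨k, hk⟩ : Fin m) ∈ R) := fun i k hk =>
      (hr1 ⟨k, hk⟩ (i, ⟨k, by omega⟩)).1 rfl
    have hS : ∀ (i : Fin (L + 1)) (k : ℕ) (hk : k ≤ m),
        (r (i, ⟨k, by omega⟩)).1 = Sf (shf y i.val) (wtf y i.val) R k := by
      intro i k
      induction k with
      | zero =>
        intro _
        rw [Sf_zero]
        exact (hU (i, ⟨0, by omega⟩)).1 rfl
      | succ k ih =>
        intro hk
        have h1 := ih (by omega)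
        have h2 := (hr2 (i, ⟨k, by omega⟩) (i, ⟨k + 1, by omega⟩) (by
          intro hc
          have := congrArg (fun p => p.2.val) hc
          simp at this)).1.1 (show k < m by omega) rfl rfl
        rw [h2, h1, Sf_succ _ _ _ _ (show k < m by omega), hb i k (by omega)]
        simp only [decide_eq_true_eq]
    have hP : ∀ (i : ℕ) (hi : i < L + 1), (r (⟨i, hi⟩, ⟨m, by omega⟩)).2 = Pf y R i := by
      intro i
      induction i with
      | zero =>
        intro hi
        rw [Pf_zero]
        exact (hU (⟨0, hi⟩, ⟨m, by omega⟩)).2.1 rfl rfl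
      | succ i ih =>
        intro hi
        have h1 := ih (by omega)
        have h2 := (hr2 (⟨i, by omega⟩, ⟨m, by omega⟩) (⟨i + 1, hi⟩, ⟨m, by omega⟩) (by
          intro hc
          have := congrArg (fun p => p.1.val) hc
          simp at this)).1.2 rfl rfl rfl
        rw [h2, h1, Pf_succ _ _ _ (show i < L by omega), hS _ m le_rfl]
        simp only [swf, dif_pos (show i < L by omega)]
        rw [Sf_hv y R i (by omega)]
    have h3 := (hU (⟨L, by omega⟩, ⟨m, by omega⟩)).2.2 rfl rfl
    rw [hS _ m le_rfl, hP L (by omega), Pf_last] at h3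
    simp only [Sf_cnt] at h3
    exact h3
  · intro hR
    refine ⟨fun c => (Sf (shf y c.1.val) (wtf y c.1.val) R c.2.val,
      if hk : c.2.val < m then decide ((⟨c.2.val, hk⟩ : Fin m) ∈ R) else Pf y R c.1.val),
      fun e c => ⟨fun hc => ?_, ?_, ?_, ?_⟩, ?_⟩
    · have h1 : c.2.val < m := hc ▸ e.2
      show (if hk : c.2.val < m then decide ((⟨c.2.val, hk⟩ : Fin m) ∈ R) else _) = _
      rw [dif_pos h1]
      have h2 : (⟨c.2.val, h1⟩ : Fin m) = e := Fin.ext hc
      rw [h2]
    · intro hc
      show Sf (shf y c.1.val) (wtf y c.1.val) R c.2.val = _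
      rw [hc, Sf_zero]
    · intro hc hc2
      show (if hk : c.2.val < m then decide ((⟨c.2.val, hk⟩ : Fin m) ∈ R) else _) = _
      rw [dif_neg (by omega), hc2, Pf_zero]
    · intro hc hc2
      show (Sf (shf y c.1.val) (wtf y c.1.val) R c.2.val = _ ∧
        (if hk : c.2.val < m then decide ((⟨c.2.val, hk⟩ : Fin m) ∈ R) else _) = _) ∨
        Sf (shf y c.1.val) (wtf y c.1.val) R c.2.val = _
      rw [dif_neg (by omega), hc, hc2, Sf_cnt, Pf_last]
      exact hR
    · have key : ∀ c c' : Fin (L + 1) × Fin (m + 1), Ef y c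
          (Sf (shf y c.1.val) (wtf y c.1.val) R c.2.val,
            if hk : c.2.val < m then decide ((⟨c.2.val, hk⟩ : Fin m) ∈ R) else Pf y R c.1.val) c'
          (Sf (shf y c'.1.val) (wtf y c'.1.val) R c'.2.val,
            if hk : c'.2.val < m then decide ((⟨c'.2.val, hk⟩ : Fin m) ∈ R)
              else Pf y R c'.1.val) := by
        intro c c'
        refine ⟨fun hlt h1 h2 => ?_, fun h1 h2 h3 => ?_⟩
        · show Sf (shf y c'.1.val) (wtf y c'.1.val) R c'.2.val =
            Sf (shf y c.1.val) (wtf y c.1.val) R c.2.val + if (if hk : c.2.val < m then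
              decide ((⟨c.2.val, hk⟩ : Fin m) ∈ R) else Pf y R c.1.val) = true then
                wtf y c.1.val ⟨c.2.val, hlt⟩ else 0
          rw [dif_pos hlt, ← h1, ← h2, Sf_succ _ _ _ _ hlt]
          simp only [decide_eq_true_eq]
        · have hi : c.1.val < L := by omega
          show (if hk : c'.2.val < m then _ else Pf y R c'.1.val) =
            xor (if hk : c.2.val < m then _ else Pf y R c.1.val)
              (swf y c.1.val && decide (Sf (shf y c.1.val) (wtf y c.1.val) R c.2.val = 0))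
          rw [dif_neg (by omega), dif_neg (by omega), ← h3, Pf_succ _ _ _ hi, h1,
            Sf_hv y R _ hi]
          simp only [swf, dif_pos hi]
      exact fun c c' _ => ⟨key c c', key c' c⟩

end Pool.Agent.EX
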