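import Mathlib
import Pool.Agent.Lib.MP_0a1b52_lc_EX.Defs

/-!
# Reading variables once, module Hash: a random-like function

For a set `S` of `k` sets, `q = 4 k`, `L = 16 k`, and any bit `b`: the number of the parameters `y`
with `hsh y X = b` for all `X ∈ S` is at most `(1.05 / 2) ^ k` times the number of all parameters.
Proof: the indicator is `2 ^ (-k)` times the sum over `T ⊆ S` of `± ∏ X ∈ T, (-1) ^ hsh y X`, which
is a product over `i < L`; the mean of the factor `i` is `1 - P (the number of the X ∈ T with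
hash value 0 is odd)`, at least `0` and at most `1 - |T| * 3 / (16 k)`, since the values on two
different sets are independent and uniform: exactly one set of `T` has the value `0` with
probability at least `|T| (1 / (4 k)) (1 - k / (4 k))`.  So the sum is at most
`∑ T, exp (-3 |T|) = (1 + exp (-3)) ^ k`.
-/

set_option autoImplicit false

namespace Pool.Agent.EX

open Finset

/-- the value of one hash function (shift `p.1`, weights `p.2`) on the set `X` -/
def hz {m q : ℕ} (p : ZMod q × (Fin m → ZMod q)) (X : Finset (Fin m)) : ZMod q :=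
  p.1 + ∑ e ∈ X, p.2 e

/-- one value is uniform -/
theorem one_zero {m q : ℕ} [NeZero q] (X : Finset (Fin m)) :
    q * (univ.filter fun p : ZMod q × (Fin m → ZMod q) => hz p X = 0).card =
      Fintype.card (ZMod q × (Fin m → ZMod q)) := by
  have h1 : (univ.filter fun p : ZMod q × (Fin m → ZMod q) => hz p X = 0) =
      univ.image (fun w : Fin m → ZMod q => (-∑ e ∈ X, w e, w)) := by
    ext ⟨a, w⟩
    simp only [mem_filter, mem_univ, true_and, mem_image, Prod.mk.injEq, hz]
    constructor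
    · intro h
      exact ⟨w, (eq_neg_of_add_eq_zero_left h).symm, rfl⟩
    · rintro ⟨w', h, rfl⟩
      rw [← h]
      exact neg_add_cancel _
  have h2 : Function.Injective (fun w : Fin m → ZMod q => (-∑ e ∈ X, w e, w)) :=
    fun w w' h => (Prod.mk.injEq _ _ _ _ ▸ h : _ ∧ _).2
  rw [h1, card_image_of_injective _ h2, Fintype.card_prod, ZMod.card, Finset.card_univ]

/-- two values are independent -/
theorem two_zero {m q : ℕ} [NeZero q] (X X' : Finset (Fin m)) (h : X ≠ X') :
    q * q * (univ.filter fun p : ZMod q × (Fin m → ZMod q) => hz p X = 0 ∧ hz p X' = 0).card ≤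
      Fintype.card (ZMod q × (Fin m → ZMod q)) := by
  obtain ⟨e, he⟩ : ∃ e, (e ∈ X ∧ e ∉ X') ∨ (e ∈ X' ∧ e ∉ X) := by
    by_contra hcon
    push Not at hcon
    exact h (Finset.ext fun e => ⟨fun h1 => by_contra fun h2 => h2 ((hcon e).1 h1),
      fun h1 => by_contra fun h2 => h2 ((hcon e).2 h1)⟩)
  wlog he' : e ∈ X ∧ e ∉ X' generalizing X X'
  · have h3 := this X' X h.symm he.symm (he.resolve_left he')
    simpa only [and_comm] using h3
  obtain ⟨heX, heX'⟩ := he'
  have h1 : ((univ : Finset (ZMod q × ZMod q)) ×ˢ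
      (univ.filter fun p : ZMod q × (Fin m → ZMod q) => hz p X = 0 ∧ hz p X' = 0)).card ≤
      (univ : Finset (ZMod q × (Fin m → ZMod q))).card := by
    refine card_le_card_of_injOn
      (fun t => (t.2.1 + t.1.1, fun x => t.2.2 x + if x = e then t.1.2 else 0))
      (fun _ _ => mem_univ _) ?_
    rintro ⟨⟨c, d⟩, a, w⟩ ht ⟨⟨c', d'⟩, a', w'⟩ ht' hf
    simp only [coe_product, coe_univ, coe_filter, mem_univ, true_and, Set.mem_prod, Set.mem_univ,
      Set.mem_ofPred_eq, hz] at ht ht'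
    simp only [Prod.mk.injEq] at hf
    obtain ⟨hf1, hf2⟩ := hf
    have hs : ∀ Y : Finset (Fin m), (∑ x ∈ Y, w x) + (if e ∈ Y then d else 0) =
        (∑ x ∈ Y, w' x) + (if e ∈ Y then d' else 0) := by
      intro Y
      have h2 : ∑ x ∈ Y, (w x + if x = e then d else 0) =
          ∑ x ∈ Y, (w' x + if x = e then d' else 0) :=
        sum_congr rfl fun x _ => congrFun hf2 x
      rwa [sum_add_distrib, sum_add_distrib, sum_ite_eq', sum_ite_eq'] at h2
    have h3 := hs X'
    rw [if_neg heX', if_neg heX', add_zero, add_zero] at h3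
    have h4 : a = a' := by
      have := ht.2.trans ht'.2.symm
      rw [h3] at this
      exact add_right_cancel this
    subst h4
    have h5 : c = c' := add_left_cancel hf1
    subst h5
    have h6 := hs X
    rw [if_pos heX, if_pos heX] at h6
    have h7 : ∑ x ∈ X, w x = ∑ x ∈ X, w' x := add_left_cancel (ht.1.trans ht'.1.symm)
    rw [h7] at h6
    have h8 : d = d' := add_left_cancel h6
    subst h8
    have h9 : w = w' := funext fun x => add_right_cancel (congrFun hf2 x)
    rw [h9]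
  rw [card_product, card_univ, Fintype.card_prod, ZMod.card, card_univ] at h1
  exact h1

theorem neg_pow_le (n : ℕ) : (-1 : ℝ) ^ n ≤ 1 - 4 * n + 2 * n ^ 2 := by
  rcases Nat.lt_or_ge n 2 with h | h
  · interval_cases n <;> norm_num
  · have h1 : (-1 : ℝ) ^ n ≤ 1 := by
      rcases neg_one_pow_eq_or ℝ n with h | h <;> rw [h] <;> norm_num
    have h2 : (2 : ℝ) ≤ n := by exact_mod_cast h
    nlinarith

theorem prod_sign {ι : Type*} (T : Finset ι) (P : ι → Prop) [DecidablePred P] :
    ∏ X ∈ T, (if P X then (-1 : ℝ) else 1) = (-1) ^ (T.filter P).card := by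
  rw [prod_ite, prod_const, prod_const_one, mul_one]

/-- the sum of the sign over all hash functions -/
theorem sum_sign {m q : ℕ} [NeZero q] (T : Finset (Finset (Fin m))) (hT : 4 * T.card ≤ q) :
    ∑ p : ZMod q × (Fin m → ZMod q), ∏ X ∈ T, (if hz p X = 0 then (-1 : ℝ) else 1) ≤
      Fintype.card (ZMod q × (Fin m → ZMod q)) * (1 - 3 / 2 * (T.card / q)) := by
  set A : ℝ := ((Fintype.card (ZMod q × (Fin m → ZMod q)) : ℕ) : ℝ) with hA
  have hq : (0 : ℝ) < q := by exact_mod_cast Nat.pos_of_ne_zero (NeZero.ne q)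
  have hA0 : 0 ≤ A := Nat.cast_nonneg _
  let z : ZMod q × (Fin m → ZMod q) → Finset (Fin m) → ℝ := fun p X => if hz p X = 0 then 1 else 0
  have h1 : ∀ p : ZMod q × (Fin m → ZMod q),
      ∏ X ∈ T, (if hz p X = 0 then (-1 : ℝ) else 1) ≤
        1 - 4 * ∑ X ∈ T, z p X + 2 * ∑ X ∈ T, ∑ X' ∈ T, z p X * z p X' := by
    intro p
    rw [prod_sign]
    have h2 : ∑ X ∈ T, z p X = ((T.filter fun X => hz p X = 0).card : ℝ) := by
      simp only [z, sum_boole]
    have h3 : ∑ X ∈ T, ∑ X' ∈ T, z p X * z p X' = (∑ X ∈ T, z p X) ^ 2 := by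
      rw [sq, sum_mul_sum]
    rw [h3, h2]
    exact neg_pow_le _
  have h4 : ∀ X, ∑ p, z p X = A / q := by
    intro X
    have h5 : ((univ.filter fun p : ZMod q × (Fin m → ZMod q) => hz p X = 0).card : ℝ) = A / q := by
      rw [eq_div_iff hq.ne', hA, ← one_zero X]
      push_cast
      ring
    rw [← h5]
    simp only [z, sum_boole]
  have h6 : ∀ X X', ∑ p, z p X * z p X' ≤ (if X' = X then A / q else 0) + A / q ^ 2 := by
    intro X X'
    have h7 : ∀ p : ZMod q × (Fin m → ZMod q), z p X * z p X' =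
        if hz p X = 0 ∧ hz p X' = 0 then 1 else 0 := by
      intro p
      by_cases h8 : hz p X = 0 <;> by_cases h9 : hz p X' = 0 <;> simp [z, h8, h9]
    have h10 : 0 ≤ A / q ^ 2 := by positivity
    split_ifs with h11
    · subst h11
      have h12 : ∀ p : ZMod q × (Fin m → ZMod q), z p X' * z p X' = z p X' := by
        intro p
        by_cases h8 : hz p X' = 0 <;> simp [z, h8]
      rw [sum_congr rfl fun p _ => h12 p, h4]
      linarith
    · rw [sum_congr rfl fun p _ => h7 p, sum_boole, zero_add, le_div_iff₀ (by positivity)]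
      have h13 := two_zero (q := q) X X' (fun h => h11 h.symm)
      have h14 : ((q * q * (univ.filter fun p : ZMod q × (Fin m → ZMod q) =>
          hz p X = 0 ∧ hz p X' = 0).card : ℕ) : ℝ) ≤ A := by
        rw [hA]
        exact_mod_cast h13
      push_cast at h14
      linarith [h14, sq (q : ℝ)]
  calc ∑ p : ZMod q × (Fin m → ZMod q), ∏ X ∈ T, (if hz p X = 0 then (-1 : ℝ) else 1)
      ≤ ∑ p : ZMod q × (Fin m → ZMod q),
        (1 - 4 * ∑ X ∈ T, z p X + 2 * ∑ X ∈ T, ∑ X' ∈ T, z p X * z p X') :=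
        sum_le_sum fun p _ => h1 p
    _ = A - 4 * ∑ X ∈ T, ∑ p, z p X + 2 * ∑ X ∈ T, ∑ X' ∈ T, ∑ p, z p X * z p X' := by
        rw [sum_add_distrib, sum_sub_distrib, ← mul_sum, ← mul_sum, sum_comm]
        congr 1
        · congr 1
          rw [sum_const, card_univ, nsmul_eq_mul, mul_one]
        · rw [sum_comm]
          congr 1
          exact sum_congr rfl fun X _ => sum_comm
    _ ≤ A - 4 * ∑ X ∈ T, (A / q) +
        2 * ∑ X ∈ T, ∑ X' ∈ T, ((if X' = X then A / q else 0) + A / q ^ 2) := by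
        have h15 : ∑ X ∈ T, ∑ X' ∈ T, ∑ p, z p X * z p X' ≤
            ∑ X ∈ T, ∑ X' ∈ T, ((if X' = X then A / q else 0) + A / q ^ 2) :=
          sum_le_sum fun X _ => sum_le_sum fun X' _ => h6 X X'
        rw [sum_congr rfl fun X _ => h4 X]
        linarith
    _ = A - 4 * (T.card * (A / q)) + 2 * (T.card * (A / q + T.card * (A / q ^ 2))) := by
        have h16 : ∀ X ∈ T, ∑ X' ∈ T, ((if X' = X then A / q else 0) + A / q ^ 2) =
            A / q + T.card * (A / q ^ 2) := by
          intro X hX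
          rw [sum_add_distrib, sum_ite_eq', if_pos hX, sum_const, nsmul_eq_mul]
        rw [sum_congr rfl h16, sum_const, sum_const, nsmul_eq_mul, nsmul_eq_mul]
    _ ≤ A * (1 - 3 / 2 * (T.card / q)) := by
        have h17 : (T.card : ℝ) / q ≤ 1 / 4 := by
          rw [div_le_iff₀ hq]
          have : ((4 * T.card : ℕ) : ℝ) ≤ q := by exact_mod_cast hT
          push_cast at this
          linarith
        have h18 : 0 ≤ (T.card : ℝ) / q := by positivity
        have h19 : A - 4 * (T.card * (A / q)) + 2 * (T.card * (A / q + T.card * (A / q ^ 2))) =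
            A * (1 - 2 * (T.card / q) + 2 * (T.card / q) ^ 2) := by
          field_simp
          ring
        rw [h19]
        refine mul_le_mul_of_nonneg_left ?_ hA0
        nlinarith

/-- the sign of one hash function with its switch -/
def sg {m q : ℕ} (u : Bool × ZMod q × (Fin m → ZMod q)) (T : Finset (Finset (Fin m))) : ℝ :=
  ∏ X ∈ T, (if u.1 = true ∧ hz u.2 X = 0 then (-1 : ℝ) else 1)

theorem sum_sg {m q : ℕ} [NeZero q] (T : Finset (Finset (Fin m))) :
    ∑ u : Bool × ZMod q × (Fin m → ZMod q), sg u T =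
      Fintype.card (ZMod q × (Fin m → ZMod q)) +
        ∑ p : ZMod q × (Fin m → ZMod q), ∏ X ∈ T, (if hz p X = 0 then (-1 : ℝ) else 1) := by
  rw [Fintype.sum_prod_type, Fintype.sum_bool, add_comm]
  congr 1
  · have h1 : ∀ p : ZMod q × (Fin m → ZMod q), sg (false, p) T = 1 := by
      intro p
      simp [sg]
    rw [sum_congr rfl fun p _ => h1 p, sum_const, card_univ, nsmul_eq_mul, mul_one]
  · refine sum_congr rfl fun p _ => ?_
    simp only [sg, true_and]

theorem sum_sg_nonneg {m q : ℕ} [NeZero q] (T : Finset (Finset (Fin m))) :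
    0 ≤ ∑ u : Bool × ZMod q × (Fin m → ZMod q), sg u T := by
  rw [sum_sg]
  have h1 : ∑ p : ZMod q × (Fin m → ZMod q), (-1 : ℝ) ≤
      ∑ p : ZMod q × (Fin m → ZMod q), ∏ X ∈ T, (if hz p X = 0 then (-1 : ℝ) else 1) := by
    refine sum_le_sum fun p _ => ?_
    rw [prod_sign]
    rcases neg_one_pow_eq_or ℝ (T.filter fun X => hz p X = 0).card with h | h <;>
      rw [h] <;> norm_num
  rw [sum_const, card_univ, nsmul_eq_mul] at h1
  linarith

theorem sum_sg_le {m q : ℕ} [NeZero q] (T : Finset (Finset (Fin m))) (hT : 4 * T.card ≤ q) :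
    ∑ u : Bool × ZMod q × (Fin m → ZMod q), sg u T ≤
      Fintype.card (Bool × ZMod q × (Fin m → ZMod q)) * (1 - 3 / 4 * (T.card / q)) := by
  rw [sum_sg]
  have h1 := sum_sign T hT
  have h2 : (Fintype.card (Bool × ZMod q × (Fin m → ZMod q)) : ℝ) =
      2 * Fintype.card (ZMod q × (Fin m → ZMod q)) := by
    rw [Fintype.card_prod, Fintype.card_bool]
    push_cast
    ring
  rw [h2]
  linarith

/-- the sign of the function value as a product over the hash functions -/
theorem sign_hsh {m q L : ℕ} (y : Par m q L) (T : Finset (Finset (Fin m))) :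
    ∏ X ∈ T, (if hsh y X = true then (-1 : ℝ) else 1) = ∏ i, sg (y i) T := by
  have h1 : ∀ X, (if hsh y X = true then (-1 : ℝ) else 1) =
      ∏ i, (if (y i).1 = true ∧ hz (y i).2 X = 0 then (-1 : ℝ) else 1) := by
    intro X
    rw [prod_sign]
    have h2 : (univ.filter fun i => (y i).1 = true ∧ hz (y i).2 X = 0) =
        univ.filter fun i => (y i).1 = true ∧ hv y i X = 0 := rfl
    rw [h2]
    by_cases h3 : Odd (univ.filter fun i => (y i).1 = true ∧ hv y i X = 0).card
    · rw [h3.neg_one_pow, if_pos]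
      rw [hsh, decide_eq_true_eq]
      exact h3
    · rw [(Nat.not_odd_iff_even.1 h3).neg_one_pow, if_neg]
      rw [hsh, decide_eq_true_eq]
      exact h3
  rw [prod_congr rfl fun X _ => h1 X, prod_comm]
  rfl

/-- the number of the parameters for which the function is constant on a set of `k` sets -/
theorem count_const (m k : ℕ) (hk : 0 < k) [NeZero (4 * k)] (S : Finset (Finset (Fin m)))
    (hS : S.card = k) (b : Bool) :
    ((univ.filter fun y : Par m (4 * k) (16 * k) => ∀ X ∈ S, hsh y X = b).card : ℝ) ≤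
      (21 / 40 : ℝ) ^ k * Fintype.card (Par m (4 * k) (16 * k)) := by
  set B : ℝ := ((Fintype.card (Bool × ZMod (4 * k) × (Fin m → ZMod (4 * k))) : ℕ) : ℝ)
    with hB
  have hB0 : 0 ≤ B := Nat.cast_nonneg _
  have hPar : (Fintype.card (Par m (4 * k) (16 * k)) : ℝ) = B ^ (16 * k) := by
    rw [hB, ← Nat.cast_pow]
    congr 1
    rw [Fintype.card_fun, Fintype.card_fin]
  have hk0 : (0 : ℝ) < k := by exact_mod_cast hk
  let σ : ℝ := if b = true then -1 else 1
  let s : Par m (4 * k) (16 * k) → Finset (Fin m) → ℝ := fun y X =>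
    if hsh y X = true then (-1 : ℝ) else 1
  have hσ : |σ| = 1 := by
    by_cases h : b = true <;> simp [σ, h]
  have h1 : ∀ y, (if ∀ X ∈ S, hsh y X = b then (1 : ℝ) else 0) * 2 ^ k =
      ∏ X ∈ S, (1 + σ * s y X) := by
    intro y
    split_ifs with h2
    · rw [one_mul, ← hS, ← prod_const]
      refine prod_congr rfl fun X hX => ?_
      have h3 := h2 X hX
      cases b <;> simp [σ, s, h3] <;> norm_num
    · push Not at h2
      obtain ⟨X, hX, h3⟩ := h2
      rw [zero_mul]
      refine (prod_eq_zero hX ?_).symm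
      cases b
      · have h4 : hsh y X = true := by simpa using h3
        simp [σ, s, h4]
      · have h4 : hsh y X = false := by simpa using h3
        simp [σ, s, h4]
  have h5 : ((univ.filter fun y : Par m (4 * k) (16 * k) => ∀ X ∈ S, hsh y X = b).card : ℝ) *
      2 ^ k = ∑ T ∈ S.powerset, σ ^ T.card * ∑ y : Par m (4 * k) (16 * k), ∏ i, sg (y i) T := by
    rw [← sum_boole, sum_mul, sum_congr rfl fun y _ => h1 y]
    have h6 : ∀ y : Par m (4 * k) (16 * k), ∏ X ∈ S, (1 + σ * s y X) =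
        ∑ T ∈ S.powerset, σ ^ T.card * ∏ i, sg (y i) T := by
      intro y
      rw [prod_one_add]
      refine sum_congr rfl fun T _ => ?_
      rw [prod_mul_distrib, prod_const, ← sign_hsh]
    rw [sum_congr rfl fun y _ => h6 y, sum_comm]
    exact sum_congr rfl fun T _ => (mul_sum _ _ _).symm
  have h7 : ∀ T ∈ S.powerset, σ ^ T.card * ∑ y : Par m (4 * k) (16 * k), ∏ i, sg (y i) T ≤
      B ^ (16 * k) * ∏ _X ∈ T, Real.exp (-3) := by
    intro T hT
    have hTk : T.card ≤ k := hS ▸ card_le_card (mem_powerset.1 hT)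
    have h8 : ∑ y : Par m (4 * k) (16 * k), ∏ i, sg (y i) T =
        (∑ u : Bool × ZMod (4 * k) × (Fin m → ZMod (4 * k)), sg u T) ^ (16 * k) :=
      (Fintype.sum_pow (fun u : Bool × ZMod (4 * k) × (Fin m → ZMod (4 * k)) => sg u T)
        (16 * k)).symm
    have h9 := sum_sg_nonneg (q := 4 * k) T
    have h10 := sum_sg_le (q := 4 * k) T (by omega)
    have h11 : (∑ u : Bool × ZMod (4 * k) × (Fin m → ZMod (4 * k)), sg u T) ^ (16 * k) ≤
        B ^ (16 * k) * ∏ _X ∈ T, Real.exp (-3) := by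
      have h12 : (1 - 3 / 4 * ((T.card : ℝ) / ((4 * k : ℕ) : ℝ))) =
          1 - (3 * T.card : ℝ) / ((16 * k : ℕ) : ℝ) := by
        push_cast
        field_simp
        ring
      rw [h12] at h10
      have h13 : (1 - (3 * T.card : ℝ) / ((16 * k : ℕ) : ℝ)) ^ (16 * k) ≤
          Real.exp (-(3 * T.card)) := by
        refine Real.one_sub_div_pow_le_exp_neg ?_
        have : (3 * T.card : ℕ) ≤ 16 * k := by omega
        exact_mod_cast this
      have h14 : Real.exp (-(3 * T.card : ℝ)) = ∏ _X ∈ T, Real.exp (-3) := by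
        rw [prod_const, ← Real.exp_nat_mul]
        congr 1
        ring
      calc (∑ u : Bool × ZMod (4 * k) × (Fin m → ZMod (4 * k)), sg u T) ^ (16 * k)
          ≤ (B * (1 - (3 * T.card : ℝ) / ((16 * k : ℕ) : ℝ))) ^ (16 * k) :=
            pow_le_pow_left₀ h9 h10 _
        _ = B ^ (16 * k) * (1 - (3 * T.card : ℝ) / ((16 * k : ℕ) : ℝ)) ^ (16 * k) := mul_pow _ _ _
        _ ≤ B ^ (16 * k) * Real.exp (-(3 * T.card)) :=
            mul_le_mul_of_nonneg_left h13 (pow_nonneg hB0 _)
        _ = _ := by rw [h14]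
    have h15 : 0 ≤ ∑ y : Par m (4 * k) (16 * k), ∏ i, sg (y i) T := by
      rw [h8]
      exact pow_nonneg h9 _
    calc σ ^ T.card * ∑ y : Par m (4 * k) (16 * k), ∏ i, sg (y i) T
        ≤ |σ ^ T.card| * ∑ y : Par m (4 * k) (16 * k), ∏ i, sg (y i) T :=
          mul_le_mul_of_nonneg_right (le_abs_self _) h15
      _ = ∑ y : Par m (4 * k) (16 * k), ∏ i, sg (y i) T := by
          rw [abs_pow, hσ, one_pow, one_mul]
      _ ≤ _ := by
          rw [h8]
          exact h11
  have h16 : ((univ.filter fun y : Par m (4 * k) (16 * k) => ∀ X ∈ S, hsh y X = b).card : ℝ) *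
      2 ^ k ≤ B ^ (16 * k) * (1 + Real.exp (-3)) ^ k := by
    rw [h5]
    refine (sum_le_sum h7).trans (le_of_eq ?_)
    rw [← mul_sum, ← prod_one_add, prod_const, hS]
  have h17 : Real.exp (-3) ≤ 1 / 20 := by
    rw [Real.exp_neg, ← one_div]
    refine one_div_le_one_div_of_le (by norm_num) ?_
    have h18 : Real.exp 3 = Real.exp 1 ^ 3 := by
      rw [← Real.exp_nat_mul]
      norm_num
    rw [h18]
    have h19 := Real.exp_one_gt_d9
    calc (20 : ℝ) ≤ (2.7182818283 : ℝ) ^ 3 := by norm_num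
      _ ≤ Real.exp 1 ^ 3 := pow_le_pow_left₀ (by norm_num) h19.le 3
  have h20 : (1 + Real.exp (-3)) ^ k ≤ (21 / 20 : ℝ) ^ k :=
    pow_le_pow_left₀ (by positivity) (by linarith) k
  have h21 : (21 / 40 : ℝ) ^ k = (21 / 20 : ℝ) ^ k / 2 ^ k := by
    rw [← div_pow]
    norm_num
  rw [h21, hPar, div_mul_eq_mul_div, le_div_iff₀ (by positivity)]
  calc ((univ.filter fun y : Par m (4 * k) (16 * k) => ∀ X ∈ S, hsh y X = b).card : ℝ) * 2 ^ k
      ≤ B ^ (16 * k) * (1 + Real.exp (-3)) ^ k := h16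
    _ ≤ B ^ (16 * k) * (21 / 20 : ℝ) ^ k := mul_le_mul_of_nonneg_left h20 (pow_nonneg hB0 _)
    _ = (21 / 20 : ℝ) ^ k * B ^ (16 * k) := mul_comm _ _

theorem numeric (k : ℕ) (hk : 4 ≤ k) : 2 * (2 : ℝ) ^ (k / 2) * (21 / 40 : ℝ) ^ k < 1 := by
  have h0 : 0 ≤ 2 * (2 : ℝ) ^ (k / 2) * (21 / 40 : ℝ) ^ k := by positivity
  have h1 : (2 * (2 : ℝ) ^ (k / 2) * (21 / 40 : ℝ) ^ k) ^ 2 < 1 := by
    have h2 : ((2 : ℝ) ^ (k / 2)) ^ 2 ≤ 2 ^ k := by
      rw [← pow_mul]
      exact pow_le_pow_right₀ (by norm_num) (by omega)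
    have h3 : (2 * (2 : ℝ) ^ (k / 2) * (21 / 40 : ℝ) ^ k) ^ 2 =
        4 * ((2 : ℝ) ^ (k / 2)) ^ 2 * ((21 / 40 : ℝ) ^ 2) ^ k := by
      rw [mul_pow, mul_pow, ← pow_mul (21 / 40 : ℝ) k 2, ← pow_mul (21 / 40 : ℝ) 2 k,
        mul_comm k 2]
      norm_num
    rw [h3]
    calc 4 * ((2 : ℝ) ^ (k / 2)) ^ 2 * ((21 / 40 : ℝ) ^ 2) ^ k
        ≤ 4 * 2 ^ k * ((21 / 40 : ℝ) ^ 2) ^ k :=
          mul_le_mul_of_nonneg_right (mul_le_mul_of_nonneg_left h2 (by norm_num)) (by positivity)
      _ = 4 * (441 / 800 : ℝ) ^ k := by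
          rw [mul_assoc, ← mul_pow]
          norm_num
      _ ≤ 4 * (441 / 800 : ℝ) ^ 4 := mul_le_mul_of_nonneg_left
          (pow_le_pow_of_le_one (by norm_num) (by norm_num) hk) (by norm_num)
      _ < 1 := by norm_num
  nlinarith

theorem hash (m k : ℕ) (hk : 4 ≤ k) (𝓕 : Finset (Finset (Finset (Fin m))))
    (h𝓕 : ∀ S ∈ 𝓕, S.card = k) (hc : 𝓕.card ≤ 2 ^ (k / 2)) :
    ∃ y : Par m (4 * k) (16 * k), ∀ S ∈ 𝓕,
      (∃ X ∈ S, hsh y X = true) ∧ ∃ X ∈ S, hsh y X = false := by
  have : NeZero (4 * k) := ⟨by omega⟩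
  by_contra hcon
  push Not at hcon
  have h1 : (univ : Finset (Par m (4 * k) (16 * k))) ⊆
      𝓕.biUnion fun S => (univ : Finset Bool).biUnion fun b =>
        univ.filter fun y => ∀ X ∈ S, hsh y X = b := by
    intro y _
    obtain ⟨S, hS, h2⟩ := hcon y
    rw [mem_biUnion]
    refine ⟨S, hS, ?_⟩
    rw [mem_biUnion]
    by_cases h3 : ∃ X ∈ S, hsh y X = true
    · refine ⟨true, mem_univ _, mem_filter.2 ⟨mem_univ _, fun X hX => ?_⟩⟩
      have h4 := h2 h3 X hX
      simpa using h4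
    · refine ⟨false, mem_univ _, mem_filter.2 ⟨mem_univ _, fun X hX => ?_⟩⟩
      push Not at h3
      have h4 := h3 X hX
      simpa using h4
  have h5 : (Fintype.card (Par m (4 * k) (16 * k)) : ℝ) ≤
      𝓕.card * (2 * ((21 / 40 : ℝ) ^ k * Fintype.card (Par m (4 * k) (16 * k)))) := by
    calc (Fintype.card (Par m (4 * k) (16 * k)) : ℝ)
        ≤ ((𝓕.biUnion fun S => (univ : Finset Bool).biUnion fun b =>
          univ.filter fun y : Par m (4 * k) (16 * k) => ∀ X ∈ S, hsh y X = b).card : ℝ) := by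
          rw [← card_univ]
          exact_mod_cast card_le_card h1
      _ ≤ ((∑ S ∈ 𝓕, ∑ b : Bool,
          (univ.filter fun y : Par m (4 * k) (16 * k) => ∀ X ∈ S, hsh y X = b).card : ℕ) : ℝ) := by
          have := card_biUnion_le (s := 𝓕) (t := fun S => (univ : Finset Bool).biUnion fun b =>
            univ.filter fun y : Par m (4 * k) (16 * k) => ∀ X ∈ S, hsh y X = b)
          exact_mod_cast this.trans (sum_le_sum fun S _ => card_biUnion_le)
      _ = ∑ S ∈ 𝓕, ∑ b : Bool, ((univ.filter fun y : Par m (4 * k) (16 * k) =>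
          ∀ X ∈ S, hsh y X = b).card : ℝ) := by push_cast; rfl
      _ ≤ ∑ S ∈ 𝓕, ∑ _b : Bool,
          ((21 / 40 : ℝ) ^ k * Fintype.card (Par m (4 * k) (16 * k))) :=
          sum_le_sum fun S hS => sum_le_sum fun b _ =>
            count_const m k (by omega) S (h𝓕 S hS) b
      _ = _ := by
          rw [sum_const, sum_const, card_univ, Fintype.card_bool, nsmul_eq_mul, nsmul_eq_mul]
          push_cast
          ring
  have h6 : (0 : ℝ) < Fintype.card (Par m (4 * k) (16 * k)) := by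
    exact_mod_cast Fintype.card_pos
  have h7 : (𝓕.card : ℝ) ≤ 2 ^ (k / 2) := by exact_mod_cast hc
  have h8 := numeric k hk
  have h9 : (𝓕.card : ℝ) * (2 * ((21 / 40 : ℝ) ^ k * Fintype.card (Par m (4 * k) (16 * k)))) ≤
      (2 * (2 : ℝ) ^ (k / 2) * (21 / 40 : ℝ) ^ k) * Fintype.card (Par m (4 * k) (16 * k)) := by
    have h10 : 0 ≤ (2 * ((21 / 40 : ℝ) ^ k * (Fintype.card (Par m (4 * k) (16 * k)) : ℝ))) := by
      positivity
    calc (𝓕.card : ℝ) * (2 * ((21 / 40 : ℝ) ^ k * Fintype.card (Par m (4 * k) (16 * k))))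
        ≤ 2 ^ (k / 2) * (2 * ((21 / 40 : ℝ) ^ k * Fintype.card (Par m (4 * k) (16 * k)))) :=
          mul_le_mul_of_nonneg_right h7 h10
      _ = _ := by ring
  nlinarith

end Pool.Agent.EX
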