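import Mathlib
import Pool.Agent.Lib.MP_0a1b52_lc_FP.Defs
import Pool.Agent.Lib.MP_0a1b52_lc_LS.Place

/-!
# Reading variables once, module PlaceM: a system of constraints with the edges of a star forest

The edge `e i` joins the centre `z i` and the leaf `u i`; the leaves are distinct and no centre is a
leaf.  Cells: one for each `i` (the leaf `u i`, which stands for `i ∈ R`, and a new vertex `w i`,
which stands for `i ∉ R`), one for each node (one new vertex for each letter), one for each centre;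
the vertices of `R₀` are joined to everything.  All vertices in different cells are joined, except
that the constraints are respected and that `z i`, `u i` are joined if and only if `i ∈ X`.
-/

set_option autoImplicit false

namespace Pool.Agent.EX

open Finset Pool.Agent.FP Pool.Agent.LS

section Sys

variable {n : ℕ} {W Y : Type} [Fintype Y]

private theorem sysSymm (Z : Sys n W Y) {P : W → W → Prop} (hP : ∀ w w', P w w' → P w' w)
    {x x' : Fin n} (h : Z.Adj P x x') : Z.Adj P x' x := by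
  rcases h with h | h | ⟨w, w', h1, h2, h3, h4⟩
  · exact Or.inr (Or.inl h)
  · exact Or.inl h
  · exact Or.inr (Or.inr ⟨w', w, h1.symm, h3, h2, hP _ _ h4⟩)

private theorem sysAdj (Z : Sys n W Y) {P : W → W → Prop} (hP : ∀ w w', P w w' → P w' w)
    (x x' : Fin n) (h : x ≠ x') : (graphOf (Z.gr P)).Adj x x' ↔ Z.Adj P x x' := by
  constructor
  · rintro ⟨e, h, h1⟩
    have h2 : Z.Adj P e.1.1 e.1.2 := by simpa [Sys.gr] using h
    rcases h1 with h1 | h1
    · rw [h1] at h2
      exact h2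
    · rw [h1] at h2
      exact sysSymm Z hP h2
  · intro h2
    rcases lt_or_gt_of_ne h with h1 | h1
    · exact ⟨⟨(x, x'), h1⟩, by simpa [Sys.gr] using h2, Or.inl rfl⟩
    · exact ⟨⟨(x', x), h1⟩, by simpa [Sys.gr] using sysSymm Z hP h2, Or.inr rfl⟩

private theorem sysClqOf (Z : Sys n W Y) {P : W → W → Prop} (hP : ∀ w w', P w w' → P w' w)
    (s : Y → W) (hs : ∀ k, Z.cell (s k) = k) (h : ∀ k k', k ≠ k' → P (s k) (s k')) :
    Clq (Z.gr P) := by
  classical
  have hinj : Function.Injective fun k => Z.u (s k) := fun k k' h => by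
    have h1 := Z.inj h
    rw [← hs k, ← hs k', h1]
  refine ⟨Z.R ∪ univ.image fun k => Z.u (s k), ?_, ?_⟩
  · intro x hx x' hx' hne
    rw [sysAdj Z hP x x' hne]
    simp only [coe_union, Set.mem_union, mem_coe, mem_image, mem_univ, true_and] at hx hx'
    rcases hx with hx | ⟨k, rfl⟩
    · exact Or.inl hx
    · rcases hx' with hx' | ⟨k', rfl⟩
      · exact Or.inr (Or.inl hx')
      · have hk : k ≠ k' := by
          rintro rfl
          exact hne rfl
        refine Or.inr (Or.inr ⟨s k, s k', ?_, rfl, rfl, h k k' hk⟩)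
        rw [hs, hs]
        exact hk
  · have hdisj : Disjoint Z.R (univ.image fun k => Z.u (s k)) := by
      rw [disjoint_left]
      intro x hx hx'
      obtain ⟨k, -, rfl⟩ := mem_image.1 hx'
      exact Z.hR _ hx
    rw [card_union_of_disjoint hdisj, card_image_of_injective _ hinj, card_univ, Z.card]
    push_cast
    exact Real.real_sqrt_lt_nat_sqrt_succ

private theorem sysOfClq (Z : Sys n W Y) {P : W → W → Prop} (hP : ∀ w w', P w w' → P w' w)
    (hK : 2 ≤ Fintype.card Y) (h : Clq (Z.gr P)) :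
    ∃ s : Y → W, (∀ k, Z.cell (s k) = k) ∧ ∀ k k', k ≠ k' → P (s k) (s k') := by
  classical
  obtain ⟨Q, hQ, hcard⟩ := h
  have h1 : Nat.sqrt n + 1 ≤ Q.card := by
    have h2 : ((Nat.sqrt n : ℕ) : ℝ) < Q.card := lt_of_le_of_lt (Real.nat_sqrt_le_real_sqrt) hcard
    exact_mod_cast h2
  have h2 : Fintype.card Y ≤ (Q \ Z.R).card := by
    have h3 := le_card_sdiff Z.R Q
    have h4 := Z.card
    omega
  have hadj : ∀ x ∈ Q \ Z.R, ∀ x' ∈ Q \ Z.R, x ≠ x' →
      ∃ w w', Z.cell w ≠ Z.cell w' ∧ x = Z.u w ∧ x' = Z.u w' ∧ P w w' := by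
    intro x hx x' hx' hne
    obtain ⟨hx1, hx2⟩ := mem_sdiff.1 hx
    obtain ⟨hx3, hx4⟩ := mem_sdiff.1 hx'
    rcases (sysAdj Z hP x x' hne).1 (hQ (by exact_mod_cast hx1) (by exact_mod_cast hx3) hne) with
      h | h | h
    · exact absurd h hx2
    · exact absurd h hx4
    · exact h
  have hcell : ∀ x : ↥(Q \ Z.R), ∃ w, x.1 = Z.u w := by
    intro x
    obtain ⟨y, hy, hyx⟩ := exists_mem_ne (show 1 < (Q \ Z.R).card by omega) x.1
    obtain ⟨w, w', -, h3, -, -⟩ := hadj x.1 x.2 y hy hyx.symm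
    exact ⟨w, h3⟩
  choose g hg using hcell
  have key : ∀ x x' : ↥(Q \ Z.R), x ≠ x' → Z.cell (g x) ≠ Z.cell (g x') ∧ P (g x) (g x') := by
    intro x x' hne
    have hne2 : x.1 ≠ x'.1 := fun h => hne (Subtype.ext h)
    obtain ⟨w, w', h4, h5, h6, h7⟩ := hadj x.1 x.2 x'.1 x'.2 hne2
    have h8 : g x = w := Z.inj ((hg x).symm.trans h5)
    have h9 : g x' = w' := Z.inj ((hg x').symm.trans h6)
    rw [h8, h9]
    exact ⟨h4, h7⟩
  have hinj : Function.Injective fun x => Z.cell (g x) := by
    intro x x' h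
    by_contra hne
    exact (key x x' hne).1 h
  have hbij : Function.Bijective fun x => Z.cell (g x) := by
    refine (Fintype.bijective_iff_injective_and_card _).2 ⟨hinj, ?_⟩
    refine le_antisymm (Fintype.card_le_of_injective _ hinj) ?_
    rw [Fintype.card_coe]
    exact h2
  choose p hp using hbij.2
  refine ⟨fun k => g (p k), hp, fun k k' hk => (key _ _ ?_).2⟩
  intro h
  apply hk
  rw [← hp k, ← hp k', h]

private theorem sysIndep (Z : Sys n W Y) (P P' : W → W → Prop) (f : EdgeVar n)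
    (h : Z.gr P f ≠ Z.gr P' f) :
    ∃ w w', Z.cell w ≠ Z.cell w' ∧ f.1 = (Z.u w, Z.u w') ∧ ¬ (P w w' ↔ P' w w') := by
  classical
  have key : ∀ P P' : W → W → Prop, Z.Adj P f.1.1 f.1.2 → ¬ Z.Adj P' f.1.1 f.1.2 →
      ∃ w w', Z.cell w ≠ Z.cell w' ∧ f.1 = (Z.u w, Z.u w') ∧ ¬ (P w w' ↔ P' w w') := by
    intro P P' h1 h2
    rcases h1 with h1 | h1 | ⟨w, w', h3, h4, h5, h6⟩
    · exact (h2 (Or.inl h1)).elim
    · exact (h2 (Or.inr (Or.inl h1))).elim
    · refine ⟨w, w', h3, Prod.ext h4 h5, fun h7 => ?_⟩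
      exact h2 (Or.inr (Or.inr ⟨w, w', h3, h4, h5, h7.1 h6⟩))
  unfold Sys.gr at h
  by_cases h1 : Z.Adj P f.1.1 f.1.2
  · by_cases h2 : Z.Adj P' f.1.1 f.1.2
    · simp [h1, h2] at h
    · exact key P P' h1 h2
  · by_cases h2 : Z.Adj P' f.1.1 f.1.2
    · obtain ⟨w, w', h3, h4, h5⟩ := key P' P h2 h1
      exact ⟨w, w', h3, h4, fun h6 => h5 h6.symm⟩
    · simp [h1, h2] at h

end Sys

/-- places for the elements of `N` and for `R` outside the set `D` -/
private theorem restM {n : ℕ} (D : Finset (Fin n)) (N : Type) [Fintype N] (r : ℕ)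
    (h : D.card + Fintype.card N + r ≤ n) :
    ∃ (p : N → Fin n) (R : Finset (Fin n)), Function.Injective p ∧
      (∀ z, p z ∉ D) ∧ R.card = r ∧ (∀ x ∈ D, x ∉ R) ∧ ∀ z, p z ∉ R := by
  classical
  obtain ⟨e⟩ := Function.Embedding.nonempty_of_card_le (α := N) (β := ↥Dᶜ) (by
    rw [Fintype.card_coe, card_compl, Fintype.card_fin]
    omega)
  obtain ⟨R, hR, hr⟩ := exists_subset_card_eq (s := (D ∪ univ.image fun z => (e z).1)ᶜ) (n := r)
    (by
      have h1 := card_union_le D (univ.image fun z => (e z).1)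
      have h2 := card_image_le (s := (univ : Finset N)) (f := fun z => (e z).1)
      rw [card_univ] at h2
      rw [card_compl, Fintype.card_fin]
      omega)
  refine ⟨fun z => (e z).1, R, fun z z' h => e.injective (Subtype.ext h),
    fun z => mem_compl.1 (e z).2, hr, fun x hx hxR => mem_compl.1 (hR hxR) (mem_union_left _ hx),
    fun z hz => mem_compl.1 (hR hz) (mem_union_right _ (mem_image.2 ⟨z, mem_univ _, rfl⟩))⟩

/-- compatibility: a choice for `i`, a letter of a node, a centre -/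
private def PC {n m : ℕ} {ν Λ : Type} {T : Finset (Fin n)} (z : Fin m → Fin n)
    (C : Fin m → Bool → ν → Λ → Prop) (D : ν → Λ → ν → Λ → Prop) (X : Finset (Fin m)) :
    (Fin m × Bool) ⊕ ((ν × Λ) ⊕ ↥T) → (Fin m × Bool) ⊕ ((ν × Λ) ⊕ ↥T) → Prop
  | .inl _, .inl _ => True
  | .inl w, .inr (.inl c) => C w.1 w.2 c.1 c.2
  | .inr (.inl c), .inl w => C w.1 w.2 c.1 c.2
  | .inl w, .inr (.inr ζ) => w.2 = true → ζ.1 = z w.1 → w.1 ∈ X
  | .inr (.inr ζ), .inl w => w.2 = true → ζ.1 = z w.1 → w.1 ∈ X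
  | .inr (.inl c), .inr (.inl c') => D c.1 c.2 c'.1 c'.2
  | .inr (.inl _), .inr (.inr _) => True
  | .inr (.inr _), .inr (.inl _) => True
  | .inr (.inr _), .inr (.inr _) => True

private theorem clq_true {n : ℕ} (hn : Nat.sqrt n + 1 ≤ n) :
    Clq (fun _ : EdgeVar n => true) := by
  refine ⟨univ, ?_, ?_⟩
  · intro x _ y _ hne
    rcases lt_or_gt_of_ne hne with h | h
    · exact ⟨⟨(x, y), h⟩, rfl, Or.inl rfl⟩
    · exact ⟨⟨(y, x), h⟩, rfl, Or.inr rfl⟩
  · rw [card_univ, Fintype.card_fin]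
    refine lt_of_lt_of_le (Real.real_sqrt_lt_nat_sqrt_succ (a := n)) ?_
    exact_mod_cast hn

private theorem not_clq_false {n : ℕ} (hn : Nat.sqrt n + 1 ≤ n) :
    ¬ Clq (fun _ : EdgeVar n => false) := by
  rintro ⟨K, hK, hc⟩
  have h1 : (1 : ℝ) ≤ Real.sqrt n := by
    rw [Real.one_le_sqrt]
    exact_mod_cast (show 1 ≤ n by omega)
  have h2 : 1 < K.card := by
    have h3 : (1 : ℝ) < K.card := lt_of_le_of_lt h1 hc
    exact_mod_cast h3
  obtain ⟨x, hx, y, hy, hne⟩ := one_lt_card.1 h2
  obtain ⟨f, hf, -⟩ := hK hx hy hne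
  exact Bool.false_ne_true hf

theorem placeM {n m : ℕ} {ν Λ : Type} [Fintype ν] [Fintype Λ] (u z : Fin m → Fin n)
    (hu : Function.Injective u) (hz : ∀ i j, z i ≠ u j) (e : Fin m → EdgeVar n)
    (he : ∀ i, (e i).1 = (z i, u i) ∨ (e i).1 = (u i, z i))
    (h1 : 2 * m + Fintype.card ν ≤ Nat.sqrt n + 1)
    (h2 : 3 * m + Fintype.card ν * Fintype.card Λ + Nat.sqrt n + 1 ≤ n)
    (C : Fin m → Bool → ν → Λ → Prop) (D : ν → Λ → ν → Λ → Prop)
    (hD : ∀ c a c' a', D c a c' a' → D c' a' c a) :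
    ∃ H : Finset (Fin m) → EdgeVar n → Bool,
      (∀ X, Clq (H X) ↔ ∃ R ⊆ X, ∃ r : ν → Λ,
        (∀ i c, C i (decide (i ∈ R)) c (r c)) ∧ ∀ c c', c ≠ c' → D c (r c) c' (r c')) ∧
      ∀ X X' f, H X f ≠ H X' f → ∃ i, f = e i ∧ ¬ (i ∈ X ↔ i ∈ X') := by
  classical
  rcases Nat.eq_zero_or_pos m with hm | hm
  · subst hm
    have hn : Nat.sqrt n + 1 ≤ n := by omega
    refine ⟨fun X => if ∃ R ⊆ X, ∃ r : ν → Λ,
        (∀ i c, C i (decide (i ∈ R)) c (r c)) ∧ ∀ c c', c ≠ c' → D c (r c) c' (r c')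
        then fun _ => true else fun _ => false, fun X => ?_, fun X X' f hf => ?_⟩
    · beta_reduce
      split_ifs with h
      · exact iff_of_true (clq_true hn) h
      · exact iff_of_false (not_clq_false hn) h
    · have hX : X = X' := Finset.ext fun i => i.elim0
      exact (hf (by rw [hX])).elim
  let T : Finset (Fin n) := univ.image z
  have hTc : T.card ≤ m := by
    have h := card_image_le (s := (univ : Finset (Fin m))) (f := z)
    rwa [card_univ, Fintype.card_fin] at h
  have hT1 : 1 ≤ T.card := card_pos.2 ⟨z ⟨0, hm⟩, mem_image.2 ⟨_, mem_univ _, rfl⟩⟩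
  let U : Finset (Fin n) := univ.image u
  have hUc : U.card ≤ m := by
    have h := card_image_le (s := (univ : Finset (Fin m))) (f := u)
    rwa [card_univ, Fintype.card_fin] at h
  have huU : ∀ i, u i ∈ U := fun i => mem_image.2 ⟨i, mem_univ _, rfl⟩
  have hDc := card_union_le U T
  have hN : Fintype.card (Fin m ⊕ (ν × Λ)) = m + Fintype.card ν * Fintype.card Λ := by
    rw [Fintype.card_sum, Fintype.card_prod, Fintype.card_fin]
  obtain ⟨p, R₀, hp1, hp2, hR1, hR2, hR3⟩ := restM (U ∪ T) (Fin m ⊕ (ν × Λ))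
    (Nat.sqrt n + 1 - (m + (Fintype.card ν + T.card))) (by
      rw [hN]
      omega)
  have hY : Fintype.card (Fin m ⊕ (ν ⊕ ↥T)) = m + (Fintype.card ν + T.card) := by
    rw [Fintype.card_sum, Fintype.card_sum, Fintype.card_fin, Fintype.card_coe]
  have hpU : ∀ i t, u i ≠ p t := fun i t h => hp2 t (h ▸ mem_union_left _ (huU i))
  have hpT : ∀ (ζ : ↥T) t, ζ.1 ≠ p t := fun ζ t h => hp2 t (h ▸ mem_union_right _ ζ.2)
  have huT : ∀ (ζ : ↥T) i, ζ.1 ≠ u i := by
    intro ζ i
    obtain ⟨j, -, hj⟩ := mem_image.1 ζ.2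
    rw [← hj]
    exact hz j i
  let place : (Fin m × Bool) ⊕ ((ν × Λ) ⊕ ↥T) → Fin n :=
    Sum.elim (fun w => if w.2 = true then u w.1 else p (.inl w.1))
      (Sum.elim (fun c => p (.inr c)) Subtype.val)
  have hpl1 : ∀ i, place (.inl (i, true)) = u i := fun _ => rfl
  have hpl2 : ∀ i, place (.inl (i, false)) = p (.inl i) := fun _ => rfl
  let Z : Sys n ((Fin m × Bool) ⊕ ((ν × Λ) ⊕ ↥T)) (Fin m ⊕ (ν ⊕ ↥T)) :=
    { u := place
      inj := by
        rintro (⟨i, b⟩ | c | ζ) (⟨i', b'⟩ | c' | ζ') h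
        · cases b <;> cases b'
          · rw [hpl2, hpl2] at h
            rw [Sum.inl_injective (hp1 h)]
          · rw [hpl2, hpl1] at h
            exact (hpU _ _ h.symm).elim
          · rw [hpl2, hpl1] at h
            exact (hpU _ _ h).elim
          · rw [hpl1, hpl1] at h
            rw [hu h]
        · cases b
          · have h3 : p (.inl i) = p (.inr c') := h
            exact (Sum.inl_ne_inr (hp1 h3)).elim
          · exact (hpU _ _ h).elim
        · cases b
          · exact (hpT _ _ h.symm).elim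
          · exact (huT _ _ h.symm).elim
        · cases b'
          · have h3 : p (.inr c) = p (.inl i') := h
            exact (Sum.inr_ne_inl (hp1 h3)).elim
          · exact (hpU _ _ h.symm).elim
        · have h3 : p (.inr c) = p (.inr c') := h
          rw [Sum.inr_injective (hp1 h3)]
        · exact (hpT _ _ h.symm).elim
        · cases b'
          · exact (hpT _ _ h).elim
          · exact (huT _ _ h).elim
        · exact (hpT _ _ h).elim
        · have h3 : ζ = ζ' := Subtype.ext h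
          rw [h3]
      cell := Sum.map Prod.fst (Sum.map Prod.fst id)
      R := R₀
      hR := by
        rintro (⟨i, b⟩ | c | ζ)
        · cases b
          · exact hR3 _
          · exact hR2 _ (mem_union_left _ (huU i))
        · exact hR3 _
        · exact hR2 _ (mem_union_right _ ζ.2)
      card := by
        rw [hR1, hY]
        omega }
  have hsym : ∀ X (w w' : (Fin m × Bool) ⊕ ((ν × Λ) ⊕ ↥T)), PC z C D X w w' → PC z C D X w' w := by
    rintro X (w | c | ζ) (w' | c' | ζ') h
    · trivial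
    · exact h
    · exact h
    · exact h
    · exact hD _ _ _ _ h
    · trivial
    · exact h
    · trivial
    · trivial
  refine ⟨fun X => Z.gr (PC z C D X), fun X => ⟨fun h => ?_, ?_⟩, fun X X' f hf => ?_⟩
  · obtain ⟨s, hs1, hs2⟩ := sysOfClq Z (hsym X) (by rw [hY]; omega) h
    have hA : ∀ i : Fin m, ∃ b, s (.inl i) = .inl (i, b) := by
      intro i
      have h3 := hs1 (.inl i)
      rcases h4 : s (.inl i) with ⟨i', b⟩ | c | ζ
      · rw [h4] at h3
        have h5 : i' = i := Sum.inl_injective h3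
        exact ⟨b, by rw [h5]⟩
      · rw [h4] at h3
        exact (Sum.inr_ne_inl h3).elim
      · rw [h4] at h3
        exact (Sum.inr_ne_inl h3).elim
    have hB : ∀ c : ν, ∃ a, s (.inr (.inl c)) = .inr (.inl (c, a)) := by
      intro c
      have h3 := hs1 (.inr (.inl c))
      rcases h4 : s (.inr (.inl c)) with w | ⟨c', a⟩ | ζ
      · rw [h4] at h3
        exact (Sum.inl_ne_inr h3).elim
      · rw [h4] at h3
        have h5 : c' = c := Sum.inl_injective (Sum.inr_injective h3)
        exact ⟨a, by rw [h5]⟩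
      · rw [h4] at h3
        exact (Sum.inr_ne_inl (Sum.inr_injective h3)).elim
    have hC : ∀ ζ : ↥T, s (.inr (.inr ζ)) = .inr (.inr ζ) := by
      intro ζ
      have h3 := hs1 (.inr (.inr ζ))
      rcases h4 : s (.inr (.inr ζ)) with w | c | ζ'
      · rw [h4] at h3
        exact (Sum.inl_ne_inr h3).elim
      · rw [h4] at h3
        exact (Sum.inl_ne_inr (Sum.inr_injective h3)).elim
      · rw [h4] at h3
        have h5 : ζ' = ζ := Sum.inr_injective (Sum.inr_injective h3)
        rw [h5]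
    choose b hb using hA
    choose r hr using hB
    refine ⟨univ.filter fun i => b i = true, ?_, r, ?_, ?_⟩
    · intro i hi
      have hi2 : b i = true := (mem_filter.1 hi).2
      have hzT : z i ∈ T := mem_image.2 ⟨i, mem_univ _, rfl⟩
      have h3 := hs2 (.inl i) (.inr (.inr ⟨z i, hzT⟩)) Sum.inl_ne_inr
      rw [hb, hC] at h3
      exact h3 hi2 rfl
    · intro i c
      have h3 := hs2 (.inl i) (.inr (.inl c)) Sum.inl_ne_inr
      rw [hb, hr] at h3
      have h4 : decide (i ∈ univ.filter fun i => b i = true) = b i := by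
        cases h5 : b i <;> simp [h5]
      rw [h4]
      exact h3
    · intro c c' hcc
      have h3 := hs2 (.inr (.inl c)) (.inr (.inl c'))
        (fun h => hcc (Sum.inl_injective (Sum.inr_injective h)))
      rw [hr, hr] at h3
      exact h3
  · rintro ⟨R, hRX, r, hr1, hr2⟩
    refine sysClqOf Z (hsym X) (Sum.elim (fun i => .inl (i, decide (i ∈ R)))
      (Sum.elim (fun c => .inr (.inl (c, r c))) fun ζ => .inr (.inr ζ))) ?_ ?_
    · rintro (i | c | ζ) <;> rfl
    · rintro (i | c | ζ) (i' | c' | ζ') hk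
      · trivial
      · exact hr1 i c'
      · intro h3 _
        exact hRX (of_decide_eq_true h3)
      · exact hr1 i' c
      · exact hr2 c c' fun h => hk (by rw [h])
      · trivial
      · intro h3 _
        exact hRX (of_decide_eq_true h3)
      · trivial
      · trivial
  · obtain ⟨w, w', hc, hf2, hP⟩ := sysIndep Z _ _ f hf
    have key : ∀ i b (ζ : ↥T), (f.1 = (place (.inl (i, b)), ζ.1) ∨
        f.1 = (ζ.1, place (.inl (i, b)))) →
        ¬ ((b = true → ζ.1 = z i → i ∈ X) ↔ (b = true → ζ.1 = z i → i ∈ X')) →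
        ∃ i, f = e i ∧ ¬ (i ∈ X ↔ i ∈ X') := by
      intro i b ζ h3 h4
      have h5 : b = true := by
        by_contra h6
        exact h4 ⟨fun _ h7 => absurd h7 h6, fun _ h7 => absurd h7 h6⟩
      have h6 : ζ.1 = z i := by
        by_contra h6
        exact h4 ⟨fun _ _ h7 => absurd h7 h6, fun _ _ h7 => absurd h7 h6⟩
      subst h5
      rw [h6, hpl1] at h3
      refine ⟨i, ?_, fun h7 => h4 ⟨fun h8 h9 h10 => h7.1 (h8 h9 h10),
        fun h8 h9 h10 => h7.2 (h8 h9 h10)⟩⟩
      apply Subtype.ext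
      have h8 := f.2
      have h9 := (e i).2
      rcases he i with h10 | h10 <;> rcases h3 with h11 | h11
      · rw [h11] at h8
        rw [h10] at h9
        exact (lt_asymm h8 h9).elim
      · rw [h10, h11]
      · rw [h10, h11]
      · rw [h11] at h8
        rw [h10] at h9
        exact (lt_asymm h8 h9).elim
    rcases w with ⟨i, b⟩ | c | ζ <;> rcases w' with ⟨i', b'⟩ | c' | ζ'
    · exact (hP Iff.rfl).elim
    · exact (hP Iff.rfl).elim
    · exact key i b ζ' (Or.inl hf2) hP
    · exact (hP Iff.rfl).elim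
    · exact (hP Iff.rfl).elim
    · exact (hP Iff.rfl).elim
    · exact key i' b' ζ (Or.inr hf2) hP
    · exact (hP Iff.rfl).elim
    · exact (hP Iff.rfl).elim

end Pool.Agent.EX
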