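import Mathlib
import Pool.Agent.Lib.MP_0a1b52_lc_RT.Defs

/-!
# Reading variables once, module Walk: the circuit side

For a gate `g` let `W g` be the variables below `g`, `As g j` the contexts with `j` elements (the
sets `a` outside `W g` for which all siblings of OR gates on some path from the output to `g` are
false) and `Bs g j` the sets `b ⊆ W g` with `j` elements on which `g` is false.  By `H1` one of
`As g j`, `Bs g (h - j)` has at most `t` elements.  Walk from the output down to false children with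
few contexts; at the last such gate there are few possibilities for the input.
-/

set_option autoImplicit false

namespace Pool.Agent.EX

open Finset Pool.Agent.FP Pool.Agent.RT

variable {V : Type} {s m : ℕ}

/-- the values of the gates -/
private def ev (D : Circuit V s) (x : V → Bool) (g : Fin s) : Bool :=
  match h : D.gate g with
  | .lit v b => x v == b
  | .and i j => ev D x i && ev D x j
  | .or i j => ev D x i || ev D x j
termination_by g
decreasing_by
  · exact (D.and_lt g i j h).1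
  · exact (D.and_lt g i j h).2
  · exact (D.or_lt g i j h).1
  · exact (D.or_lt g i j h).2

private theorem ev_isEval (D : Circuit V s) (x : V → Bool) : D.IsEval x (ev D x) := by
  intro g
  rw [ev]
  split
  · rename_i v b h
    rw [h]
  · rename_i i j h
    rw [h]
  · rename_i i j h
    rw [h]

private theorem ev_unique {D : Circuit V s} {x : V → Bool} {val val' : Fin s → Bool}
    (h : D.IsEval x val) (h' : D.IsEval x val') : val = val' := by
  funext g
  induction g using WellFoundedLT.induction with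
  | ind g ih =>
    rw [h g, h' g]
    rcases hg : D.gate g with ⟨v, b⟩ | ⟨i, j⟩ | ⟨i, j⟩
    · rfl
    · have h1 := D.and_lt g i j hg
      simp only [ih i h1.1, ih j h1.2]
    · have h1 := D.or_lt g i j hg
      simp only [ih i h1.1, ih j h1.2]

private theorem ev_out {D : Circuit V s} {x : V → Bool} :
    ev D x D.out = false ↔ ¬ D.Accepts x := by
  constructor
  · rintro h ⟨val, h1, h2⟩
    rw [ev_unique h1 (ev_isEval D x), h] at h2
    exact Bool.noConfusion h2
  · intro h
    by_contra hc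
    exact h ⟨_, ev_isEval D x, by simpa using hc⟩

private theorem ev_lit {D : Circuit V s} {x : V → Bool} {g : Fin s} {v : V} {b : Bool}
    (hg : D.gate g = .lit v b) : ev D x g = (x v == b) := by
  have h := ev_isEval D x g
  rw [hg] at h
  exact h

private theorem ev_and {D : Circuit V s} {x : V → Bool} {g i j : Fin s}
    (hg : D.gate g = .and i j) : ev D x g = (ev D x i && ev D x j) := by
  have h := ev_isEval D x g
  rw [hg] at h
  exact h

private theorem ev_or {D : Circuit V s} {x : V → Bool} {g i j : Fin s}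
    (hg : D.gate g = .or i j) : ev D x g = (ev D x i || ev D x j) := by
  have h := ev_isEval D x g
  rw [hg] at h
  exact h

/-- `g` can be reached from the output, all siblings at OR gates being in `F` -/
inductive RchF (D : Circuit V s) (F : Fin s → Prop) : Fin s → Prop
  | out : RchF D F D.out
  | andl (g i j : Fin s) : D.gate g = .and i j → RchF D F g → RchF D F i
  | andr (g i j : Fin s) : D.gate g = .and i j → RchF D F g → RchF D F j
  | orl (g i j : Fin s) : D.gate g = .or i j → F j → RchF D F g → RchF D F i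
  | orr (g i j : Fin s) : D.gate g = .or i j → F i → RchF D F g → RchF D F j

/-- `g` can be reached from the output, all siblings at OR gates being false -/
private abbrev Rch (D : Circuit V s) (x : V → Bool) : Fin s → Prop :=
  RchF D fun i => ev D x i = false

private theorem rch_false {D : Circuit V s} {x : V → Bool} {g : Fin s} (h : Rch D x g)
    (hg : ev D x g = false) : ev D x D.out = false := by
  induction h with
  | out => exact hg
  | andl g i j h1 _ ih => exact ih (by rw [ev_and h1, hg, Bool.false_and])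
  | andr g i j h1 _ ih => exact ih (by rw [ev_and h1, hg, Bool.and_false])
  | orl g i j h1 h2 _ ih => exact ih (by rw [ev_or h1, hg, h2, Bool.false_or])
  | orr g i j h1 h2 _ ih => exact ih (by rw [ev_or h1, hg, h2, Bool.false_or])

private theorem tree_ex (D : Circuit V s) (g : Fin s) : ∃ L, Tree D g L := by
  induction g using WellFoundedLT.induction with
  | ind g ih =>
    rcases hg : D.gate g with ⟨v, b⟩ | ⟨i, j⟩ | ⟨i, j⟩
    · exact ⟨_, .lit g v b hg⟩
    · obtain ⟨L, hL⟩ := ih i (D.and_lt g i j hg).1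
      exact ⟨_, .left g i j L hg hL⟩
    · obtain ⟨L, hL⟩ := ih i (D.or_lt g i j hg).1
      obtain ⟨L', hL'⟩ := ih j (D.or_lt g i j hg).2
      exact ⟨_, .both g i j L L' hg hL hL'⟩

open Classical in
/-- the variables below the gate `g` -/
private noncomputable def W (D : Circuit V s) (e : Fin m → V) (g : Fin s) : Finset (Fin m) :=
  univ.filter fun i => ∃ L, Tree D g L ∧ e i ∈ L

private theorem mem_W {D : Circuit V s} {e : Fin m → V} {g : Fin s} {i : Fin m} :
    i ∈ W D e g ↔ ∃ L, Tree D g L ∧ e i ∈ L := by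
  simp only [W, mem_filter, mem_univ, true_and]

private theorem W_lit {D : Circuit V s} {e : Fin m → V} {g : Fin s} {v : V} {b : Bool}
    (hg : D.gate g = .lit v b) (i : Fin m) : i ∈ W D e g ↔ e i = v := by
  rw [mem_W]
  constructor
  · rintro ⟨L, hL, hi⟩
    cases hL with
    | lit g v' b' h =>
      rw [hg] at h
      cases h
      simpa using hi
    | left g i j L h => rw [hg] at h; cases h
    | right g i j L h => rw [hg] at h; cases h
    | both g i j L L' h => rw [hg] at h; cases h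
  · intro h
    exact ⟨_, .lit g v b hg, by simp [h]⟩

private theorem W_and {D : Circuit V s} {e : Fin m → V} {g i j : Fin s}
    (hg : D.gate g = .and i j) : W D e g = W D e i ∪ W D e j := by
  ext k
  rw [mem_union, mem_W, mem_W, mem_W]
  constructor
  · rintro ⟨L, hL, hk⟩
    cases hL with
    | lit g v' b' h => rw [hg] at h; cases h
    | left g i' j' L h h1 =>
      rw [hg] at h
      cases h
      exact Or.inl ⟨L, h1, hk⟩
    | right g i' j' L h h1 =>
      rw [hg] at h
      cases h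
      exact Or.inr ⟨L, h1, hk⟩
    | both g i j L L' h => rw [hg] at h; cases h
  · rintro (⟨L, h1, hk⟩ | ⟨L, h1, hk⟩)
    · exact ⟨L, .left g i j L hg h1, hk⟩
    · exact ⟨L, .right g i j L hg h1, hk⟩

private theorem W_or {D : Circuit V s} {e : Fin m → V} {g i j : Fin s}
    (hg : D.gate g = .or i j) : W D e g = W D e i ∪ W D e j := by
  ext k
  rw [mem_union, mem_W, mem_W, mem_W]
  constructor
  · rintro ⟨L, hL, hk⟩
    cases hL with
    | lit g v' b' h => rw [hg] at h; cases h
    | left g i' j' L h h1 => rw [hg] at h; cases h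
    | right g i' j' L h h1 => rw [hg] at h; cases h
    | both g i j L L' h h1 h2 =>
      rw [hg] at h
      cases h
      rcases List.mem_append.1 hk with hk | hk
      · exact Or.inl ⟨L, h1, hk⟩
      · exact Or.inr ⟨L', h2, hk⟩
  · rintro (⟨L, h1, hk⟩ | ⟨L, h1, hk⟩)
    · obtain ⟨L', h2⟩ := tree_ex D j
      exact ⟨_, .both g i j L L' hg h1 h2, List.mem_append.2 (Or.inl hk)⟩
    · obtain ⟨L', h2⟩ := tree_ex D i
      exact ⟨_, .both g i j L' L hg h2 h1, List.mem_append.2 (Or.inr hk)⟩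

section

variable {D : Circuit V s} {e : Fin m → V} {pt : Finset (Fin m) → V → Bool}

private theorem ev_congr
    (hpt : ∀ X X' v, pt X v ≠ pt X' v → ∃ i, v = e i ∧ ¬ (i ∈ X ↔ i ∈ X'))
    {X X' : Finset (Fin m)} {g : Fin s} (h : ∀ i ∈ W D e g, (i ∈ X ↔ i ∈ X')) :
    ev D (pt X) g = ev D (pt X') g := by
  induction g using WellFoundedLT.induction with
  | ind g ih =>
    rcases hg : D.gate g with ⟨v, b⟩ | ⟨i, j⟩ | ⟨i, j⟩
    · rw [ev_lit hg, ev_lit hg]
      have : pt X v = pt X' v := by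
        by_contra hc
        obtain ⟨i, hi, hi2⟩ := hpt X X' v hc
        exact hi2 (h i ((W_lit hg i).2 hi.symm))
      rw [this]
    · have h1 := D.and_lt g i j hg
      rw [W_and hg] at h
      rw [ev_and hg, ev_and hg, ih i h1.1 fun k hk => h k (mem_union_left _ hk),
        ih j h1.2 fun k hk => h k (mem_union_right _ hk)]
    · have h1 := D.or_lt g i j hg
      rw [W_or hg] at h
      rw [ev_or hg, ev_or hg, ih i h1.1 fun k hk => h k (mem_union_left _ hk),
        ih j h1.2 fun k hk => h k (mem_union_right _ hk)]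

private theorem rch_tree [BEq V] [LawfulBEq V] {x : V → Bool} {g : Fin s} (h : Rch D x g)
    (L : List V) (hL : Tree D g L) : ∃ L', Tree D D.out L' ∧ ∀ v, L.count v ≤ L'.count v := by
  induction h generalizing L with
  | out => exact ⟨L, hL, fun v => le_refl _⟩
  | andl g i j h1 _ ih => exact ih L (.left g i j L h1 hL)
  | andr g i j h1 _ ih => exact ih L (.right g i j L h1 hL)
  | orl g i j h1 h2 _ ih =>
    obtain ⟨M, hM⟩ := tree_ex D j
    obtain ⟨L', h3, h4⟩ := ih _ (.both g i j L M h1 hL hM)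
    exact ⟨L', h3, fun v => le_trans (by rw [List.count_append]; omega) (h4 v)⟩
  | orr g i j h1 h2 _ ih =>
    obtain ⟨M, hM⟩ := tree_ex D i
    obtain ⟨L', h3, h4⟩ := ih _ (.both g i j M L h1 hM hL)
    exact ⟨L', h3, fun v => le_trans (by rw [List.count_append]; omega) (h4 v)⟩

private theorem or_disj [BEq V] [LawfulBEq V]
    (h1 : ∀ i L, Tree D D.out L → L.count (e i) ≤ 1) {x : V → Bool} {g i j : Fin s}
    (h : Rch D x g) (hg : D.gate g = .or i j) : Disjoint (W D e i) (W D e j) := by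
  rw [disjoint_left]
  intro k hk hk'
  obtain ⟨L, hL, hk⟩ := mem_W.1 hk
  obtain ⟨L', hL', hk'⟩ := mem_W.1 hk'
  obtain ⟨M, hM, hM2⟩ := rch_tree h _ (.both g i j L L' hg hL hL')
  have h2 := hM2 (e k)
  have h3 := h1 k M hM
  rw [List.count_append] at h2
  have h4 := List.count_pos_iff.2 hk
  have h5 := List.count_pos_iff.2 hk'
  omega

private theorem rch_congr [BEq V] [LawfulBEq V]
    (h1 : ∀ i L, Tree D D.out L → L.count (e i) ≤ 1)
    (hpt : ∀ X X' v, pt X v ≠ pt X' v → ∃ i, v = e i ∧ ¬ (i ∈ X ↔ i ∈ X'))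
    {X X' : Finset (Fin m)} {g : Fin s} (hr : Rch D (pt X) g)
    (h : ∀ i, i ∉ W D e g → (i ∈ X ↔ i ∈ X')) : Rch D (pt X') g := by
  induction hr with
  | out => exact .out
  | andl g i j hg _ ih =>
    exact .andl g i j hg (ih fun k hk => h k fun hc => hk (by
      rw [W_and hg]
      exact mem_union_left _ hc))
  | andr g i j hg _ ih =>
    exact .andr g i j hg (ih fun k hk => h k fun hc => hk (by
      rw [W_and hg]
      exact mem_union_right _ hc))
  | orl g i j hg h2 hr ih =>
    have hd := or_disj h1 hr hg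
    refine .orl g i j hg ?_ (ih fun k hk => h k fun hc => hk (by
      rw [W_or hg]
      exact mem_union_left _ hc))
    rw [← h2]
    exact (ev_congr hpt fun k hk => h k (disjoint_right.1 hd hk)).symm
  | orr g i j hg h2 hr ih =>
    have hd := or_disj h1 hr hg
    refine .orr g i j hg ?_ (ih fun k hk => h k fun hc => hk (by
      rw [W_or hg]
      exact mem_union_right _ hc))
    rw [← h2]
    exact (ev_congr hpt fun k hk => h k (disjoint_left.1 hd hk)).symm

end

/-! ## Few contexts or few values -/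

section

variable (D : Circuit V s) (e : Fin m → V) (pt : Finset (Fin m) → V → Bool) (t : ℕ)

open Classical in
/-- the contexts of `g` with `j` elements -/
private noncomputable def As (g : Fin s) (j : ℕ) : Finset (Finset (Fin m)) :=
  univ.filter fun a => a.card = j ∧ Disjoint a (W D e g) ∧ Rch D (pt a) g

open Classical in
/-- the sets with `j` elements below `g` on which `g` is false -/
private noncomputable def Bs (g : Fin s) (j : ℕ) : Finset (Finset (Fin m)) :=
  univ.filter fun b => b.card = j ∧ b ⊆ W D e g ∧ ev D (pt b) g = false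

open Classical in
private noncomputable def Ag (g : Fin s) : Finset (Finset (Fin m)) :=
  (range (m + 1)).biUnion fun j => if (As D e pt g j).card ≤ t then As D e pt g j else ∅

open Classical in
private noncomputable def Bg (g : Fin s) : Finset (Finset (Fin m)) :=
  (range (m + 1)).biUnion fun j => if (Bs D e pt g j).card ≤ t then Bs D e pt g j else ∅

private theorem card_Ag (g : Fin s) : (Ag D e pt t g).card ≤ (m + 1) * t := by
  refine card_biUnion_le.trans ?_
  refine (sum_le_card_nsmul _ _ t fun j _ => ?_).trans (by rw [card_range, smul_eq_mul])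
  split
  · assumption
  · exact Nat.zero_le _

private theorem card_Bg (g : Fin s) : (Bg D e pt t g).card ≤ (m + 1) * t := by
  refine card_biUnion_le.trans ?_
  refine (sum_le_card_nsmul _ _ t fun j _ => ?_).trans (by rw [card_range, smul_eq_mul])
  split
  · assumption
  · exact Nat.zero_le _

variable {D e pt t}

private theorem mem_Ag {g : Fin s} {a : Finset (Fin m)} (ha : a ∈ As D e pt g a.card)
    (h : (As D e pt g a.card).card ≤ t) : a ∈ Ag D e pt t g := by
  refine mem_biUnion.2 ⟨a.card, mem_range.2 (Nat.lt_succ_iff.2 ?_), ?_⟩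
  · simpa using card_le_univ a
  · rw [if_pos h]
    exact ha

private theorem mem_Bg {g : Fin s} {b : Finset (Fin m)} (hb : b ∈ Bs D e pt g b.card)
    (h : (Bs D e pt g b.card).card ≤ t) : b ∈ Bg D e pt t g := by
  refine mem_biUnion.2 ⟨b.card, mem_range.2 (Nat.lt_succ_iff.2 ?_), ?_⟩
  · simpa using card_le_univ b
  · rw [if_pos h]
    exact hb

private theorem mem_As [BEq V] [LawfulBEq V]
    (h1 : ∀ i L, Tree D D.out L → L.count (e i) ≤ 1)
    (hpt : ∀ X X' v, pt X v ≠ pt X' v → ∃ i, v = e i ∧ ¬ (i ∈ X ↔ i ∈ X'))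
    {X : Finset (Fin m)} {g : Fin s} (hr : Rch D (pt X) g) :
    X \ W D e g ∈ As D e pt g (X \ W D e g).card := by
  simp only [As, mem_filter, mem_univ, true_and]
  refine ⟨sdiff_disjoint, rch_congr h1 hpt hr fun i hi => ?_⟩
  rw [mem_sdiff]
  exact ⟨fun h => ⟨h, hi⟩, fun h => h.1⟩

private theorem mem_Bs
    (hpt : ∀ X X' v, pt X v ≠ pt X' v → ∃ i, v = e i ∧ ¬ (i ∈ X ↔ i ∈ X'))
    {X : Finset (Fin m)} {g : Fin s} (hr : ev D (pt X) g = false) :
    X ∩ W D e g ∈ Bs D e pt g (X ∩ W D e g).card := by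
  simp only [Bs, mem_filter, mem_univ, true_and]
  refine ⟨inter_subset_right, ?_⟩
  rw [← hr]
  refine ev_congr hpt fun i hi => ?_
  rw [mem_inter]
  exact ⟨fun h => h.1, fun h => ⟨h, hi⟩⟩

private theorem split [BEq V] [LawfulBEq V]
    (h1 : ∀ i L, Tree D D.out L → L.count (e i) ≤ 1)
    (hpt : ∀ X X' v, pt X v ≠ pt X' v → ∃ i, v = e i ∧ ¬ (i ∈ X ↔ i ∈ X'))
    (C : (V → Bool) → Prop) (hD : ∀ x, ¬ D.Accepts x → C x) {h : ℕ}
    (H1 : ∀ (W : Finset (Fin m)) (A B : Finset (Finset (Fin m))), (∀ a ∈ A, Disjoint a W) →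
      (∀ b ∈ B, b ⊆ W) → (∀ a ∈ A, ∀ b ∈ B, a.card + b.card = h) → t < A.card → t < B.card →
      ∃ a ∈ A, ∃ b ∈ B, ¬ C (pt (a ∪ b)))
    (g : Fin s) {j j' : ℕ} (hj : j + j' = h) :
    (As D e pt g j).card ≤ t ∨ (Bs D e pt g j').card ≤ t := by
  by_contra hc
  push Not at hc
  obtain ⟨a, ha, b, hb, hn⟩ := H1 (W D e g) (As D e pt g j) (Bs D e pt g j')
    (fun a ha => by
      simp only [As, mem_filter, mem_univ, true_and] at ha
      exact ha.2.1)
    (fun b hb => by
      simp only [Bs, mem_filter, mem_univ, true_and] at hb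
      exact hb.2.1)
    (fun a ha b hb => by
      simp only [As, Bs, mem_filter, mem_univ, true_and] at ha hb
      rw [ha.1, hb.1, hj]) hc.1 hc.2
  simp only [As, Bs, mem_filter, mem_univ, true_and] at ha hb
  refine hn (hD _ (ev_out.1 (rch_false (g := g) ?_ ?_)))
  · refine rch_congr h1 hpt ha.2.2 fun i hi => ?_
    rw [mem_union]
    exact ⟨fun h => Or.inl h, fun h => h.resolve_right fun hc => hi (hb.2.1 hc)⟩
  · rw [← hb.2.2]
    refine ev_congr hpt fun i hi => ?_
    rw [mem_union]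
    exact ⟨fun h => h.resolve_left fun hc => disjoint_left.1 ha.2.1 hc hi, fun h => Or.inr h⟩

end

/-! ## Counting -/

open Classical in
private theorem cnt {C : (V → Bool) → Prop} {pt : Finset (Fin m) → V → Bool} {h t : ℕ}
    (H2 : ∀ (F ρ : Finset (Fin m)) (i : ℕ), Disjoint F ρ → ρ.card + i = h →
      t ^ 2 < F.card.choose i → ∃ c ∈ powersetCard i F, ¬ C (pt (ρ ∪ c)))
    (G I : Finset (Fin m)) (hI : I ⊆ G) (S : Finset (Finset (Fin m)))
    (hh : ∀ X ∈ S, X.card = h)
    (hS : ∀ X ∈ S, ∀ X', (∀ k, k ∉ G → (k ∈ X ↔ k ∈ X')) → (∀ k ∈ I, (k ∈ X ↔ k ∈ X')) →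
      C (pt X'))
    (A B : Finset (Finset (Fin m))) (hA : ∀ X ∈ S, X \ G ∈ A) (hB : ∀ X ∈ S, X ∩ I ∈ B) :
    S.card ≤ t ^ 2 * (A.card * B.card) := by
  rw [← card_product]
  refine card_le_mul_card_image_of_maps_to (f := fun X => (X \ G, X ∩ I))
    (fun X hX => mem_product.2 ⟨hA X hX, hB X hX⟩) _ fun p _ => ?_
  rcases (S.filter fun X => (X \ G, X ∩ I) = p).eq_empty_or_nonempty with hE | ⟨X₀, hX₀⟩
  · rw [hE]
    exact Nat.zero_le _
  obtain ⟨h0, h1⟩ := mem_filter.1 hX₀
  have hcard : ∀ X : Finset (Fin m),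
      (X \ G).card + (X ∩ I).card + (X ∩ (G \ I)).card = X.card := by
    intro X
    rw [← card_union_of_disjoint, ← card_union_of_disjoint]
    · congr 1
      ext k
      simp only [mem_union, mem_sdiff, mem_inter]
      tauto
    · rw [disjoint_left]
      intro k hk hk'
      simp only [mem_union, mem_sdiff, mem_inter] at hk hk'
      tauto
    · rw [disjoint_left]
      intro k hk hk'
      simp only [mem_sdiff, mem_inter] at hk hk'
      exact hk.2 (hI hk'.2)
  have hle : (G \ I).card.choose (X₀ ∩ (G \ I)).card ≤ t ^ 2 := by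
    by_contra hc
    push Not at hc
    obtain ⟨c, hc1, hc2⟩ := H2 (G \ I) (X₀ \ G ∪ X₀ ∩ I) (X₀ ∩ (G \ I)).card (by
        rw [disjoint_left]
        intro k hk hk'
        simp only [mem_union, mem_sdiff, mem_inter] at hk hk'
        tauto) (by
        rw [card_union_of_disjoint, hcard, hh X₀ h0]
        rw [disjoint_left]
        intro k hk hk'
        simp only [mem_sdiff, mem_inter] at hk hk'
        exact hk.2 (hI hk'.2)) hc
    have hc3 := (mem_powersetCard.1 hc1).1
    refine hc2 (hS X₀ h0 _ (fun k hk => ?_) fun k hk => ?_)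
    · simp only [mem_union, mem_sdiff, mem_inter]
      constructor
      · intro h
        exact Or.inl (Or.inl ⟨h, hk⟩)
      · rintro ((h | h) | h)
        · exact h.1
        · exact h.1
        · exact absurd (mem_sdiff.1 (hc3 h)).1 hk
    · simp only [mem_union, mem_sdiff, mem_inter]
      constructor
      · intro h
        exact Or.inl (Or.inr ⟨h, hk⟩)
      · rintro ((h | h) | h)
        · exact h.1
        · exact h.1
        · exact absurd hk (mem_sdiff.1 (hc3 h)).2
  refine le_trans ?_ hle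
  rw [← card_powersetCard]
  refine card_le_card_of_injOn (fun X => X ∩ (G \ I)) (fun X hX => ?_) fun X hX X' hX' hXX => ?_
  · obtain ⟨h2, h3⟩ := mem_filter.1 (mem_coe.1 hX)
    rw [mem_coe, mem_powersetCard]
    refine ⟨inter_subset_right, ?_⟩
    have h4 := hcard X
    have h5 := hcard X₀
    rw [hh X h2] at h4
    rw [hh X₀ h0] at h5
    have h6 : X \ G = X₀ \ G := (congrArg Prod.fst h3).trans (congrArg Prod.fst h1).symm
    have h7 : X ∩ I = X₀ ∩ I := (congrArg Prod.snd h3).trans (congrArg Prod.snd h1).symm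
    rw [h6, h7] at h4
    show (X ∩ (G \ I)).card = _
    omega
  · have h3 := (mem_filter.1 (mem_coe.1 hX)).2
    have h3' := (mem_filter.1 (mem_coe.1 hX')).2
    have h6 : X \ G = X' \ G := (congrArg Prod.fst h3).trans (congrArg Prod.fst h3').symm
    have h7 : X ∩ I = X' ∩ I := (congrArg Prod.snd h3).trans (congrArg Prod.snd h3').symm
    have h8 : X ∩ (G \ I) = X' ∩ (G \ I) := hXX
    ext k
    have e1 := Finset.ext_iff.1 h6 k
    have e2 := Finset.ext_iff.1 h7 k
    have e3 := Finset.ext_iff.1 h8 k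
    simp only [mem_sdiff, mem_inter] at e1 e2 e3
    tauto

open Classical in
private theorem cnt3 (G I J : Finset (Fin m)) (hG : G = I ∪ J) (S : Finset (Finset (Fin m)))
    (A B B' : Finset (Finset (Fin m))) (hA : ∀ X ∈ S, X \ G ∈ A) (hB : ∀ X ∈ S, X ∩ I ∈ B)
    (hB' : ∀ X ∈ S, X ∩ J ∈ B') : S.card ≤ A.card * (B.card * B'.card) := by
  rw [← card_product, ← card_product]
  refine card_le_card_of_injOn (fun X => (X \ G, X ∩ I, X ∩ J)) (fun X hX => ?_)
    fun X hX X' hX' hXX => ?_
  · exact mem_coe.2 (mem_product.2 ⟨hA X hX, mem_product.2 ⟨hB X hX, hB' X hX⟩⟩)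
  · have h6 : X \ G = X' \ G := congrArg Prod.fst hXX
    have h7 : X ∩ I = X' ∩ I := congrArg (fun p => p.2.1) hXX
    have h8 : X ∩ J = X' ∩ J := congrArg (fun p => p.2.2) hXX
    subst hG
    ext k
    have e1 := Finset.ext_iff.1 h6 k
    have e2 := Finset.ext_iff.1 h7 k
    have e3 := Finset.ext_iff.1 h8 k
    simp only [mem_sdiff, mem_inter, mem_union] at e1 e2 e3
    tauto

/-! ## The walk -/

/-- the input `X` ends at the gate `g` -/
private def Tm (D : Circuit V s) (e : Fin m → V) (pt : Finset (Fin m) → V → Bool) (t h : ℕ)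
    (g : Fin s) (X : Finset (Fin m)) : Prop :=
  X.card = h ∧ Rch D (pt X) g ∧ X \ W D e g ∈ Ag D e pt t g ∧
    ((∃ v b, D.gate g = .lit v b) ∨
    (∃ i j, D.gate g = .and i j ∧ ev D (pt X) i = false ∧ X ∩ W D e i ∈ Bg D e pt t i) ∨
    (∃ i j, D.gate g = .and i j ∧ ev D (pt X) j = false ∧ X ∩ W D e j ∈ Bg D e pt t j) ∨
    ∃ i j, D.gate g = .or i j ∧ X ∩ W D e i ∈ Bg D e pt t i ∧ X ∩ W D e j ∈ Bg D e pt t j)

section

variable {D : Circuit V s} {e : Fin m → V} {pt : Finset (Fin m) → V → Bool} {t h : ℕ}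

private theorem ends {X : Finset (Fin m)} (hX : X.card = h)
    (hch : ∀ g, Rch D (pt X) g → ev D (pt X) g = false →
      X \ W D e g ∈ Ag D e pt t g ∨ X ∩ W D e g ∈ Bg D e pt t g)
    (g : Fin s) (hr : Rch D (pt X) g) (hf : ev D (pt X) g = false)
    (ha : X \ W D e g ∈ Ag D e pt t g) : ∃ g', Tm D e pt t h g' X := by
  induction g using WellFoundedLT.induction with
  | ind g ih =>
    rcases hg : D.gate g with ⟨v, b⟩ | ⟨i, j⟩ | ⟨i, j⟩
    · exact ⟨g, hX, hr, ha, Or.inl ⟨v, b, hg⟩⟩
    · have h1 := D.and_lt g i j hg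
      rw [ev_and hg, Bool.and_eq_false_iff] at hf
      rcases hf with hf | hf
      · rcases hch i (.andl g i j hg hr) hf with h2 | h2
        · exact ih i h1.1 (.andl g i j hg hr) hf h2
        · exact ⟨g, hX, hr, ha, Or.inr (Or.inl ⟨i, j, hg, hf, h2⟩)⟩
      · rcases hch j (.andr g i j hg hr) hf with h2 | h2
        · exact ih j h1.2 (.andr g i j hg hr) hf h2
        · exact ⟨g, hX, hr, ha, Or.inr (Or.inr (Or.inl ⟨i, j, hg, hf, h2⟩))⟩
    · have h1 := D.or_lt g i j hg
      rw [ev_or hg, Bool.or_eq_false_iff] at hf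
      rcases hch i (.orl g i j hg hf.2 hr) hf.1 with h2 | h2
      · exact ih i h1.1 (.orl g i j hg hf.2 hr) hf.1 h2
      · rcases hch j (.orr g i j hg hf.1 hr) hf.2 with h3 | h3
        · exact ih j h1.2 (.orr g i j hg hf.1 hr) hf.2 h3
        · exact ⟨g, hX, hr, ha, Or.inr (Or.inr (Or.inr ⟨i, j, hg, h2, h3⟩))⟩

open Classical in
private theorem cnt_and [BEq V] [LawfulBEq V]
    (h1 : ∀ i L, Tree D D.out L → L.count (e i) ≤ 1)
    (hpt : ∀ X X' v, pt X v ≠ pt X' v → ∃ i, v = e i ∧ ¬ (i ∈ X ↔ i ∈ X'))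
    {C : (V → Bool) → Prop} (hD : ∀ x, ¬ D.Accepts x → C x)
    (H2 : ∀ (F ρ : Finset (Fin m)) (i : ℕ), Disjoint F ρ → ρ.card + i = h →
      t ^ 2 < F.card.choose i → ∃ c ∈ powersetCard i F, ¬ C (pt (ρ ∪ c)))
    (g i : Fin s) (hi : W D e i ⊆ W D e g) (hgi : ∀ x, Rch D x g → Rch D x i) :
    (univ.filter fun X => X.card = h ∧ Rch D (pt X) g ∧ X \ W D e g ∈ Ag D e pt t g ∧
      ev D (pt X) i = false ∧ X ∩ W D e i ∈ Bg D e pt t i).card ≤
      t ^ 2 * (((m + 1) * t) * ((m + 1) * t)) := by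
  refine (cnt H2 (W D e g) (W D e i) hi _ (fun X hX => ?_) (fun X hX X' ha hb => ?_)
    (Ag D e pt t g) (Bg D e pt t i) (fun X hX => ?_) fun X hX => ?_).trans
    (Nat.mul_le_mul_left _ (Nat.mul_le_mul (card_Ag D e pt t g) (card_Bg D e pt t i)))
  · exact (mem_filter.1 hX).2.1
  · obtain ⟨-, h3, h4, h5, h6, h7⟩ := mem_filter.1 hX
    refine hD _ (ev_out.1 (rch_false (g := i) (hgi _ (rch_congr h1 hpt h4 ha)) ?_))
    rw [← h6]
    exact (ev_congr hpt hb).symm
  · exact (mem_filter.1 hX).2.2.2.1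
  · exact (mem_filter.1 hX).2.2.2.2.2

open Classical in
private theorem cnt_gate [BEq V] [LawfulBEq V] (he : Function.Injective e)
    (h1 : ∀ i L, Tree D D.out L → L.count (e i) ≤ 1)
    (hpt : ∀ X X' v, pt X v ≠ pt X' v → ∃ i, v = e i ∧ ¬ (i ∈ X ↔ i ∈ X'))
    {C : (V → Bool) → Prop} (hD : ∀ x, ¬ D.Accepts x → C x) (ht : 1 ≤ t)
    (H2 : ∀ (F ρ : Finset (Fin m)) (i : ℕ), Disjoint F ρ → ρ.card + i = h →
      t ^ 2 < F.card.choose i → ∃ c ∈ powersetCard i F, ¬ C (pt (ρ ∪ c)))
    (g : Fin s) : (univ.filter (Tm D e pt t h g)).card ≤ 2 * (m + 1) ^ 3 * t ^ 4 := by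
  have hm1 : 1 ≤ (m + 1) ^ 2 := Nat.one_le_pow _ _ (by omega)
  have ht3 : 1 ≤ t ^ 3 := Nat.one_le_pow _ _ ht
  rcases hg : D.gate g with ⟨v, b⟩ | ⟨i, j⟩ | ⟨i, j⟩
  · have hW : (W D e g).card ≤ 1 := by
      rw [card_le_one]
      intro a ha b hb
      exact he (((W_lit hg a).1 ha).trans ((W_lit hg b).1 hb).symm)
    have h2 := cnt3 (W D e g) (W D e g) ∅ (union_empty _).symm (univ.filter (Tm D e pt t h g))
      (Ag D e pt t g) (W D e g).powerset {∅} (fun X hX => (mem_filter.1 hX).2.2.2.1)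
      (fun X _ => mem_powerset.2 inter_subset_right) (fun X _ => by simp)
    rw [card_singleton, mul_one, card_powerset] at h2
    refine h2.trans ((Nat.mul_le_mul (card_Ag D e pt t g)
      (Nat.pow_le_pow_right (by norm_num) hW)).trans ?_)
    calc (m + 1) * t * 2 ^ 1 = 2 * ((m + 1) * 1) * (t * 1) := by ring
      _ ≤ 2 * ((m + 1) * (m + 1) ^ 2) * (t * t ^ 3) := by gcongr
      _ = 2 * (m + 1) ^ 3 * t ^ 4 := by ring
  · have hlt := D.and_lt g i j hg
    have h2 := cnt_and h1 hpt hD H2 g i (by rw [W_and hg]; exact subset_union_left)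
      fun x hx => .andl g i j hg hx
    have h3 := cnt_and h1 hpt hD H2 g j (by rw [W_and hg]; exact subset_union_right)
      fun x hx => .andr g i j hg hx
    refine (card_le_card (fun X hX => ?_)).trans ((card_union_le _ _).trans
      ((Nat.add_le_add h2 h3).trans ?_))
    · obtain ⟨h4, h5, h6, h7⟩ := (mem_filter.1 hX).2
      rw [mem_union, mem_filter, mem_filter]
      rcases h7 with ⟨v, b, h8⟩ | ⟨i', j', h8, h9, h10⟩ | ⟨i', j', h8, h9, h10⟩ | ⟨i', j', h8, -⟩
      · rw [hg] at h8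
        cases h8
      · rw [hg] at h8
        cases h8
        exact Or.inl ⟨mem_univ _, h4, h5, h6, h9, h10⟩
      · rw [hg] at h8
        cases h8
        exact Or.inr ⟨mem_univ _, h4, h5, h6, h9, h10⟩
      · rw [hg] at h8
        cases h8
    · calc t ^ 2 * (((m + 1) * t) * ((m + 1) * t)) + t ^ 2 * (((m + 1) * t) * ((m + 1) * t))
          = 2 * ((m + 1) ^ 2 * 1) * t ^ 4 := by ring
        _ ≤ 2 * ((m + 1) ^ 2 * (m + 1)) * t ^ 4 := by gcongr; omega
        _ = 2 * (m + 1) ^ 3 * t ^ 4 := by ring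
  · have h2 := cnt3 (W D e g) (W D e i) (W D e j) (W_or hg) (univ.filter (Tm D e pt t h g))
      (Ag D e pt t g) (Bg D e pt t i) (Bg D e pt t j) (fun X hX => (mem_filter.1 hX).2.2.2.1)
      (fun X hX => ?_) (fun X hX => ?_)
    · refine h2.trans ((Nat.mul_le_mul (card_Ag D e pt t g)
        (Nat.mul_le_mul (card_Bg D e pt t i) (card_Bg D e pt t j))).trans ?_)
      calc (m + 1) * t * ((m + 1) * t * ((m + 1) * t)) = 1 * (m + 1) ^ 3 * (t ^ 3 * 1) := by ring
        _ ≤ 2 * (m + 1) ^ 3 * (t ^ 3 * t) := by gcongr; norm_num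
        _ = 2 * (m + 1) ^ 3 * t ^ 4 := by ring
    · obtain ⟨-, -, -, h7⟩ := (mem_filter.1 hX).2
      rcases h7 with ⟨v, b, h8⟩ | ⟨i', j', h8, -⟩ | ⟨i', j', h8, -⟩ | ⟨i', j', h8, h9, -⟩ <;>
        rw [hg] at h8 <;> cases h8
      exact h9
    · obtain ⟨-, -, -, h7⟩ := (mem_filter.1 hX).2
      rcases h7 with ⟨v, b, h8⟩ | ⟨i', j', h8, -⟩ | ⟨i', j', h8, -⟩ | ⟨i', j', h8, -, h9⟩ <;>
        rw [hg] at h8 <;> cases h8
      exact h9

end

open Classical in
theorem walk {V : Type} [BEq V] [LawfulBEq V] {s m : ℕ} (D : Circuit V s) (e : Fin m → V)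
    (he : Function.Injective e) (h1 : ∀ i L, Tree D D.out L → L.count (e i) ≤ 1)
    (pt : Finset (Fin m) → V → Bool)
    (hpt : ∀ X X' v, pt X v ≠ pt X' v → ∃ i, v = e i ∧ ¬ (i ∈ X ↔ i ∈ X'))
    (C : (V → Bool) → Prop) (hD : ∀ x, ¬ D.Accepts x → C x) (h t : ℕ) (ht : 1 ≤ t)
    (H1 : ∀ (W : Finset (Fin m)) (A B : Finset (Finset (Fin m))), (∀ a ∈ A, Disjoint a W) →
      (∀ b ∈ B, b ⊆ W) → (∀ a ∈ A, ∀ b ∈ B, a.card + b.card = h) → t < A.card → t < B.card →
      ∃ a ∈ A, ∃ b ∈ B, ¬ C (pt (a ∪ b)))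
    (H2 : ∀ (F ρ : Finset (Fin m)) (i : ℕ), Disjoint F ρ → ρ.card + i = h →
      t ^ 2 < F.card.choose i → ∃ c ∈ powersetCard i F, ¬ C (pt (ρ ∪ c))) :
    ((powersetCard h univ).filter fun X => ¬ D.Accepts (pt X)).card ≤
      (s + 1) * (6 * (m + 1) ^ 3 * t ^ 4) := by
  have hch : ∀ X : Finset (Fin m), X.card = h → ∀ g, Rch D (pt X) g → ev D (pt X) g = false →
      X \ W D e g ∈ Ag D e pt t g ∨ X ∩ W D e g ∈ Bg D e pt t g := by
    intro X hX g hr hf
    rcases split h1 hpt C hD H1 g (j := (X \ W D e g).card) (j' := (X ∩ W D e g).card)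
      (by rw [card_sdiff_add_card_inter, hX]) with h2 | h2
    · exact Or.inl (mem_Ag (mem_As h1 hpt hr) h2)
    · exact Or.inr (mem_Bg (mem_Bs hpt hf) h2)
  set R := univ.filter fun X : Finset (Fin m) => X.card = h ∧ ev D (pt X) D.out = false ∧
    X ∩ W D e D.out ∈ Bg D e pt t D.out with hR
  have hRc : R.card ≤ 2 * (m + 1) ^ 3 * t ^ 4 := by
    have h2 := cnt (C := C) H2 univ (W D e D.out) (subset_univ _) R
      (fun X hX => (mem_filter.1 hX).2.1) (fun X hX X' _ hb => hD _ (ev_out.1 (by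
        rw [← (mem_filter.1 hX).2.2.1]
        exact (ev_congr hpt hb).symm))) {∅} (Bg D e pt t D.out)
      (fun X _ => by simp) (fun X hX => (mem_filter.1 hX).2.2.2)
    rw [card_singleton, one_mul] at h2
    refine h2.trans ((Nat.mul_le_mul_left _ (card_Bg D e pt t D.out)).trans ?_)
    have hm1 : 1 ≤ (m + 1) ^ 2 := Nat.one_le_pow _ _ (by omega)
    calc t ^ 2 * ((m + 1) * t) = 1 * ((m + 1) * 1) * (t ^ 3 * 1) := by ring
      _ ≤ 2 * ((m + 1) * (m + 1) ^ 2) * (t ^ 3 * t) := by gcongr; norm_num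
      _ = 2 * (m + 1) ^ 3 * t ^ 4 := by ring
  have hsub : ((powersetCard h univ).filter fun X => ¬ D.Accepts (pt X)) ⊆
      R ∪ univ.biUnion fun g => univ.filter (Tm D e pt t h g) := by
    intro X hX
    obtain ⟨h2, h3⟩ := mem_filter.1 hX
    have h2 := (mem_powersetCard.1 h2).2
    have h3 := ev_out.2 h3
    rcases hch X h2 D.out .out h3 with h4 | h4
    · obtain ⟨g, hg⟩ := ends h2 (hch X h2) D.out .out h3 h4
      exact mem_union_right _ (mem_biUnion.2 ⟨g, mem_univ _, mem_filter.2 ⟨mem_univ _, hg⟩⟩)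
    · exact mem_union_left _ (mem_filter.2 ⟨mem_univ _, h2, h3, h4⟩)
  refine (card_le_card hsub).trans ((card_union_le _ _).trans ?_)
  have h5 : (univ.biUnion fun g => univ.filter (Tm D e pt t h g)).card ≤
      s * (2 * (m + 1) ^ 3 * t ^ 4) := by
    refine card_biUnion_le.trans ?_
    refine (sum_le_card_nsmul _ _ _ fun g _ => cnt_gate he h1 hpt hD ht H2 g).trans ?_
    rw [card_univ, Fintype.card_fin, smul_eq_mul]
  calc _ ≤ 2 * (m + 1) ^ 3 * t ^ 4 + s * (2 * (m + 1) ^ 3 * t ^ 4) := Nat.add_le_add hRc h5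
    _ = (s + 1) * (2 * (m + 1) ^ 3 * t ^ 4) := by ring
    _ ≤ (s + 1) * (6 * (m + 1) ^ 3 * t ^ 4) := by gcongr; norm_num

end Pool.Agent.EX
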