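import Mathlib
import Pool.Agent.Lib.MP_0a1b52_lc_EX.Hash
import Pool.Agent.Lib.MP_0a1b52_lc_EX.Chain
import Pool.Agent.Lib.MP_0a1b52_lc_EX.PlaceM
import Pool.Agent.Lib.MP_0a1b52_lc_EX.Walk

/-!
# Reading variables once, module Exact: the theorem

`h = m / 2`, `t = 8 m`, `k = t ^ 2`, `q = 4 k`, `L = 16 k`.  The sets in `𝓕`: the unions of two
families of `t` sets (rectangles), `k` sets of each subcube with at least `k` sets of size `h`, and
disjoint blocks of `k` sets of size `h`.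
-/

set_option autoImplicit false

namespace Pool.Agent.EX

open Finset Pool.Agent.FP Pool.Agent.RT

/-! ## The families of sets -/

private def uni {m t : ℕ} (p : (Fin t → Finset (Fin m)) × (Fin t → Finset (Fin m))) :
    Finset (Finset (Fin m)) :=
  univ.image fun i : Fin t × Fin t => p.1 i.1 ∪ p.2 i.2

private def cube {m : ℕ} (F ρ : Finset (Fin m)) (i : ℕ) : Finset (Finset (Fin m)) :=
  (powersetCard i F).image fun c => ρ ∪ c

open Classical in
private noncomputable def pick {m : ℕ} (k : ℕ) (p : Finset (Fin m) × Finset (Fin m) × Fin (m + 1)) :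
    Finset (Finset (Fin m)) :=
  if h : k ≤ (cube p.1 p.2.1 p.2.2).card then (exists_subset_card_eq h).choose else ∅

private theorem pick_spec {m k : ℕ} (p : Finset (Fin m) × Finset (Fin m) × Fin (m + 1))
    (h : k ≤ (cube p.1 p.2.1 p.2.2).card) :
    pick k p ⊆ cube p.1 p.2.1 p.2.2 ∧ (pick k p).card = k := by
  unfold pick
  rw [dif_pos h]
  exact (exists_subset_card_eq h).choose_spec

private theorem card_cube {m : ℕ} (F ρ : Finset (Fin m)) (i : ℕ) (hd : Disjoint F ρ) :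
    (cube F ρ i).card = F.card.choose i := by
  unfold cube
  rw [card_image_of_injOn, card_powersetCard]
  intro c hc c' hc' h
  have h1 : ∀ c, c ⊆ F → (ρ ∪ c) \ ρ = c := by
    intro c hc
    rw [union_sdiff_left]
    exact sdiff_eq_self_of_disjoint (disjoint_of_subset_left hc hd)
  have h2 := h1 c (mem_powersetCard.1 (by exact_mod_cast hc)).1
  have h3 := h1 c' (mem_powersetCard.1 (by exact_mod_cast hc')).1
  have h4 : ρ ∪ c = ρ ∪ c' := h
  rw [← h2, ← h3, h4]

private theorem card_uni {m t : ℕ} (W : Finset (Fin m)) (α β : Fin t → Finset (Fin m))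
    (hα : ∀ i, Disjoint (α i) W) (hβ : ∀ i, β i ⊆ W) (hα' : Function.Injective α)
    (hβ' : Function.Injective β) : (uni (α, β)).card = t ^ 2 := by
  unfold uni
  rw [card_image_of_injective, card_univ, Fintype.card_prod, Fintype.card_fin, sq]
  rintro ⟨i, j⟩ ⟨i', j'⟩ h
  have h0 : α i ∪ β j = α i' ∪ β j' := h
  have h1 : ∀ i j, (α i ∪ β j) \ W = α i := by
    intro i j
    rw [union_sdiff_distrib, sdiff_eq_empty_iff_subset.2 (hβ j), union_empty]
    exact sdiff_eq_self_of_disjoint (hα i)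
  have h2 : ∀ i j, (α i ∪ β j) ∩ W = β j := by
    intro i j
    rw [union_inter_distrib_right, disjoint_iff_inter_eq_empty.1 (hα i), empty_union]
    exact inter_eq_left.2 (hβ j)
  have h3 : α i = α i' := by rw [← h1 i j, ← h1 i' j', h0]
  have h4 : β j = β j' := by rw [← h2 i j, ← h2 i' j', h0]
  rw [hα' h3, hβ' h4]

/-- blocks of `k` elements of a finite set -/
private theorem blocks {α : Type} [DecidableEq α] (S : Finset α) (k : ℕ) :
    ∃ Bl : Fin (S.card / k) → Finset α, (∀ j, Bl j ⊆ S) ∧ (∀ j, (Bl j).card = k) ∧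
      ∀ j j', j ≠ j' → Disjoint (Bl j) (Bl j') := by
  have hlt : ∀ (j : Fin (S.card / k)) (i : Fin k), (j : ℕ) * k + i < S.card := by
    intro j i
    have h1 := j.2
    have h2 := i.2
    have h3 : ((j : ℕ) + 1) * k ≤ S.card / k * k := Nat.mul_le_mul_right _ h1
    have h4 := Nat.div_mul_le_self S.card k
    nlinarith
  let e := S.equivFin.symm
  have hinj : ∀ (j : Fin (S.card / k)) (i : Fin k) (j' : Fin (S.card / k)) (i' : Fin k),
      (e ⟨(j : ℕ) * k + i, hlt j i⟩).1 = (e ⟨(j' : ℕ) * k + i', hlt j' i'⟩).1 →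
        j = j' ∧ i = i' := by
    intro j i j' i' h
    have h1 := e.injective (Subtype.ext h)
    have h2 : (j : ℕ) * k + i = (j' : ℕ) * k + i' := congrArg Fin.val h1
    have h3 := i.2
    have h4 := i'.2
    have h5 : (j : ℕ) = j' := by
      rcases lt_trichotomy (j : ℕ) j' with h6 | h6 | h6
      · have h7 : ((j : ℕ) + 1) * k ≤ (j' : ℕ) * k := Nat.mul_le_mul_right _ h6
        exfalso
        nlinarith
      · exact h6
      · have h7 : ((j' : ℕ) + 1) * k ≤ (j : ℕ) * k := Nat.mul_le_mul_right _ h6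
        exfalso
        nlinarith
    rw [h5] at h2
    exact ⟨Fin.ext h5, Fin.ext (by omega)⟩
  refine ⟨fun j => univ.image fun i : Fin k => (e ⟨(j : ℕ) * k + i, hlt j i⟩).1,
    fun j x hx => ?_, fun j => ?_, fun j j' hj => ?_⟩
  · obtain ⟨i, -, rfl⟩ := mem_image.1 hx
    exact (e _).2
  · rw [card_image_of_injective, card_univ, Fintype.card_fin]
    intro i i' h
    exact (hinj j i j i' h).2
  · rw [disjoint_left]
    intro x hx hx'
    obtain ⟨i, -, rfl⟩ := mem_image.1 hx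
    obtain ⟨i', -, h⟩ := mem_image.1 hx'
    exact hj (hinj j' i' j i h).1.symm

/-! ## The random-like function -/

private theorem good (m h t k : ℕ) (hm : 1 ≤ m) (ht : t = 8 * m) (hk : k = t ^ 2) :
    ∃ y : Par m (4 * k) (16 * k),
      (∀ (ty : Bool) (W : Finset (Fin m)) (A B : Finset (Finset (Fin m))),
        (∀ a ∈ A, Disjoint a W) → (∀ b ∈ B, b ⊆ W) → t < A.card → t < B.card →
        ∃ a ∈ A, ∃ b ∈ B, hsh y (a ∪ b) = ty) ∧
      (∀ (ty : Bool) (F ρ : Finset (Fin m)) (i : ℕ), Disjoint F ρ → k ≤ F.card.choose i →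
        ∃ c ∈ powersetCard i F, hsh y (ρ ∪ c) = ty) ∧
      ∀ ty : Bool, m.choose h / k ≤
        ((powersetCard h univ).filter fun X => hsh y X = ty).card := by
  classical
  have hk64 : k = 64 * m ^ 2 := by
    rw [hk, ht]
    ring
  have hk1 : 64 ≤ k := by nlinarith
  obtain ⟨Bl, hB1, hB2, hB3⟩ := blocks (powersetCard h (univ : Finset (Fin m))) k
  have hPc : (powersetCard h (univ : Finset (Fin m))).card = m.choose h := by
    rw [card_powersetCard, card_univ, Fintype.card_fin]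
  let 𝓕₁ : Finset (Finset (Finset (Fin m))) :=
    (univ : Finset ((Fin t → Finset (Fin m)) × (Fin t → Finset (Fin m)))).image uni
  let 𝓕₂ : Finset (Finset (Finset (Fin m))) :=
    (univ : Finset (Finset (Fin m) × Finset (Fin m) × Fin (m + 1))).image (pick k)
  let 𝓕₃ : Finset (Finset (Finset (Fin m))) := univ.image Bl
  let 𝓕 := (𝓕₁ ∪ 𝓕₂ ∪ 𝓕₃).filter fun S => S.card = k
  have hc : 𝓕.card ≤ 2 ^ (k / 2) := by
    have h1 : 𝓕₁.card ≤ 2 ^ (16 * m ^ 2) := by
      refine card_image_le.trans (le_of_eq ?_)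
      rw [card_univ, Fintype.card_prod, Fintype.card_fun, Fintype.card_finset, Fintype.card_fin,
        Fintype.card_fin, ← pow_mul, ← pow_add]
      congr 1
      rw [ht]
      ring
    have h2 : 𝓕₂.card ≤ 2 ^ (3 * m) := by
      refine card_image_le.trans ?_
      rw [card_univ, Fintype.card_prod, Fintype.card_prod, Fintype.card_finset, Fintype.card_fin,
        Fintype.card_fin]
      calc 2 ^ m * (2 ^ m * (m + 1)) ≤ 2 ^ m * (2 ^ m * 2 ^ m) := by
            gcongr
            exact Nat.lt_two_pow_self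
        _ = 2 ^ (3 * m) := by
            rw [← pow_add, ← pow_add]
            congr 1
            ring
    have h3 : 𝓕₃.card ≤ 2 ^ m := by
      refine card_image_le.trans ?_
      rw [card_univ, Fintype.card_fin, hPc]
      exact (Nat.div_le_self _ _).trans (Nat.choose_le_two_pow _ _)
    have h4 : 𝓕.card ≤ 𝓕₁.card + 𝓕₂.card + 𝓕₃.card :=
      (card_filter_le _ _).trans ((card_union_le _ _).trans
        (Nat.add_le_add_right (card_union_le _ _) _))
    have h5 : 2 ^ (3 * m) ≤ 2 ^ (16 * m ^ 2) := Nat.pow_le_pow_right (by norm_num) (by nlinarith)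
    have h6 : 2 ^ m ≤ 2 ^ (16 * m ^ 2) := Nat.pow_le_pow_right (by norm_num) (by nlinarith)
    have h7 : 2 ^ (16 * m ^ 2) * 4 ≤ 2 ^ (k / 2) := by
      calc 2 ^ (16 * m ^ 2) * 4 = 2 ^ (16 * m ^ 2 + 2) := by
            rw [pow_add]
            norm_num
        _ ≤ 2 ^ (k / 2) := by
          refine Nat.pow_le_pow_right (by norm_num) ?_
          rw [hk64]
          have : 1 ≤ m ^ 2 := Nat.one_le_pow _ _ hm
          omega
    omega
  obtain ⟨y, hy⟩ := hash m k (by omega) 𝓕 (fun S hS => (mem_filter.1 hS).2) hc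
  have hy' : ∀ ty : Bool, ∀ S ∈ 𝓕, ∃ X ∈ S, hsh y X = ty := by
    intro ty S hS
    cases ty with
    | false => exact (hy S hS).2
    | true => exact (hy S hS).1
  refine ⟨y, ?_, ?_, ?_⟩
  · intro ty W A B hA hB hAc hBc
    obtain ⟨A', hA', hAt⟩ := exists_subset_card_eq hAc.le
    obtain ⟨B', hB', hBt⟩ := exists_subset_card_eq hBc.le
    let α : Fin t → Finset (Fin m) := fun i => ((A'.equivFinOfCardEq hAt).symm i).1
    let β : Fin t → Finset (Fin m) := fun i => ((B'.equivFinOfCardEq hBt).symm i).1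
    have hα : ∀ i, α i ∈ A := fun i => hA' ((A'.equivFinOfCardEq hAt).symm i).2
    have hβ : ∀ i, β i ∈ B := fun i => hB' ((B'.equivFinOfCardEq hBt).symm i).2
    have h1 : uni (α, β) ∈ 𝓕 := by
      refine mem_filter.2 ⟨mem_union_left _ (mem_union_left _ (mem_image_of_mem _ (mem_univ _))), ?_⟩
      rw [card_uni W α β (fun i => hA _ (hα i)) (fun i => hB _ (hβ i))
        (fun i j h => (A'.equivFinOfCardEq hAt).symm.injective (Subtype.ext h))
        (fun i j h => (B'.equivFinOfCardEq hBt).symm.injective (Subtype.ext h)), hk]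
    obtain ⟨X, hX, h2⟩ := hy' ty _ h1
    obtain ⟨⟨i, j⟩, -, rfl⟩ := mem_image.1 hX
    exact ⟨_, hα i, _, hβ j, h2⟩
  · intro ty F ρ i hd hki
    have hi : i < m + 1 := by
      by_contra h1
      have h2 : F.card ≤ m := by
        have := card_le_univ F
        rwa [Fintype.card_fin] at this
      rw [Nat.choose_eq_zero_of_lt (by omega)] at hki
      omega
    have h0 : k ≤ (cube F ρ i).card := by rwa [card_cube F ρ i hd]
    obtain ⟨h1, h2⟩ := pick_spec (F, ρ, (⟨i, hi⟩ : Fin (m + 1))) h0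
    have h3 : pick k (F, ρ, (⟨i, hi⟩ : Fin (m + 1))) ∈ 𝓕 :=
      mem_filter.2 ⟨mem_union_left _ (mem_union_right _ (mem_image_of_mem _ (mem_univ _))), h2⟩
    obtain ⟨X, hX, h4⟩ := hy' ty _ h3
    obtain ⟨c, hc, rfl⟩ := mem_image.1 (h1 hX)
    exact ⟨c, hc, h4⟩
  · intro ty
    have h1 : ∀ j, ∃ X ∈ Bl j, hsh y X = ty := fun j =>
      hy' ty _ (mem_filter.2 ⟨mem_union_right _ (mem_image_of_mem _ (mem_univ _)), hB2 j⟩)
    choose X hX1 hX2 using h1
    rw [← hPc]
    calc (powersetCard h (univ : Finset (Fin m))).card / k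
        = (univ : Finset (Fin ((powersetCard h (univ : Finset (Fin m))).card / k))).card := by
          rw [card_univ, Fintype.card_fin]
      _ ≤ _ := by
          refine card_le_card_of_injOn X (fun j _ => ?_) fun j _ j' _ h => ?_
          · exact mem_filter.2 ⟨hB1 j (hX1 j), hX2 j⟩
          · by_contra hj
            have h2 := hX1 j'
            rw [← show X j = X j' from h] at h2
            exact disjoint_left.1 (hB3 j j' hj) (hX1 j) h2

/-! ## Numbers -/

private theorem two_pow_ge (m : ℕ) (hm : 2000000 ≤ m) : 64 * m ^ 2 * (m + 1) ≤ 2 ^ m := by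
  have h1 : (m / 4 + 1) ^ 4 ≤ 2 ^ m := by
    calc (m / 4 + 1) ^ 4 ≤ (2 ^ (m / 4)) ^ 4 := Nat.pow_le_pow_left Nat.lt_two_pow_self 4
      _ = 2 ^ (m / 4 * 4) := by rw [← pow_mul]
      _ ≤ 2 ^ m := Nat.pow_le_pow_right (by norm_num) (Nat.div_mul_le_self m 4)
  have h2 : m + 1 ≤ 4 * (m / 4 + 1) := by omega
  have h3 : (m + 1) ^ 4 ≤ 256 * (m / 4 + 1) ^ 4 := by
    calc (m + 1) ^ 4 ≤ (4 * (m / 4 + 1)) ^ 4 := Nat.pow_le_pow_left h2 4
      _ = 256 * (m / 4 + 1) ^ 4 := by ring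
  have h4 : 256 * (64 * m ^ 2 * (m + 1)) ≤ (m + 1) ^ 4 := by
    have h5 : 16384 * m ^ 2 ≤ (m + 1) ^ 3 := by
      calc 16384 * m ^ 2 ≤ (m + 1) * (m + 1) ^ 2 :=
            Nat.mul_le_mul (by omega) (Nat.pow_le_pow_left (by omega) 2)
        _ = (m + 1) ^ 3 := by ring
    calc 256 * (64 * m ^ 2 * (m + 1)) = 16384 * m ^ 2 * (m + 1) := by ring
      _ ≤ (m + 1) ^ 3 * (m + 1) := Nat.mul_le_mul_right _ h5
      _ = (m + 1) ^ 4 := by ring
  omega

private theorem two_pow_le_choose (m : ℕ) : 2 ^ m ≤ (m + 1) * m.choose (m / 2) := by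
  calc 2 ^ m = ∑ i ∈ range (m + 1), m.choose i := (Nat.sum_range_choose m).symm
    _ ≤ ∑ _i ∈ range (m + 1), m.choose (m / 2) :=
        sum_le_sum fun i _ => Nat.choose_le_middle i m
    _ = (m + 1) * m.choose (m / 2) := by rw [sum_const, card_range, smul_eq_mul]

private theorem num1 (m n : ℕ) (hm : 2000000 ≤ m) (hn : m ^ 7 ≤ n) :
    2 * m + (16 * (64 * m ^ 2) + 1) * (m + 1) ≤ Nat.sqrt n := by
  rw [Nat.le_sqrt]
  have h1 : 2 * m + (16 * (64 * m ^ 2) + 1) * (m + 1) ≤ 1025 * m ^ 3 := by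
    have h2 : 1100 * m ^ 2 ≤ m ^ 3 := by
      calc 1100 * m ^ 2 ≤ m * m ^ 2 := Nat.mul_le_mul_right _ (by omega)
        _ = m ^ 3 := by ring
    have h3 : 3 * m + 1 ≤ m ^ 2 := by nlinarith
    calc 2 * m + (16 * (64 * m ^ 2) + 1) * (m + 1) = 1024 * m ^ 3 + 1024 * m ^ 2 + (3 * m + 1) := by
          ring
      _ ≤ 1025 * m ^ 3 := by omega
  calc (2 * m + (16 * (64 * m ^ 2) + 1) * (m + 1)) * (2 * m + (16 * (64 * m ^ 2) + 1) * (m + 1))
      ≤ 1025 * m ^ 3 * (1025 * m ^ 3) := Nat.mul_le_mul h1 h1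
    _ = 1050625 * m ^ 6 := by ring
    _ ≤ m * m ^ 6 := Nat.mul_le_mul_right _ (by omega)
    _ = m ^ 7 := by ring
    _ ≤ n := hn

private theorem num2 (m n : ℕ) (hm : 2000000 ≤ m) (hn : m ^ 7 ≤ n) :
    3 * m + (16 * (64 * m ^ 2) + 1) * (m + 1) * (4 * (64 * m ^ 2) * 2) + Nat.sqrt n + 1 ≤ n := by
  have h1 : (16 * (64 * m ^ 2) + 1) * (m + 1) ≤ 1025 * m ^ 3 := by
    have h2 : 1100 * m ^ 2 ≤ m ^ 3 := by
      calc 1100 * m ^ 2 ≤ m * m ^ 2 := Nat.mul_le_mul_right _ (by omega)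
        _ = m ^ 3 := by ring
    have h3 : m + 1 ≤ m ^ 2 := by nlinarith
    calc (16 * (64 * m ^ 2) + 1) * (m + 1) = 1024 * m ^ 3 + 1024 * m ^ 2 + (m + 1) := by
          ring
      _ ≤ 1025 * m ^ 3 := by omega
  have h4 : (16 * (64 * m ^ 2) + 1) * (m + 1) * (4 * (64 * m ^ 2) * 2) ≤ 524800 * m ^ 5 := by
    calc (16 * (64 * m ^ 2) + 1) * (m + 1) * (4 * (64 * m ^ 2) * 2)
        ≤ 1025 * m ^ 3 * (4 * (64 * m ^ 2) * 2) := Nat.mul_le_mul_right _ h1
      _ = 524800 * m ^ 5 := by ring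
  have h5 : 2000000 * m ^ 5 ≤ m ^ 6 := by
    calc 2000000 * m ^ 5 ≤ m * m ^ 5 := Nat.mul_le_mul_right _ hm
      _ = m ^ 6 := by ring
  have h6 : 2000000 * m ^ 6 ≤ m ^ 7 := by
    calc 2000000 * m ^ 6 ≤ m * m ^ 6 := Nat.mul_le_mul_right _ hm
      _ = m ^ 7 := by ring
  have h7 : m ≤ m ^ 5 := Nat.le_self_pow (by norm_num) m
  have h8 : 4 * Nat.sqrt n ≤ n := by
    have h9 : 4 ≤ Nat.sqrt n := by
      have := num1 m n hm hn
      omega
    calc 4 * Nat.sqrt n ≤ Nat.sqrt n * Nat.sqrt n := Nat.mul_le_mul_right _ h9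
      _ ≤ n := Nat.sqrt_le n
  omega

private theorem num3 (m N s C : ℕ) (hm : 2000000 ≤ m) (hC : 2 ^ m ≤ (m + 1) * C)
    (hN : C / (64 * m ^ 2) ≤ N) (hs : 1 ≤ s) :
    0 < N ∧ (s + 1) * (6 * (m + 1) ^ 3 * (8 * m) ^ 4) * 2 ^ m ≤ N * (s * m ^ 12) := by
  have hm2 : 0 < 64 * m ^ 2 := by positivity
  have h1 : 64 * m ^ 2 ≤ C := by
    have h2 := (two_pow_ge m hm).trans hC
    rw [mul_comm (m + 1) C] at h2
    exact Nat.le_of_mul_le_mul_right h2 (Nat.succ_pos m)
  have hN0 : 0 < N := lt_of_lt_of_le (Nat.div_pos h1 hm2) hN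
  refine ⟨hN0, ?_⟩
  have h2 : C ≤ 2 * N * (64 * m ^ 2) := by
    have h3 : C < (N + 1) * (64 * m ^ 2) := by
      rw [← Nat.div_lt_iff_lt_mul hm2]
      omega
    nlinarith
  have h3 : 100663296 * m ^ 10 ≤ m ^ 12 := by
    calc 100663296 * m ^ 10 ≤ m ^ 2 * m ^ 10 := Nat.mul_le_mul_right _ (by nlinarith)
      _ = m ^ 12 := by ring
  have h4 : (m + 1) ^ 4 ≤ 16 * m ^ 4 := by
    calc (m + 1) ^ 4 ≤ (2 * m) ^ 4 := Nat.pow_le_pow_left (by omega) 4
      _ = 16 * m ^ 4 := by ring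
  calc (s + 1) * (6 * (m + 1) ^ 3 * (8 * m) ^ 4) * 2 ^ m
      ≤ 2 * s * (6 * (m + 1) ^ 3 * (8 * m) ^ 4) * ((m + 1) * (2 * N * (64 * m ^ 2))) := by
        gcongr
        · omega
        · exact hC.trans (Nat.mul_le_mul_left _ h2)
    _ = N * (s * (6291456 * m ^ 6 * (m + 1) ^ 4)) := by ring
    _ ≤ N * (s * (6291456 * m ^ 6 * (16 * m ^ 4))) := by gcongr
    _ = N * (s * (100663296 * m ^ 10)) := by ring
    _ ≤ N * (s * m ^ 12) := by gcongr

open Classical in
/-- the graphs and the bound for any circuit whose inputs are determined by the graph -/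
private theorem core (m n : ℕ) (hm : 2000000 ≤ m) (hn : m ^ 7 ≤ n) (u z : Fin m → Fin n)
    (hu : Function.Injective u) (hz : ∀ i j, z i ≠ u j) (e : Fin m → EdgeVar n)
    (he : ∀ i, (e i).1 = (z i, u i) ∨ (e i).1 = (u i, z i)) (ty : Bool) :
    ∃ (G : Finset (Finset (Fin m))) (H : Finset (Fin m) → EdgeVar n → Bool), 0 < G.card ∧
      Function.Injective e ∧ (∀ X ∈ G, Clq (H X) ↔ ty = true) ∧
      (∀ X X' f, H X f ≠ H X' f → ∃ i, f = e i ∧ ¬ (i ∈ X ↔ i ∈ X')) ∧
      ∀ (V : Type) [BEq V] [LawfulBEq V] (s : ℕ) (D : Circuit V s) (e' : Fin m → V),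
        Function.Injective e' → (∀ i L, Tree D D.out L → L.count (e' i) ≤ 1) →
        ∀ pt : Finset (Fin m) → V → Bool,
          (∀ X X' v, pt X v ≠ pt X' v → ∃ i, v = e' i ∧ ¬ (i ∈ X ↔ i ∈ X')) →
          ∀ C : (V → Bool) → Prop, (∀ x, ¬ D.Accepts x → C x) →
            (∀ X, C (pt X) → (Clq (H X) ↔ ty = true)) →
            (G.filter fun X => ¬ D.Accepts (pt X)).card * 2 ^ m ≤ G.card * (s * m ^ 12) := by
  have hm1 : 1 ≤ m := by omega
  obtain ⟨k, hk⟩ : ∃ k, k = 64 * m ^ 2 := ⟨_, rfl⟩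
  obtain ⟨h, hh⟩ : ∃ h, h = m / 2 := ⟨_, rfl⟩
  have hkt : k = (8 * m) ^ 2 := by
    rw [hk]
    ring
  obtain ⟨y, hy1, hy2, hy3⟩ := good m h (8 * m) k hm1 rfl hkt
  have hk1 : m + 1 < 4 * k := by
    rw [hk]
    nlinarith
  have : NeZero (4 * k) := ⟨by omega⟩
  obtain ⟨C, D, hD, hCD⟩ := chain m (4 * k) (16 * k) h hm1 (by omega) hk1 y
  have hν : Fintype.card (Fin (16 * k + 1) × Fin (m + 1)) =
      (16 * (64 * m ^ 2) + 1) * (m + 1) := by
    rw [Fintype.card_prod, Fintype.card_fin, Fintype.card_fin, hk]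
  have hΛ : Fintype.card (ZMod (4 * k) × Bool) = 4 * (64 * m ^ 2) * 2 := by
    rw [Fintype.card_prod, ZMod.card, Fintype.card_bool, hk]
  obtain ⟨H, hH1, hH2⟩ := placeM (ν := Fin (16 * k + 1) × Fin (m + 1))
    (Λ := ZMod (4 * k) × Bool) u z hu hz e he (by
      rw [hν]
      have := num1 m n hm hn
      omega) (by
      rw [hν, hΛ]
      exact num2 m n hm hn) C D hD
  have hval : ∀ X : Finset (Fin m), X.card = h → (Clq (H X) ↔ hsh y X = true) := by
    intro X hX
    rw [hH1]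
    constructor
    · rintro ⟨R, hR, h1⟩
      rcases (hCD R).1 h1 with ⟨h2, h3⟩ | h2
      · have h4 : R = X := eq_of_subset_of_card_le hR (by omega)
        rw [← h4]
        exact h3
      · have h4 := card_le_card hR
        omega
    · intro h1
      exact ⟨X, subset_rfl, (hCD X).2 (Or.inl ⟨hX, h1⟩)⟩
  have hei : Function.Injective e := by
    intro i j hij
    apply hu
    have h1 := he i
    have h2 := he j
    rw [hij] at h1
    rcases h1 with h1 | h1 <;> rcases h2 with h2 | h2 <;> rw [h1] at h2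
    · exact (Prod.ext_iff.1 h2).2
    · exact absurd (Prod.ext_iff.1 h2).1 (hz i j)
    · exact absurd (Prod.ext_iff.1 h2).1.symm (hz j i)
    · exact (Prod.ext_iff.1 h2).1
  obtain ⟨G, hG⟩ : ∃ G, G = (powersetCard h (univ : Finset (Fin m))).filter
      fun X => hsh y X = ty := ⟨_, rfl⟩
  have hGk : m.choose h / (64 * m ^ 2) ≤ G.card := by
    rw [← hk, hG]
    exact hy3 ty
  have hGm : ∀ X ∈ G, X ∈ powersetCard h (univ : Finset (Fin m)) ∧ hsh y X = ty := by
    intro X hX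
    rw [hG] at hX
    exact mem_filter.1 hX
  have hC : 2 ^ m ≤ (m + 1) * m.choose h := by
    rw [hh]
    exact two_pow_le_choose m
  refine ⟨G, H, (num3 m G.card 1 _ hm hC hGk le_rfl).1, hei, fun X hX => ?_, hH2,
    fun V _ _ s D' e' he' hcnt pt hpt C' hD' hC' => ?_⟩
  · obtain ⟨h2, h3⟩ := hGm X hX
    rw [hval _ (mem_powersetCard.1 h2).2, h3]
  · have hs1 : 1 ≤ s := by
      have := D'.out.2
      omega
    have hC1 : ∀ X : Finset (Fin m), X.card = h → hsh y X = (!ty) → ¬ C' (pt X) := by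
      intro X hX h1 h3
      have h2 := hC' X h3
      rw [hval X hX, h1] at h2
      cases ty <;> simp at h2
    have hw := walk D' e' he' hcnt pt hpt C' hD' h (8 * m) (by omega)
      (by
        intro W A B hA hB hAB hAc hBc
        obtain ⟨a, ha, b, hb, h1⟩ := hy1 (!ty) W A B hA hB hAc hBc
        refine ⟨a, ha, b, hb, hC1 _ ?_ h1⟩
        rw [card_union_of_disjoint (disjoint_of_subset_right (hB b hb) (hA a ha))]
        exact hAB a ha b hb)
      (by
        intro F ρ i hd hi hc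
        rw [← hkt] at hc
        obtain ⟨c, hc, h1⟩ := hy2 (!ty) F ρ i hd hc.le
        obtain ⟨h2, h3⟩ := mem_powersetCard.1 hc
        refine ⟨c, hc, hC1 _ ?_ h1⟩
        rw [card_union_of_disjoint (disjoint_of_subset_right h2 hd.symm), h3]
        exact hi)
    have h1 : (G.filter fun X => ¬ D'.Accepts (pt X)).card ≤
        ((powersetCard h univ).filter fun X => ¬ D'.Accepts (pt X)).card :=
      card_le_card fun X hX => mem_filter.2
        ⟨(hGm X (mem_filter.1 hX).1).1, (mem_filter.1 hX).2⟩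
    exact (Nat.mul_le_mul_right _ (h1.trans hw)).trans (num3 m G.card s _ hm hC hGk hs1).2

open Classical in
/-- the elements of a finite set and their indices -/
private theorem card_idx {α : Type} (G : Finset α) (p : α → Prop) :
    (univ.filter fun i : Fin G.card => p (G.equivFin.symm i).1).card = (G.filter p).card := by
  refine card_bij (fun i _ => (G.equivFin.symm i).1) (fun i hi => ?_) (fun i _ j _ hij => ?_)
    fun X hX => ?_
  · exact mem_filter.2 ⟨(G.equivFin.symm i).2, (mem_filter.1 hi).2⟩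
  · exact G.equivFin.symm.injective (Subtype.ext hij)
  · obtain ⟨h1, h2⟩ := mem_filter.1 hX
    refine ⟨G.equivFin ⟨X, h1⟩, mem_filter.2 ⟨mem_univ _, ?_⟩, ?_⟩
    · rw [Equiv.symm_apply_apply]
      exact h2
    · rw [Equiv.symm_apply_apply]

private theorem real_form {m s N M : ℕ} (h : M * 2 ^ m ≤ N * (s * m ^ 12)) :
    (M : ℝ) ≤ N * (s * m ^ 12 / 2 ^ m) := by
  rw [← mul_div_assoc, le_div_iff₀ (by positivity)]
  exact_mod_cast h

open Classical in
theorem exact1 : ∃ m₀ : ℕ, ∀ m ≥ m₀, ∀ n ≥ m ^ 7, ∀ (u z : Fin m → Fin n),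
    Function.Injective u → (∀ i j, z i ≠ u j) → ∀ e : Fin m → EdgeVar n,
    (∀ i, (e i).1 = (z i, u i) ∨ (e i).1 = (u i, z i)) → ∀ ty : Bool,
      ∃ (N : ℕ) (Q : Fin N → EdgeVar n → Bool), 0 < N ∧ (∀ i, Clq (Q i) ↔ ty = true) ∧
        ∀ (s : ℕ) (D : Circuit (EdgeVar n) s), (∀ x, ¬ D.Accepts x → (Clq x ↔ ty = true)) →
          (∀ i L, Tree D D.out L → L.count (e i) ≤ 1) →
          ((univ.filter fun i => ¬ D.Accepts (Q i)).card : ℝ) ≤
            N * (s * m ^ 12 / 2 ^ m) := by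
  refine ⟨2000000, fun m hm n hn u z hu hz e he ty => ?_⟩
  obtain ⟨G, H, hG, hei, hG1, hH, hmain⟩ := core m n hm hn u z hu hz e he ty
  refine ⟨G.card, fun i => H (G.equivFin.symm i).1, hG, fun i => hG1 _ (G.equivFin.symm i).2,
    fun s D hD hcnt => ?_⟩
  refine le_trans (le_of_eq ?_) (real_form (hmain (EdgeVar n) s D e hei hcnt H hH
    (fun x => Clq x ↔ ty = true) hD fun X h => h))
  rw [Nat.cast_inj]
  convert card_idx G fun X => ¬ D.Accepts (H X)

private theorem count_inl {n t : ℕ} (e : EdgeVar n) (L : List (EdgeVar n ⊕ Fin t)) :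
    @List.count (EdgeVar n ⊕ Fin t) instBEqOfDecidableEq (Sum.inl e) L =
      L.count (Sum.inl e) := by
  unfold List.count
  refine List.countP_congr fun v _ => ?_
  rcases v with v | v
  · show (decide (Sum.inl v = (Sum.inl e : EdgeVar n ⊕ Fin t)) = true) ↔ ((v == e) = true)
    simp [Subtype.ext_iff]
  · show (decide (Sum.inr v = (Sum.inl e : EdgeVar n ⊕ Fin t)) = true) ↔ (false = true)
    simp

open Classical in
/-- the same for circuits which may use any functions of the other variables -/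
theorem exactU : ∃ m₀ : ℕ, ∀ m ≥ m₀, ∀ n ≥ m ^ 7, ∀ (u z : Fin m → Fin n),
    Function.Injective u → (∀ i j, z i ≠ u j) → ∀ e : Fin m → EdgeVar n,
    (∀ i, (e i).1 = (z i, u i) ∨ (e i).1 = (u i, z i)) → ∀ ty : Bool,
      ∃ (N : ℕ) (Q : Fin N → EdgeVar n → Bool), 0 < N ∧ (∀ i, Clq (Q i) ↔ ty = true) ∧
        ∀ (t : ℕ) (g : Fin t → (EdgeVar n → Bool) → Bool),
          (∀ w x y, (∀ f, (∀ i, f ≠ e i) → x f = y f) → g w x = g w y) →
          ∀ (s : ℕ) (D : Circuit (EdgeVar n ⊕ Fin t) s),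
            (∀ x, ¬ D.Accepts (Sum.elim x fun w => g w x) → (Clq x ↔ ty = true)) →
            (∀ i L, Tree D D.out L → L.count (Sum.inl (e i)) ≤ 1) →
            ((univ.filter fun i => ¬ D.Accepts (Sum.elim (Q i) fun w => g w (Q i))).card : ℝ) ≤
              N * (s * m ^ 12 / 2 ^ m) := by
  refine ⟨2000000, fun m hm n hn u z hu hz e he ty => ?_⟩
  obtain ⟨G, H, hG, hei, hG1, hH, hmain⟩ := core m n hm hn u z hu hz e he ty
  refine ⟨G.card, fun i => H (G.equivFin.symm i).1, hG, fun i => hG1 _ (G.equivFin.symm i).2,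
    fun t g hg s D hD hcnt => ?_⟩
  refine le_trans (le_of_eq (?_ : _ = _)) (real_form (@hmain (EdgeVar n ⊕ Fin t) instBEqOfDecidableEq inferInstance s D
    (fun i => Sum.inl (e i)) (fun i j h => hei (Sum.inl_injective h)) (fun i L hL => ?_)
    (fun X => Sum.elim (H X) fun w => g w (H X)) (fun X X' v hv => ?_)
    (fun x => (∀ w, x (Sum.inr w) = g w (x ∘ Sum.inl)) → (Clq (x ∘ Sum.inl) ↔ ty = true))
    (fun x hx hx2 => hD (x ∘ Sum.inl) ?_) fun X hX => hX fun w => rfl))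
  · rw [Nat.cast_inj]
    convert card_idx G fun X => ¬ D.Accepts (Sum.elim (H X) fun w => g w (H X))
  · rw [count_inl]
    exact hcnt i L hL
  · rcases v with f | w
    · obtain ⟨i, h1, h2⟩ := hH X X' f hv
      exact ⟨i, by rw [h1], h2⟩
    · exfalso
      refine hv (hg w _ _ fun f hf => ?_)
      by_contra h1
      obtain ⟨i, h2, -⟩ := hH X X' f h1
      exact hf i h2
  · have h1 : (Sum.elim (x ∘ Sum.inl) fun w => g w (x ∘ Sum.inl)) = x := by
      funext v
      rcases v with f | w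
      · rfl
      · exact (hx2 w).symm
    rw [h1]
    exact hx

end Pool.Agent.EX
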