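import Mathlib
import Pool.Agent.Lib.MP_0a1b52_lc_RT.Dual

/-!
# Reading `m` variables once with free functions of the other variables

The value at `x` is the conjunction over the assignments `a` of the variables in `E` of
(`x_v ≠ a_v` for some `v` in `E`, or the value at the assignment which is `a` on `E` and `x`
elsewhere is `1`); the latter is a function of the variables outside `E`, and such functions are
free.
-/

set_option autoImplicit false

namespace Pool.Agent.EX

open Finset Pool.Agent.FP Pool.Agent.RT

variable {V U : Type} {s t : ℕ}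

/-! ## Values -/

private def ev (D : Circuit V s) (x : V → Bool) (g : Fin s) : Bool :=
  match _h : D.gate g with
  | .lit v b => x v == b
  | .and i j => ev D x i && ev D x j
  | .or i j => ev D x i || ev D x j
termination_by g
decreasing_by
  · exact (D.and_lt g i j _h).1
  · exact (D.and_lt g i j _h).2
  · exact (D.or_lt g i j _h).1
  · exact (D.or_lt g i j _h).2

private theorem ev_isEval (D : Circuit V s) (x : V → Bool) : D.IsEval x (ev D x) := by
  intro g
  rw [ev]
  split
  · rename_i v b h
    rw [h]
  · rename_i i j h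
    rw [h]
  · rename_i i j h
    rw [h]

private theorem ev_unique {D : Circuit V s} {x : V → Bool} {val val' : Fin s → Bool}
    (h : D.IsEval x val) (h' : D.IsEval x val') : val = val' := by
  funext g
  induction g using WellFoundedLT.induction with
  | ind g ih =>
    rw [h g, h' g]
    rcases hg : D.gate g with ⟨v, b⟩ | ⟨i, j⟩ | ⟨i, j⟩
    · rfl
    · have h1 := D.and_lt g i j hg
      simp only [ih i h1.1, ih j h1.2]
    · have h1 := D.or_lt g i j hg
      simp only [ih i h1.1, ih j h1.2]

private theorem accepts_iff {D : Circuit V s} {x : V → Bool} {val : Fin s → Bool}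
    (h : D.IsEval x val) : D.Accepts x ↔ val D.out = true := by
  constructor
  · rintro ⟨val', h1, h2⟩
    rw [ev_unique h h1]
    exact h2
  · intro h1
    exact ⟨val, h, h1⟩

/-! ## Subcircuits -/

private def mapGate (f : Fin s → Fin t) : Gate V s → Gate V t
  | .lit v b => .lit v b
  | .and i j => .and (f i) (f j)
  | .or i j => .or (f i) (f j)

private theorem sub_tree {C : Circuit V t} {D : Circuit V s} {f : Fin s → Fin t}
    (hf : ∀ g, C.gate (f g) = mapGate f (D.gate g)) {g' : Fin t} {L : List V}
    (h : Tree C g' L) : ∀ g, g' = f g → Tree D g L := by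
  induction h with
  | lit g' v b hg' =>
    rintro g rfl
    rw [hf] at hg'
    rcases hg : D.gate g with ⟨w, c⟩ | ⟨i, j⟩ | ⟨i, j⟩ <;> rw [hg] at hg' <;>
      simp only [mapGate, reduceCtorEq, Gate.lit.injEq] at hg'
    obtain ⟨rfl, rfl⟩ := hg'
    exact .lit g _ _ hg
  | left g' i' j' L hg' _ ih =>
    rintro g rfl
    rw [hf] at hg'
    rcases hg : D.gate g with ⟨w, c⟩ | ⟨i, j⟩ | ⟨i, j⟩ <;> rw [hg] at hg' <;>
      simp only [mapGate, reduceCtorEq, Gate.and.injEq] at hg'
    exact .left g i j L hg (ih i hg'.1.symm)
  | right g' i' j' L hg' _ ih =>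
    rintro g rfl
    rw [hf] at hg'
    rcases hg : D.gate g with ⟨w, c⟩ | ⟨i, j⟩ | ⟨i, j⟩ <;> rw [hg] at hg' <;>
      simp only [mapGate, reduceCtorEq, Gate.and.injEq] at hg'
    exact .right g i j L hg (ih j hg'.2.symm)
  | both g' i' j' L L' hg' _ _ ih ih' =>
    rintro g rfl
    rw [hf] at hg'
    rcases hg : D.gate g with ⟨w, c⟩ | ⟨i, j⟩ | ⟨i, j⟩ <;> rw [hg] at hg' <;>
      simp only [mapGate, reduceCtorEq, Gate.or.injEq] at hg'
    exact .both g i j L L' hg (ih i hg'.1.symm) (ih' j hg'.2.symm)

private theorem sub_eval {C : Circuit V t} {D : Circuit V s} {f : Fin s → Fin t}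
    (hf : ∀ g, C.gate (f g) = mapGate f (D.gate g)) {x : V → Bool} {val : Fin t → Bool}
    (h : C.IsEval x val) : D.IsEval x fun g => val (f g) := by
  intro g
  have h1 := h (f g)
  rw [hf] at h1
  dsimp only
  rw [h1]
  rcases D.gate g with ⟨w, c⟩ | ⟨i, j⟩ | ⟨i, j⟩ <;> rfl

/-! ## Two circuits and a further gate -/

private def lft (s t : ℕ) (i : Fin s) : Fin (s + t + 1) := Fin.castSucc (Fin.castAdd t i)

private def rgt (s t : ℕ) (i : Fin t) : Fin (s + t + 1) := Fin.castSucc (Fin.natAdd s i)

private def join (D : Circuit V s) (E : Circuit V t) (isAnd : Bool) : Circuit V (s + t + 1) where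
  gate := Fin.lastCases
    (if isAnd then .and (lft s t D.out) (rgt s t E.out) else .or (lft s t D.out) (rgt s t E.out))
    (fun g => Fin.addCases (fun g => mapGate (lft s t) (D.gate g))
      (fun g => mapGate (rgt s t) (E.gate g)) g)
  and_lt := by
    intro g i j
    refine Fin.lastCases ?_ (fun g => ?_) g
    · rw [Fin.lastCases_last]
      split_ifs
      · intro h
        obtain ⟨rfl, rfl⟩ := Gate.and.inj h
        exact ⟨Fin.castSucc_lt_last _, Fin.castSucc_lt_last _⟩
      · intro h
        exact absurd h (by simp)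
    · rw [Fin.lastCases_castSucc]
      refine Fin.addCases (fun g => ?_) (fun g => ?_) g
      · rw [Fin.addCases_left]
        rcases hg : D.gate g with ⟨v, b⟩ | ⟨a, b⟩ | ⟨a, b⟩ <;> intro h <;>
          simp only [mapGate, reduceCtorEq, Gate.and.injEq] at h
        obtain ⟨rfl, rfl⟩ := h
        have h1 := D.and_lt g a b hg
        simp only [lft, Fin.lt_def, Fin.val_castSucc, Fin.val_castAdd] at h1 ⊢
        exact h1
      · rw [Fin.addCases_right]
        rcases hg : E.gate g with ⟨v, b⟩ | ⟨a, b⟩ | ⟨a, b⟩ <;> intro h <;>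
          simp only [mapGate, reduceCtorEq, Gate.and.injEq] at h
        obtain ⟨rfl, rfl⟩ := h
        have h1 := E.and_lt g a b hg
        simp only [rgt, Fin.lt_def, Fin.val_castSucc, Fin.val_natAdd] at h1 ⊢
        omega
  or_lt := by
    intro g i j
    refine Fin.lastCases ?_ (fun g => ?_) g
    · rw [Fin.lastCases_last]
      split_ifs
      · intro h
        exact absurd h (by simp)
      · intro h
        obtain ⟨rfl, rfl⟩ := Gate.or.inj h
        exact ⟨Fin.castSucc_lt_last _, Fin.castSucc_lt_last _⟩
    · rw [Fin.lastCases_castSucc]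
      refine Fin.addCases (fun g => ?_) (fun g => ?_) g
      · rw [Fin.addCases_left]
        rcases hg : D.gate g with ⟨v, b⟩ | ⟨a, b⟩ | ⟨a, b⟩ <;> intro h <;>
          simp only [mapGate, reduceCtorEq, Gate.or.injEq] at h
        obtain ⟨rfl, rfl⟩ := h
        have h1 := D.or_lt g a b hg
        simp only [lft, Fin.lt_def, Fin.val_castSucc, Fin.val_castAdd] at h1 ⊢
        exact h1
      · rw [Fin.addCases_right]
        rcases hg : E.gate g with ⟨v, b⟩ | ⟨a, b⟩ | ⟨a, b⟩ <;> intro h <;>
          simp only [mapGate, reduceCtorEq, Gate.or.injEq] at h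
        obtain ⟨rfl, rfl⟩ := h
        have h1 := E.or_lt g a b hg
        simp only [rgt, Fin.lt_def, Fin.val_castSucc, Fin.val_natAdd] at h1 ⊢
        omega
  out := Fin.last _

private theorem join_lft (D : Circuit V s) (E : Circuit V t) (isAnd : Bool) (g : Fin s) :
    (join D E isAnd).gate (lft s t g) = mapGate (lft s t) (D.gate g) := by
  unfold join
  dsimp only
  rw [show lft s t g = Fin.castSucc (Fin.castAdd t g) from rfl, Fin.lastCases_castSucc,
    Fin.addCases_left]

private theorem join_rgt (D : Circuit V s) (E : Circuit V t) (isAnd : Bool) (g : Fin t) :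
    (join D E isAnd).gate (rgt s t g) = mapGate (rgt s t) (E.gate g) := by
  unfold join
  dsimp only
  rw [show rgt s t g = Fin.castSucc (Fin.natAdd s g) from rfl, Fin.lastCases_castSucc,
    Fin.addCases_right]

private theorem join_last (D : Circuit V s) (E : Circuit V t) (isAnd : Bool) :
    (join D E isAnd).gate (join D E isAnd).out = if isAnd then .and (lft s t D.out) (rgt s t E.out)
      else .or (lft s t D.out) (rgt s t E.out) := by
  unfold join
  dsimp only
  rw [Fin.lastCases_last]

/-! ## Circuits which read the variables of a set few times -/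

section

variable [BEq V]

/-- Some circuit with at most `b` gates computes `F` (on the inputs `ι x`) and reads each variable
`e` of `E` at most `r e` times in each formal refutation tree. -/
private def CR (ι : U → V → Bool) (E : Finset V) (r : V → ℕ) (b : ℕ) (F : U → Prop) : Prop :=
  ∃ s ≤ b, ∃ D : Circuit V s, (∀ x, D.Accepts (ι x) ↔ F x) ∧
    ∀ e ∈ E, ∀ L, Tree D D.out L → L.count e ≤ r e

private theorem CR.mono {ι : U → V → Bool} {E : Finset V} {r r' : V → ℕ} {b b' : ℕ}
    {F F' : U → Prop} (h : CR ι E r b F) (hr : ∀ e, r e ≤ r' e) (hb : b ≤ b') (hF : ∀ x, F x ↔ F' x) :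
    CR ι E r' b' F' := by
  obtain ⟨s, hs, D, hD, hT⟩ := h
  exact ⟨s, hs.trans hb, D, fun x => (hD x).trans (hF x),
    fun e he L hL => (hT e he L hL).trans (hr e)⟩

private theorem CR.mono' {ι : U → V → Bool} {E : Finset V} {r r' : V → ℕ} {b b' : ℕ}
    {F F' : U → Prop} (h : CR ι E r b F) (hr : ∀ e ∈ E, r e ≤ r' e) (hb : b ≤ b')
    (hF : ∀ x, F x ↔ F' x) : CR ι E r' b' F' := by
  obtain ⟨s, hs, D, hD, hT⟩ := h
  exact ⟨s, hs.trans hb, D, fun x => (hD x).trans (hF x),
    fun e he L hL => (hT e he L hL).trans (hr e he)⟩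

private theorem CR.or {ι : U → V → Bool} {E : Finset V} {r r' : V → ℕ} {b b' : ℕ}
    {F F' : U → Prop} (h : CR ι E r b F) (h' : CR ι E r' b' F') :
    CR ι E (fun e => r e + r' e) (b + b' + 1) fun x => F x ∨ F' x := by
  obtain ⟨s, hs, D, hD, hT⟩ := h
  obtain ⟨t, ht, D', hD', hT'⟩ := h'
  refine ⟨s + t + 1, by omega, join D D' false, fun x => ?_, fun e he L hL => ?_⟩
  · have h1 := ev_isEval (join D D' false) (ι x)
    have h2 := h1 (join D D' false).out
    rw [join_last] at h2
    show _ ↔ F x ∨ F' x
    rw [accepts_iff h1, h2, ← hD x, ← hD' x, accepts_iff (sub_eval (join_lft D D' false) h1),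
      accepts_iff (sub_eval (join_rgt D D' false) h1)]
    simp
  · have h1 := join_last D D' false
    cases hL with
    | lit _ v b h =>
      rw [h1] at h
      exact absurd h (by simp)
    | left _ i j _ h _ =>
      rw [h1] at h
      exact absurd h (by simp)
    | right _ i j _ h _ =>
      rw [h1] at h
      exact absurd h (by simp)
    | both _ i j L L' h hL hL' =>
      rw [h1] at h
      simp only [Bool.false_eq_true, if_false, Gate.or.injEq] at h
      obtain ⟨rfl, rfl⟩ := h
      rw [List.count_append]
      exact Nat.add_le_add (hT e he _ (sub_tree (join_lft D D' false) hL _ rfl))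
        (hT' e he _ (sub_tree (join_rgt D D' false) hL' _ rfl))

private theorem CR.and {ι : U → V → Bool} {E : Finset V} {r : V → ℕ} {b b' : ℕ}
    {F F' : U → Prop} (h : CR ι E r b F) (h' : CR ι E r b' F') : CR ι E r (b + b' + 1) fun x => F x ∧ F' x := by
  obtain ⟨s, hs, D, hD, hT⟩ := h
  obtain ⟨t, ht, D', hD', hT'⟩ := h'
  refine ⟨s + t + 1, by omega, join D D' true, fun x => ?_, fun e he L hL => ?_⟩
  · have h1 := ev_isEval (join D D' true) (ι x)
    have h2 := h1 (join D D' true).out
    rw [join_last] at h2
    show _ ↔ F x ∧ F' x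
    rw [accepts_iff h1, h2, ← hD x, ← hD' x, accepts_iff (sub_eval (join_lft D D' true) h1),
      accepts_iff (sub_eval (join_rgt D D' true) h1)]
    simp
  · have h1 := join_last D D' true
    cases hL with
    | lit _ v b h =>
      rw [h1] at h
      exact absurd h (by simp)
    | left _ i j _ h hL =>
      rw [h1] at h
      simp only [if_true, Gate.and.injEq] at h
      obtain ⟨rfl, rfl⟩ := h
      exact hT e he _ (sub_tree (join_lft D D' true) hL _ rfl)
    | right _ i j _ h hL =>
      rw [h1] at h
      simp only [if_true, Gate.and.injEq] at h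
      obtain ⟨rfl, rfl⟩ := h
      exact hT' e he _ (sub_tree (join_rgt D D' true) hL _ rfl)
    | both _ i j L L' h hL hL' =>
      rw [h1] at h
      exact absurd h (by simp)

private theorem CR.lit (ι : U → V → Bool) (E : Finset V) (v : V) (b : Bool) :
    CR ι E (fun e => [v].count e) 1 fun x => ι x v = b := by
  refine ⟨1, le_rfl, ⟨fun _ => .lit v b, fun g i j h => absurd h (by simp),
    fun g i j h => absurd h (by simp), 0⟩, fun x => ?_, fun e _ L hL => ?_⟩
  · have h1 := ev_isEval (⟨fun _ => .lit v b, fun g i j h => absurd h (by simp),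
      fun g i j h => absurd h (by simp), 0⟩ : Circuit V 1) (ι x)
    rw [accepts_iff h1, h1]
    simp
  · cases hL with
    | lit _ w c h =>
      obtain ⟨rfl, -⟩ := Gate.lit.inj h
      exact le_rfl
    | left _ i j _ h hL => exact absurd h (by simp)
    | right _ i j _ h hL => exact absurd h (by simp)
    | both _ i j L L' h hL hL' => exact absurd h (by simp)

end

private theorem lawfulSum (α β : Type) [BEq α] [LawfulBEq α] [BEq β] [LawfulBEq β] :
    LawfulBEq (α ⊕ β) where
  eq_of_beq := by
    rintro (a | b) (a' | b') h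
    · exact congrArg Sum.inl (eq_of_beq h)
    · exact absurd h Bool.false_ne_true
    · exact absurd h Bool.false_ne_true
    · exact congrArg Sum.inr (eq_of_beq h)
  rfl := by
    rintro (a | b)
    · exact (beq_self_eq_true a : (a == a) = true)
    · exact (beq_self_eq_true b : (b == b) = true)

open Classical in
/-- **Reading the variables of `E` once, with free functions of the other variables.** -/
theorem freeUp [BEq V] [LawfulBEq V] (E : Finset V) (f : (V → Bool) → Prop) :
    ∃ (g : Fin (2 ^ E.card) → (V → Bool) → Bool) (s : ℕ)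
      (D : Circuit (V ⊕ Fin (2 ^ E.card)) s),
      (∀ w x y, (∀ e, e ∉ E → x e = y e) → g w x = g w y) ∧ s ≤ 6 * 2 ^ E.card ∧
      (∀ x, D.Accepts (Sum.elim x fun w => g w x) ↔ f x) ∧
      ∀ e ∈ E, ∀ L, Tree D D.out L → L.count (Sum.inl e) ≤ 1 := by
  have := lawfulSum V (Fin (2 ^ E.card))
  obtain ⟨φ⟩ : Nonempty ((E → Bool) ≃ Fin (2 ^ E.card)) := by
    refine ⟨Fintype.equivFinOfCardEq ?_⟩
    rw [Fintype.card_fun, Fintype.card_bool, Fintype.card_coe]
  let g : Fin (2 ^ E.card) → (V → Bool) → Bool := fun w x =>
    decide (f fun e => if h : e ∈ E then φ.symm w ⟨e, h⟩ else x e)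
  let ι : (V → Bool) → V ⊕ Fin (2 ^ E.card) → Bool := fun x => Sum.elim x fun w => g w x
  have key : ∀ A : Finset V, A ⊆ E → ∀ ρ : V → Bool,
      CR ι (E.map ⟨Sum.inl, Sum.inl_injective⟩)
        (fun e => if e ∈ A.map ⟨Sum.inl, Sum.inl_injective⟩ then 1 else 0)
        (6 * 2 ^ A.card - 5) fun x =>
        f fun e => if e ∈ A then x e else if e ∈ E then ρ e else x e := by
    intro A
    induction A using Finset.induction_on with
    | empty =>
      intro _ ρ
      refine (CR.lit ι _ (Sum.inr (φ fun e => ρ e)) true).mono' ?_ ?_ ?_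
      · intro e he
        obtain ⟨e, -, rfl⟩ := mem_map.1 he
        have h2 : [(Sum.inr (φ fun e => ρ e) : V ⊕ Fin (2 ^ E.card))].count (Sum.inl e) = 0 := by
          rw [List.count_eq_zero]
          intro h3
          exact absurd (List.mem_singleton.1 h3) (by simp)
        exact h2.le.trans (Nat.zero_le _)
      · simp
      · intro x
        simp only [ι, Sum.elim_inr, g, decide_eq_true_eq, Equiv.symm_apply_apply, notMem_empty,
          if_false]
        refine iff_of_eq (congrArg f ?_)
        funext e
        by_cases h : e ∈ E <;> simp [h]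
    | insert v A hv ih =>
      intro hA ρ
      have hvE : v ∈ E := hA (mem_insert_self v A)
      have hAE : A ⊆ E := fun e he => hA (mem_insert_of_mem he)
      have h1 : ∀ b : Bool, CR ι (E.map ⟨Sum.inl, Sum.inl_injective⟩)
          (fun e => if e ∈ (insert v A).map ⟨Sum.inl, Sum.inl_injective⟩ then 1 else 0)
          (1 + (6 * 2 ^ A.card - 5) + 1) fun x => x v = !b ∨
            f fun e => if e ∈ A then x e else if e ∈ E then Function.update ρ v b e
              else x e := by
        intro b
        refine ((CR.lit ι _ (Sum.inl v) (!b)).or (ih hAE (Function.update ρ v b))).mono' ?_ le_rfl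
          fun x => Iff.rfl
        intro e he
        obtain ⟨e, -, rfl⟩ := mem_map.1 he
        by_cases h : v = e
        · subst h
          simp [hv]
        · have h2 : [(Sum.inl v : V ⊕ Fin (2 ^ E.card))].count (Sum.inl e) = 0 := by
            rw [List.count_eq_zero]
            intro h3
            exact h (Sum.inl.inj (List.mem_singleton.1 h3)).symm
          simp only [Function.Embedding.coeFn_mk]
          rw [h2, zero_add]
          by_cases h3 : e ∈ A
          · simp [h3]
          · simp [h3]
      refine ((h1 true).and (h1 false)).mono (fun e => le_rfl) ?_ fun x => ?_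
      · rw [card_insert_of_notMem hv, pow_succ]
        have h2 : 1 ≤ 2 ^ A.card := Nat.one_le_two_pow
        omega
      · have h2 : ∀ b : Bool, x v = b →
            (fun e => if e ∈ A then x e else if e ∈ E then Function.update ρ v b e else x e) =
            fun e => if e ∈ insert v A then x e else if e ∈ E then ρ e else x e := by
          intro b hb
          funext e
          by_cases h : e = v
          · subst h
            simp [hv, hvE, hb]
          · simp [h, mem_insert]
        cases hx : x v
        · rw [← h2 false hx]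
          simp
        · rw [← h2 true hx]
          simp
  obtain ⟨s, hs, D, hD, hT⟩ := key E (Subset.refl E) fun _ => true
  refine ⟨g, s, D, ?_, hs.trans (Nat.sub_le _ _), fun x => ?_, fun e he L hL => ?_⟩
  · intro w x y hxy
    simp only [g]
    congr 2
    funext e
    by_cases h : e ∈ E
    · simp [h]
    · simp [h, hxy e h]
  · rw [hD x]
    have h1 : (fun e => if e ∈ E then x e else if e ∈ E then true else x e) = x := by
      funext e
      split_ifs <;> rfl
    dsimp only
    rw [h1]
  · refine (hT (Sum.inl e) (mem_map.2 ⟨e, he, rfl⟩) L hL).trans ?_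
    dsimp only
    split_ifs
    · exact le_rfl
    · exact Nat.zero_le _

private theorem dual_lit {D : Circuit V s} {g : Fin s} {v : V} {b : Bool}
    (h : D.gate g = .lit v b) : (dual D).gate g = .lit v (!b) := by
  simp only [dual, h]
  rfl

private theorem dual_and {D : Circuit V s} {g i j : Fin s}
    (h : D.gate g = .and i j) : (dual D).gate g = .or i j := by
  simp only [dual, h]
  rfl

private theorem dual_or {D : Circuit V s} {g i j : Fin s}
    (h : D.gate g = .or i j) : (dual D).gate g = .and i j := by
  simp only [dual, h]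
  rfl

private theorem tree_dual' {D : Circuit V s} {g : Fin s} {L : List V} (h : ATree (dual D) g L) :
    Tree D g L := by
  induction h with
  | lit g v b h1 =>
    rcases hg : D.gate g with ⟨v', b'⟩ | ⟨i', j'⟩ | ⟨i', j'⟩
    · rw [dual_lit hg, Gate.lit.injEq] at h1
      obtain ⟨rfl, -⟩ := h1
      exact .lit g v' b' hg
    · rw [dual_and hg] at h1
      exact absurd h1 (by simp)
    · rw [dual_or hg] at h1
      exact absurd h1 (by simp)
  | left g i j L h1 _ ih =>
    rcases hg : D.gate g with ⟨v', b'⟩ | ⟨i', j'⟩ | ⟨i', j'⟩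
    · rw [dual_lit hg] at h1
      exact absurd h1 (by simp)
    · rw [dual_and hg, Gate.or.injEq] at h1
      obtain ⟨rfl, rfl⟩ := h1
      exact .left g _ _ L hg ih
    · rw [dual_or hg] at h1
      exact absurd h1 (by simp)
  | right g i j L h1 _ ih =>
    rcases hg : D.gate g with ⟨v', b'⟩ | ⟨i', j'⟩ | ⟨i', j'⟩
    · rw [dual_lit hg] at h1
      exact absurd h1 (by simp)
    · rw [dual_and hg, Gate.or.injEq] at h1
      obtain ⟨rfl, rfl⟩ := h1
      exact .right g _ _ L hg ih
    · rw [dual_or hg] at h1
      exact absurd h1 (by simp)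
  | both g i j L L' h1 _ _ ih ih' =>
    rcases hg : D.gate g with ⟨v', b'⟩ | ⟨i', j'⟩ | ⟨i', j'⟩
    · rw [dual_lit hg] at h1
      exact absurd h1 (by simp)
    · rw [dual_and hg] at h1
      exact absurd h1 (by simp)
    · rw [dual_or hg, Gate.and.injEq] at h1
      obtain ⟨rfl, rfl⟩ := h1
      exact .both g _ _ L L' hg ih ih'

open Classical in
/-- the dual form -/
theorem freeUpA [BEq V] [LawfulBEq V] (E : Finset V) (f : (V → Bool) → Prop) :
    ∃ (g : Fin (2 ^ E.card) → (V → Bool) → Bool) (s : ℕ)
      (D : Circuit (V ⊕ Fin (2 ^ E.card)) s),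
      (∀ w x y, (∀ e, e ∉ E → x e = y e) → g w x = g w y) ∧ s ≤ 6 * 2 ^ E.card ∧
      (∀ x, D.Accepts (Sum.elim x fun w => g w x) ↔ f x) ∧
      ∀ e ∈ E, ∀ L, ATree D D.out L → L.count (Sum.inl e) ≤ 1 := by
  obtain ⟨g, s, D, h1, h2, h3, h4⟩ := freeUp E fun x => ¬ f x
  refine ⟨g, s, dual D, h1, h2, fun x => ?_, fun e he L hL => h4 e he L ?_⟩
  · rw [dual_accepts, h3, not_not]
  · exact tree_dual' hL

end Pool.Agent.EX
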