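import Mathlib
import Pool.Agent.Lib.MP_0a1b52_lc_RT.Once
import Pool.Agent.Lib.MP_0a1b52_lc_RT.Dual

/-!
# Reading given variables once in each accepting tree at the cost of a factor `2 ^ m`
-/

set_option autoImplicit false

namespace Pool.Agent.EX

open Finset Pool.Agent.FP Pool.Agent.RT

variable {V : Type} {s : ℕ}

private theorem lawfulSumO (α β : Type) [BEq α] [LawfulBEq α] [BEq β] [LawfulBEq β] :
    LawfulBEq (α ⊕ β) where
  eq_of_beq := by
    rintro (a | b) (a' | b') h
    · exact congrArg Sum.inl (eq_of_beq h)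
    · exact absurd h Bool.false_ne_true
    · exact absurd h Bool.false_ne_true
    · exact congrArg Sum.inr (eq_of_beq h)
  rfl := by
    rintro (a | b)
    · exact (beq_self_eq_true a : (a == a) = true)
    · exact (beq_self_eq_true b : (b == b) = true)

private theorem dual_litO {D : Circuit V s} {g : Fin s} {v : V} {b : Bool}
    (h : D.gate g = .lit v b) : (dual D).gate g = .lit v (!b) := by
  simp only [dual, h]
  rfl

private theorem dual_andO {D : Circuit V s} {g i j : Fin s}
    (h : D.gate g = .and i j) : (dual D).gate g = .or i j := by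
  simp only [dual, h]
  rfl

private theorem dual_orO {D : Circuit V s} {g i j : Fin s}
    (h : D.gate g = .or i j) : (dual D).gate g = .and i j := by
  simp only [dual, h]
  rfl

theorem atree_dual {D : Circuit V s} {g : Fin s} {L : List V} (h : ATree (dual D) g L) :
    Tree D g L := by
  induction h with
  | lit g v b h1 =>
    rcases hg : D.gate g with ⟨v', b'⟩ | ⟨i', j'⟩ | ⟨i', j'⟩
    · rw [dual_litO hg, Gate.lit.injEq] at h1
      obtain ⟨rfl, -⟩ := h1
      exact .lit g v' b' hg
    · rw [dual_andO hg] at h1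
      exact absurd h1 (by simp)
    · rw [dual_orO hg] at h1
      exact absurd h1 (by simp)
  | left g i j L h1 _ ih =>
    rcases hg : D.gate g with ⟨v', b'⟩ | ⟨i', j'⟩ | ⟨i', j'⟩
    · rw [dual_litO hg] at h1
      exact absurd h1 (by simp)
    · rw [dual_andO hg, Gate.or.injEq] at h1
      obtain ⟨rfl, rfl⟩ := h1
      exact .left g _ _ L hg ih
    · rw [dual_orO hg] at h1
      exact absurd h1 (by simp)
  | right g i j L h1 _ ih =>
    rcases hg : D.gate g with ⟨v', b'⟩ | ⟨i', j'⟩ | ⟨i', j'⟩
    · rw [dual_litO hg] at h1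
      exact absurd h1 (by simp)
    · rw [dual_andO hg, Gate.or.injEq] at h1
      obtain ⟨rfl, rfl⟩ := h1
      exact .right g _ _ L hg ih
    · rw [dual_orO hg] at h1
      exact absurd h1 (by simp)
  | both g i j L L' h1 _ _ ih ih' =>
    rcases hg : D.gate g with ⟨v', b'⟩ | ⟨i', j'⟩ | ⟨i', j'⟩
    · rw [dual_litO hg] at h1
      exact absurd h1 (by simp)
    · rw [dual_andO hg] at h1
      exact absurd h1 (by simp)
    · rw [dual_orO hg, Gate.and.injEq] at h1
      obtain ⟨rfl, rfl⟩ := h1
      exact .both g _ _ L L' hg ih ih'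

/-- **Reading the variables of `E` once in each accepting tree.** -/
theorem onceD {V W : Type} [BEq V] [LawfulBEq V] [BEq W] [LawfulBEq W] {s : ℕ}
    (D : Circuit (V ⊕ W) s) (E : Finset V) (u : V ⊕ W) (hu : ∀ e ∈ E, u ≠ Sum.inl e) :
    ∃ (s' : ℕ) (D' : Circuit (V ⊕ W) s'), s' ≤ 2 ^ E.card * (s + 2 * E.card + 5) ∧
      (∀ x, D'.Accepts x ↔ D.Accepts x) ∧
      ∀ e ∈ E, ∀ L, ATree D' D'.out L → L.count (Sum.inl e) ≤ 1 := by
  classical
  have := lawfulSumO V W
  obtain ⟨s', D', h1, h2, h3⟩ := once (dual D) (E.map ⟨Sum.inl, Sum.inl_injective⟩) u (by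
    intro h
    obtain ⟨e, he, h1⟩ := mem_map.1 h
    exact hu e he h1.symm)
  rw [card_map] at h1
  refine ⟨s', dual D', h1, fun x => ?_, fun e he L hL => ?_⟩
  · rw [dual_accepts, h2, dual_accepts, not_not]
  · exact h3 (Sum.inl e) (mem_map.2 ⟨e, he, rfl⟩) L (atree_dual hL)

end Pool.Agent.EX
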