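import Mathlib
import Pool.Agent.Lib.MP_0a1b52_lc_LS.MainV
import Pool.Agent.Lib.MP_0a1b52_lc_RT.DefsL

/-!
# Reading given variables few times: sets of edges which touch many vertices, signed leaves
-/

set_option autoImplicit false

namespace Pool.Agent.EX

open Finset Pool.Agent.FP Pool.Agent.RT Pool.Agent.LS

open Classical in
/-- both answers, for sets `E` of edges which touch at least `2 * m` vertices -/
theorem partV (r m n : ℕ) (hr : 1 ≤ r) (hm : (2 : ℝ) ^ (128 * Real.sqrt r) ≤ m)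
    (hn : 9 * m ^ 2 ≤ n) (E : Finset (EdgeVar n)) (W : Finset (Fin n)) (hW : 2 * m ≤ W.card)
    (hE : ∀ v ∈ W, ∃ e ∈ E, e.1.1 = v ∨ e.1.2 = v) :
      (∃ (N : ℕ) (Q : Fin N → EdgeVar n → Bool), 0 < N ∧ (∀ i, ¬ Clq (Q i)) ∧
        ∀ (t : ℕ) (g : Fin t → (EdgeVar n → Bool) → Bool),
          (∀ w x y, (∀ f, f ∉ E → x f = y f) → g w x = g w y) →
        ∀ (s : ℕ) (D : Circuit (EdgeVar n ⊕ Fin t) s),
          (∀ x, Clq x → D.Accepts (Sum.elim x fun w => g w x)) →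
          (s : ℝ) ≤ (2 : ℝ) ^ (m / (2 : ℝ) ^ (128 * Real.sqrt r)) →
          (∀ e ∈ E, ∀ L, LTree D D.out L → (L.map Prod.fst).count (Sum.inl e) ≤ r) →
          ((univ.filter fun i =>
            ¬ D.Accepts (Sum.elim (Q i) fun w => g w (Q i))).card : ℝ) ≤
              N * (2 : ℝ) ^ (-(m / (2 : ℝ) ^ (128 * Real.sqrt r)))) ∧
      ∃ (N : ℕ) (P : Fin N → EdgeVar n → Bool), 0 < N ∧ (∀ i, Clq (P i)) ∧
        ∀ (t : ℕ) (g : Fin t → (EdgeVar n → Bool) → Bool),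
          (∀ w x y, (∀ f, f ∉ E → x f = y f) → g w x = g w y) →
        ∀ (s : ℕ) (D : Circuit (EdgeVar n ⊕ Fin t) s),
          (∀ x, ¬ Clq x → ¬ D.Accepts (Sum.elim x fun w => g w x)) →
          (s : ℝ) ≤ (2 : ℝ) ^ (m / (2 : ℝ) ^ (128 * Real.sqrt r)) →
          (∀ e ∈ E, ∀ L, ATree D D.out L → L.count (Sum.inl e) ≤ r) →
          ((univ.filter fun i =>
            D.Accepts (Sum.elim (P i) fun w => g w (P i))).card : ℝ) ≤
              N * (2 : ℝ) ^ (-(m / (2 : ℝ) ^ (128 * Real.sqrt r))) := by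
  refine ⟨?_, mainVA r m n hr hm hn E W hW hE⟩
  obtain ⟨N, Q, hN, hQ, h⟩ := mainV r m n hr hm hn E W hW hE false
  refine ⟨N, Q, hN, fun i hi => by simpa using (hQ i).1 hi, fun t g hg s D hD hs hcnt => ?_⟩
  refine h t g hg s D (fun x hx => ?_) hs (fun e he M hM => ?_)
  · exact ⟨fun hc => (hx (hD x hc)).elim, fun hc => Bool.noConfusion hc⟩
  · obtain ⟨L, hL, rfl⟩ := (tree_iff D D.out M).1 hM
    exact hcnt e he L hL

end Pool.Agent.EX
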