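import Mathlib
import Pool.Agent.Lib.MP_0a1b52_lc_EX.Exact
import Pool.Agent.Lib.MP_0a1b52_lc_LS.MainU
import Pool.Agent.Lib.MP_0a1b52_lc_RT.DefsL
import Pool.Agent.Lib.MP_0a1b52_lc_RT.Dual

/-!
# Reading given variables few times: random choices, and functions of them and of the other variables

The circuits have, besides the variables, `t` further inputs; the further input `j` has on the input
`x` and the random choice `ω` the value `g j x ω`, any function of `ω` and of the variables outside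
the given set.
-/

set_option autoImplicit false

namespace Pool.Agent.EX

open Finset Pool.Agent.FP Pool.Agent.RT Pool.Agent.LS

private theorem sum_om {Ω : Type} [Fintype Ω] {N : ℕ} (P : Fin N → Ω → Prop)
    [∀ i ω, Decidable (P i ω)] (c : ℝ)
    (h : ∀ ω, ((univ.filter fun i => P i ω).card : ℝ) ≤ N * c) :
    ((univ.filter fun p : Fin N × Ω => P p.1 p.2).card : ℝ) ≤ N * Fintype.card Ω * c := by
  have h1 : (univ.filter fun p : Fin N × Ω => P p.1 p.2).card =
      ∑ ω : Ω, (univ.filter fun i => P i ω).card := by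
    rw [card_filter, ← univ_product_univ, sum_product_right]
    refine sum_congr rfl fun ω _ => ?_
    rw [card_filter]
  rw [h1, Nat.cast_sum]
  calc ∑ ω : Ω, ((univ.filter fun i => P i ω).card : ℝ) ≤ ∑ _ω : Ω, N * c :=
        sum_le_sum fun ω _ => h ω
    _ = N * Fintype.card Ω * c := by
        rw [sum_const, card_univ, nsmul_eq_mul]
        ring

open Classical in
/-- the side of the cliques, `r` readings -/
theorem randA (r m n : ℕ) (hr : 1 ≤ r) (hm : (2 : ℝ) ^ (256 * Real.sqrt r) ≤ m) (hn : m ≤ n)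
    (E : Finset (EdgeVar n)) (hE : m ≤ E.card) :
      ∃ (N : ℕ) (P : Fin N → EdgeVar n → Bool), 0 < N ∧ (∀ i, Clq (P i)) ∧
        ∀ (Ω : Type) [Fintype Ω] (t : ℕ) (g : Fin t → (EdgeVar n → Bool) → Ω → Bool),
          (∀ j x y ω, (∀ f, f ∉ E → x f = y f) → g j x ω = g j y ω) →
        ∀ (s : ℕ) (D : Circuit (EdgeVar n ⊕ Fin t) s),
          (∀ x ω, D.Accepts (Sum.elim x fun j => g j x ω) → Clq x) →
          (s : ℝ) ≤ (2 : ℝ) ^ Real.sqrt (m / (2 : ℝ) ^ (256 * Real.sqrt r)) →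
          (∀ e ∈ E, ∀ L, ATree D D.out L → L.count (Sum.inl e) ≤ r) →
          ((univ.filter fun p : Fin N × Ω =>
            D.Accepts (Sum.elim (P p.1) fun j => g j (P p.1) p.2)).card : ℝ) ≤
            N * Fintype.card Ω * (2 : ℝ) ^ (-Real.sqrt (m / (2 : ℝ) ^ (256 * Real.sqrt r))) := by
  obtain ⟨N, P, hN, hP, h⟩ := mainUA r m n hr hm hn E hE
  refine ⟨N, P, hN, hP, fun Ω _ t g hg s D hD hs hcnt => ?_⟩
  exact sum_om (fun i ω => D.Accepts (Sum.elim (P i) fun j => g j (P i) ω)) _ fun ω =>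
    h t (fun j x => g j x ω) (fun j x y hxy => hg j x y ω hxy) s D
      (fun x hx hc => hx (hD x ω hc)) hs hcnt

open Classical in
/-- the side of the non-cliques, `r` readings -/
theorem randL (r m n : ℕ) (hr : 1 ≤ r) (hm : (2 : ℝ) ^ (256 * Real.sqrt r) ≤ m) (hn : m ≤ n)
    (E : Finset (EdgeVar n)) (hE : m ≤ E.card) :
      ∃ (N : ℕ) (Q : Fin N → EdgeVar n → Bool), 0 < N ∧ (∀ i, ¬ Clq (Q i)) ∧
        ∀ (Ω : Type) [Fintype Ω] (t : ℕ) (g : Fin t → (EdgeVar n → Bool) → Ω → Bool),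
          (∀ j x y ω, (∀ f, f ∉ E → x f = y f) → g j x ω = g j y ω) →
        ∀ (s : ℕ) (D : Circuit (EdgeVar n ⊕ Fin t) s),
          (∀ x ω, Clq x → D.Accepts (Sum.elim x fun j => g j x ω)) →
          (s : ℝ) ≤ (2 : ℝ) ^ (m / (2 : ℝ) ^ (256 * Real.sqrt r)) →
          (∀ e ∈ E, ∀ L, Tree D D.out L → L.count (Sum.inl e) ≤ r) →
          ((univ.filter fun p : Fin N × Ω =>
            ¬ D.Accepts (Sum.elim (Q p.1) fun j => g j (Q p.1) p.2)).card : ℝ) ≤
            N * Fintype.card Ω * (2 : ℝ) ^ (-(m / (2 : ℝ) ^ (256 * Real.sqrt r))) := by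
  obtain ⟨N, Q, hN, hQ, h⟩ := mainUS r m n hr hm hn E hE
  refine ⟨N, Q, hN, hQ, fun Ω _ t g hg s D hD hs hcnt => ?_⟩
  exact sum_om (fun i ω => ¬ D.Accepts (Sum.elim (Q i) fun j => g j (Q i) ω)) _ fun ω =>
    h t (fun j x => g j x ω) (fun j x y hxy => hg j x y ω hxy) s D
      (fun x hx => hD x ω hx) hs hcnt

open Classical in
/-- the side of the cliques, reading the edges of a star forest once: the exact exponent -/
theorem exactA : ∃ m₀ : ℕ, ∀ m ≥ m₀, ∀ n ≥ m ^ 7, ∀ (u z : Fin m → Fin n),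
    Function.Injective u → (∀ i j, z i ≠ u j) → ∀ e : Fin m → EdgeVar n,
    (∀ i, (e i).1 = (z i, u i) ∨ (e i).1 = (u i, z i)) →
      ∃ (N : ℕ) (P : Fin N → EdgeVar n → Bool), 0 < N ∧ (∀ i, Clq (P i)) ∧
        ∀ (Ω : Type) [Fintype Ω] (t : ℕ) (g : Fin t → (EdgeVar n → Bool) → Ω → Bool),
          (∀ j x y ω, (∀ f, (∀ i, f ≠ e i) → x f = y f) → g j x ω = g j y ω) →
        ∀ (s : ℕ) (D : Circuit (EdgeVar n ⊕ Fin t) s),
          (∀ x ω, D.Accepts (Sum.elim x fun j => g j x ω) → Clq x) →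
          (∀ i L, ATree D D.out L → L.count (Sum.inl (e i)) ≤ 1) →
          ((univ.filter fun p : Fin N × Ω =>
            D.Accepts (Sum.elim (P p.1) fun j => g j (P p.1) p.2)).card : ℝ) ≤
            N * Fintype.card Ω * (s * m ^ 12 / 2 ^ m) := by
  obtain ⟨m₀, h⟩ := exactU
  refine ⟨m₀, fun m hm n hn u z hu hz e he => ?_⟩
  obtain ⟨N, Q, hN, hQ, h1⟩ := h m hm n hn u z hu hz e he true
  refine ⟨N, Q, hN, fun i => (hQ i).2 rfl, fun Ω _ t g hg s D hD hcnt => ?_⟩
  refine sum_om (fun i ω => D.Accepts (Sum.elim (Q i) fun j => g j (Q i) ω)) _ fun ω => ?_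
  have h3 := h1 t (fun j x => g j x ω) (fun j x y hxy => hg j x y ω hxy) s (dual D) (fun x hx => by
      rw [dual_accepts, not_not] at hx
      exact iff_of_true (hD x ω hx) rfl) (fun i L hL => hcnt i L (tree_dual hL))
  have h4 : (univ.filter fun i => ¬ (dual D).Accepts (Sum.elim (Q i) fun j => g j (Q i) ω)) =
      univ.filter fun i => D.Accepts (Sum.elim (Q i) fun j => g j (Q i) ω) := by
    ext i
    rw [mem_filter, mem_filter, dual_accepts, not_not]
  rw [h4] at h3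
  exact h3

open Classical in
/-- the side of the non-cliques, reading the edges of a star forest once: the exact exponent -/
theorem exactL : ∃ m₀ : ℕ, ∀ m ≥ m₀, ∀ n ≥ m ^ 7, ∀ (u z : Fin m → Fin n),
    Function.Injective u → (∀ i j, z i ≠ u j) → ∀ e : Fin m → EdgeVar n,
    (∀ i, (e i).1 = (z i, u i) ∨ (e i).1 = (u i, z i)) →
      ∃ (N : ℕ) (Q : Fin N → EdgeVar n → Bool), 0 < N ∧ (∀ i, ¬ Clq (Q i)) ∧
        ∀ (Ω : Type) [Fintype Ω] (t : ℕ) (g : Fin t → (EdgeVar n → Bool) → Ω → Bool),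
          (∀ j x y ω, (∀ f, (∀ i, f ≠ e i) → x f = y f) → g j x ω = g j y ω) →
        ∀ (s : ℕ) (D : Circuit (EdgeVar n ⊕ Fin t) s),
          (∀ x ω, Clq x → D.Accepts (Sum.elim x fun j => g j x ω)) →
          (∀ i L, Tree D D.out L → L.count (Sum.inl (e i)) ≤ 1) →
          ((univ.filter fun p : Fin N × Ω =>
            ¬ D.Accepts (Sum.elim (Q p.1) fun j => g j (Q p.1) p.2)).card : ℝ) ≤
            N * Fintype.card Ω * (s * m ^ 12 / 2 ^ m) := by
  obtain ⟨m₀, h⟩ := exactU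
  refine ⟨m₀, fun m hm n hn u z hu hz e he => ?_⟩
  obtain ⟨N, Q, hN, hQ, h1⟩ := h m hm n hn u z hu hz e he false
  refine ⟨N, Q, hN, fun i hi => by simpa using (hQ i).1 hi, fun Ω _ t g hg s D hD hcnt => ?_⟩
  exact sum_om (fun i ω => ¬ D.Accepts (Sum.elim (Q i) fun j => g j (Q i) ω)) _ fun ω =>
    h1 t (fun j x => g j x ω) (fun j x y hxy => hg j x y ω hxy) s D
      (fun x hx => ⟨fun hc => (hx (hD x ω hc)).elim, fun hc => Bool.noConfusion hc⟩) hcnt

end Pool.Agent.EX
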