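import Mathlib
import Pool.Agent.Lib.MP_0a1b52_lc_LS.MainU
import Pool.Agent.Lib.MP_0a1b52_lc_LS.MainV

/-!
# Reading given variables few times: both answers, by squares and by the vertices touched

The circuits have, besides the variables, `t` further inputs; the further input `j` has on the input
`x` and the random choice `ω` the value `g j x ω`, any function of `ω` and of the variables outside
the given set.
-/

set_option autoImplicit false

namespace Pool.Agent.EX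

open Finset Pool.Agent.FP Pool.Agent.RT Pool.Agent.LS

private theorem sum_om {Ω : Type} [Fintype Ω] {N : ℕ} (P : Fin N → Ω → Prop)
    [∀ i ω, Decidable (P i ω)] (c : ℝ)
    (h : ∀ ω, ((univ.filter fun i => P i ω).card : ℝ) ≤ N * c) :
    ((univ.filter fun p : Fin N × Ω => P p.1 p.2).card : ℝ) ≤ N * Fintype.card Ω * c := by
  have h1 : (univ.filter fun p : Fin N × Ω => P p.1 p.2).card =
      ∑ ω : Ω, (univ.filter fun i => P i ω).card := by
    rw [card_filter, ← univ_product_univ, sum_product_right]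
    refine sum_congr rfl fun ω _ => ?_
    rw [card_filter]
  rw [h1, Nat.cast_sum]
  calc ∑ ω : Ω, ((univ.filter fun i => P i ω).card : ℝ) ≤ ∑ _ω : Ω, N * c :=
        sum_le_sum fun ω _ => h ω
    _ = N * Fintype.card Ω * c := by
        rw [sum_const, card_univ, nsmul_eq_mul]
        ring

private theorem pow128 (r : ℕ) :
    (2 : ℝ) ^ (256 * Real.sqrt r) = ((2 : ℝ) ^ (128 * Real.sqrt r)) ^ 2 := by
  rw [← Real.rpow_mul_natCast (by norm_num)]
  congr 1
  push_cast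
  ring

private theorem sqrtV (m r : ℕ) :
    Real.sqrt (((m ^ 2 : ℕ) : ℝ) / (2 : ℝ) ^ (256 * Real.sqrt r)) =
      m / (2 : ℝ) ^ (128 * Real.sqrt r) := by
  have h1 : ((m ^ 2 : ℕ) : ℝ) / (2 : ℝ) ^ (256 * Real.sqrt r) =
      (m / (2 : ℝ) ^ (128 * Real.sqrt r)) ^ 2 := by
    rw [pow128, div_pow]
    push_cast
    ring
  rw [h1, Real.sqrt_sq (by positivity)]

/-- `E` is a large set: it has at least `m ^ 2` elements, or it touches at least `2 m` vertices -/
def Big {n : ℕ} (m : ℕ) (E : Finset (EdgeVar n)) : Prop :=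
  (m ^ 2 ≤ E.card ∧ m ^ 2 ≤ n) ∨
    (∃ W : Finset (Fin n), 2 * m ≤ W.card ∧ ∀ v ∈ W, ∃ e ∈ E, e.1.1 = v ∨ e.1.2 = v) ∧
      9 * m ^ 2 ≤ n

open Classical in
/-- both answers -/
theorem bigT (r m n : ℕ) (hr : 1 ≤ r) (hm : (2 : ℝ) ^ (128 * Real.sqrt r) ≤ m)
    (E : Finset (EdgeVar n)) (hE : Big m E) (ty : Bool) :
      ∃ (N : ℕ) (Q : Fin N → EdgeVar n → Bool), 0 < N ∧ (∀ i, Clq (Q i) ↔ ty = true) ∧
        ∀ (t : ℕ) (g : Fin t → (EdgeVar n → Bool) → Bool),
          (∀ w x y, (∀ f, f ∉ E → x f = y f) → g w x = g w y) →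
        ∀ (s : ℕ) (D : Circuit (EdgeVar n ⊕ Fin t) s),
          (∀ x, ¬ D.Accepts (Sum.elim x fun w => g w x) → (Clq x ↔ ty = true)) →
          (s : ℝ) ≤ (2 : ℝ) ^ (m / (2 : ℝ) ^ (128 * Real.sqrt r)) →
          (∀ e ∈ E, ∀ L, Tree D D.out L → L.count (Sum.inl e) ≤ r) →
          ((univ.filter fun i => ¬ D.Accepts (Sum.elim (Q i) fun w => g w (Q i))).card : ℝ) ≤
            N * (2 : ℝ) ^ (-(m / (2 : ℝ) ^ (128 * Real.sqrt r))) := by
  rcases hE with ⟨h1, h2⟩ | ⟨⟨W, h1, h2⟩, h3⟩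
  · have h4 : (2 : ℝ) ^ (256 * Real.sqrt r) ≤ ((m ^ 2 : ℕ) : ℝ) := by
      rw [pow128]
      push_cast
      exact pow_le_pow_left₀ (by positivity) hm 2
    have h5 := mainUT r (m ^ 2) n hr h4 h2 E h1 ty
    rw [sqrtV] at h5
    exact h5
  · exact mainV r m n hr hm h3 E W h1 h2 ty

open Classical in
/-- the answer yes -/
theorem bigA (r m n : ℕ) (hr : 1 ≤ r) (hm : (2 : ℝ) ^ (128 * Real.sqrt r) ≤ m)
    (E : Finset (EdgeVar n)) (hE : Big m E) :
      ∃ (N : ℕ) (P : Fin N → EdgeVar n → Bool), 0 < N ∧ (∀ i, Clq (P i)) ∧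
        ∀ (t : ℕ) (g : Fin t → (EdgeVar n → Bool) → Bool),
          (∀ w x y, (∀ f, f ∉ E → x f = y f) → g w x = g w y) →
        ∀ (s : ℕ) (D : Circuit (EdgeVar n ⊕ Fin t) s),
          (∀ x, ¬ Clq x → ¬ D.Accepts (Sum.elim x fun w => g w x)) →
          (s : ℝ) ≤ (2 : ℝ) ^ (m / (2 : ℝ) ^ (128 * Real.sqrt r)) →
          (∀ e ∈ E, ∀ L, ATree D D.out L → L.count (Sum.inl e) ≤ r) →
          ((univ.filter fun i => D.Accepts (Sum.elim (P i) fun w => g w (P i))).card : ℝ) ≤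
            N * (2 : ℝ) ^ (-(m / (2 : ℝ) ^ (128 * Real.sqrt r))) := by
  obtain ⟨N, Q, hN, hQ, h⟩ := bigT r m n hr hm E hE true
  refine ⟨N, Q, hN, fun i => (hQ i).2 rfl, fun t g hg s D hD hs hcnt => ?_⟩
  have h3 := h t g hg s (dual D) (fun x hx => by
      rw [dual_accepts, not_not] at hx
      refine ⟨fun _ => rfl, fun _ => ?_⟩
      by_contra hc
      exact hD x hc hx) hs (fun e he L hL => hcnt e he L (tree_dual hL))
  have h4 : (univ.filter fun i => ¬ (dual D).Accepts (Sum.elim (Q i) fun w => g w (Q i))) =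
      univ.filter fun i => D.Accepts (Sum.elim (Q i) fun w => g w (Q i)) := by
    ext i
    rw [mem_filter, mem_filter, dual_accepts, not_not]
  rw [h4] at h3
  exact h3

open Classical in
/-- the answer yes, with random choices -/
theorem bigRA (r m n : ℕ) (hr : 1 ≤ r) (hm : (2 : ℝ) ^ (128 * Real.sqrt r) ≤ m)
    (E : Finset (EdgeVar n)) (hE : Big m E) :
      ∃ (N : ℕ) (P : Fin N → EdgeVar n → Bool), 0 < N ∧ (∀ i, Clq (P i)) ∧
        ∀ (Ω : Type) [Fintype Ω] (t : ℕ) (g : Fin t → (EdgeVar n → Bool) → Ω → Bool),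
          (∀ j x y ω, (∀ f, f ∉ E → x f = y f) → g j x ω = g j y ω) →
        ∀ (s : ℕ) (D : Circuit (EdgeVar n ⊕ Fin t) s),
          (∀ x ω, D.Accepts (Sum.elim x fun j => g j x ω) → Clq x) →
          (s : ℝ) ≤ (2 : ℝ) ^ (m / (2 : ℝ) ^ (128 * Real.sqrt r)) →
          (∀ e ∈ E, ∀ L, ATree D D.out L → L.count (Sum.inl e) ≤ r) →
          ((univ.filter fun p : Fin N × Ω =>
            D.Accepts (Sum.elim (P p.1) fun j => g j (P p.1) p.2)).card : ℝ) ≤
            N * Fintype.card Ω * (2 : ℝ) ^ (-(m / (2 : ℝ) ^ (128 * Real.sqrt r))) := by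
  obtain ⟨N, P, hN, hP, h⟩ := bigA r m n hr hm E hE
  refine ⟨N, P, hN, hP, fun Ω _ t g hg s D hD hs hcnt => ?_⟩
  exact sum_om (fun i ω => D.Accepts (Sum.elim (P i) fun j => g j (P i) ω)) _ fun ω =>
    h t (fun j x => g j x ω) (fun j x y hxy => hg j x y ω hxy) s D
      (fun x hx hc => hx (hD x ω hc)) hs hcnt

end Pool.Agent.EX
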